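import Pool.Agent.helper37.WittC.Gr1
import Pool.Agent.helper37.Witt.Cofinal2

/-!
Two-sided ideals of the enveloping algebra and their ideals of leading forms.
-/

set_option linter.unusedSectionVars false
set_option linter.unusedVariables false

namespace WittACC

namespace WittGen

variable {K : Type*} [Field K] {U : Type*} [Ring U] [Algebra K U] (G : WittGen K U)

/-- The word attached to a multiset of indices. -/
noncomputable def wd (κ : ℤ →₀ ℕ) : List ℤ := (Finsupp.toMultiset κ).toList

lemma wd_add (κ : ℤ →₀ ℕ) (m : ℤ) : (wd (κ + Finsupp.single m 1)).Perm (m :: wd κ) := by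
  rw [wd, wd, ← Multiset.coe_eq_coe, ← Multiset.cons_coe]
  simp only [Multiset.coe_toList, map_add, Finsupp.toMultiset_single]
  rw [one_nsmul, add_comm, Multiset.singleton_add]

lemma wd_add_length (κ : ℤ →₀ ℕ) (m : ℤ) :
    (wd (κ + Finsupp.single m 1)).length = (wd κ).length + 1 := by
  rw [(wd_add κ m).length_eq]; simp

/-- The degree `d` part of the lift from polynomials. -/
noncomputable def lft (d : ℕ) : Sy K →ₗ[K] U :=
  (MvPolynomial.basisMonomials ℤ K).constr K
    (fun κ => if (wd κ).length = d then G.W (wd κ) else 0)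

lemma lft_monomial (d : ℕ) (κ : ℤ →₀ ℕ) :
    G.lft d (MvPolynomial.monomial κ 1) = if (wd κ).length = d then G.W (wd κ) else 0 := by
  have := (MvPolynomial.basisMonomials ℤ K).constr_basis K
    (fun κ => if (wd κ).length = d then G.W (wd κ) else 0) κ
  simpa [lft] using this

lemma sy_induction {P : Sy K → Prop} (f : Sy K) (h0 : P 0)
    (hm : ∀ κ, P (MvPolynomial.monomial κ 1)) (hs : ∀ (c : K) x, P x → P (c • x))
    (ha : ∀ x y, P x → P y → P (x + y)) : P f := by
  have : f ∈ Submodule.span K (Set.range (MvPolynomial.basisMonomials ℤ K)) := by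
    rw [(MvPolynomial.basisMonomials ℤ K).span_eq]; trivial
  induction this using Submodule.span_induction with
  | mem x hx => obtain ⟨κ, rfl⟩ := hx; exact hm κ
  | zero => exact h0
  | add x y _ _ hx hy => exact ha x y hx hy
  | smul c x _ hx => exact hs c x hx

lemma lft_mem (d : ℕ) (f : Sy K) : G.lft d f ∈ G.F (d + 1) := by
  induction f using sy_induction with
  | hm κ =>
    rw [lft_monomial]
    split_ifs with h
    · exact G.W_mem_F (by omega)
    · exact zero_mem _
  | h0 => rw [map_zero]; exact zero_mem _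
  | ha x y hx hy => rw [map_add]; exact add_mem hx hy
  | hs c x hx => rw [map_smul]; exact Submodule.smul_mem _ _ hx

lemma lft_X_mul (d : ℕ) (m : ℤ) (f : Sy K) :
    G.lft (d + 1) (MvPolynomial.X m * f) - G.E m * G.lft d f ∈ G.F (d + 1) := by
  induction f using sy_induction with
  | hm κ =>
    have h1 : MvPolynomial.X m * MvPolynomial.monomial κ (1 : K)
        = MvPolynomial.monomial (κ + Finsupp.single m 1) 1 := by
      rw [MvPolynomial.X, MvPolynomial.monomial_mul, one_mul, add_comm]
    rw [h1, lft_monomial, lft_monomial, wd_add_length]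
    by_cases h : (wd κ).length = d
    · rw [if_pos (by omega), if_pos h, ← G.W_cons]
      have := G.perm_sub_mem (wd_add κ m)
      rwa [wd_add_length, h] at this
    · rw [if_neg (by omega), if_neg h]; simp
  | h0 => simp
  | ha x y hx hy =>
    rw [mul_add, map_add, map_add, mul_add]
    have := add_mem hx hy
    convert this using 1; abel
  | hs c x hx =>
    have := Submodule.smul_mem _ c hx
    rw [smul_sub] at this
    rw [mul_smul_comm, map_smul, map_smul, mul_smul_comm]
    exact this

lemma lft_zero_X_mul (m : ℤ) (f : Sy K) : G.lft 0 (MvPolynomial.X m * f) = 0 := by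
  induction f using sy_induction with
  | hm κ =>
    have h1 : MvPolynomial.X m * MvPolynomial.monomial κ (1 : K)
        = MvPolynomial.monomial (κ + Finsupp.single m 1) 1 := by
      rw [MvPolynomial.X, MvPolynomial.monomial_mul, one_mul, add_comm]
    rw [h1, lft_monomial, wd_add_length, if_neg (by omega)]
  | h0 => simp
  | ha x y hx hy => rw [mul_add, map_add, hx, hy, add_zero]
  | hs c x hx => rw [mul_smul_comm, map_smul, hx, smul_zero]

lemma ad_mem_F {d : ℕ} (v : ℤ) {x : U} (hx : x ∈ G.F d) : G.ad v x ∈ G.F d := by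
  have : G.F d ≤ (G.F d).comap (G.ad v) := G.F_le fun l hl => by
    have h1 : G.W l = G.T l.length (mon l.get) := by rw [T_mon, List.ofFn_get]
    rw [Submodule.mem_comap, h1, ad_T]
    exact G.F_mono hl (G.T_mem_F _ _)
  exact this hx

lemma ad_E_mul (v m : ℤ) (y : U) :
    G.ad v (G.E m * y) = ((v : K) - m) • (G.E (v + m) * y) + G.E m * G.ad v y := by
  have h := G.comm v m
  rw [ad_apply, ad_apply, ← smul_mul_assoc, ← h]
  noncomm_ring

lemma lft_del_mem (v : ℤ) (f : Sy K) : ∀ d, G.lft d (del v f) - G.ad v (G.lft d f) ∈ G.F d := by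
  induction f using MvPolynomial.induction_on with
  | C r =>
    intro d
    have h1 : (MvPolynomial.C r : Sy K) = r • MvPolynomial.monomial 0 1 := by
      rw [MvPolynomial.smul_monomial, smul_eq_mul, mul_one]; rfl
    have h2 : del v (MvPolynomial.C r : Sy K) = 0 := by
      have := (del (K := K) v).map_algebraMap r
      rwa [MvPolynomial.algebraMap_eq] at this
    rw [h2, h1, map_smul, lft_monomial, map_zero, zero_sub, neg_mem_iff, map_smul]
    refine Submodule.smul_mem _ _ ?_
    split_ifs with h
    · have h3 : wd 0 = [] := by simp [wd]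
      rw [h3, W_nil, ad_apply]; simp
    · rw [map_zero]; exact zero_mem _
  | add p q hp hq =>
    intro d
    rw [map_add, map_add, map_add, map_add]
    have := add_mem (hp d) (hq d)
    convert this using 1; abel
  | mul_X g m hg =>
    intro d
    rw [mul_comm g, Derivation.leibniz, del_X, smul_eq_mul, smul_eq_mul, mul_smul_comm,
      mul_comm g, map_add, map_smul]
    cases d with
    | zero =>
      rw [lft_zero_X_mul, lft_zero_X_mul, lft_zero_X_mul]; simp
    | succ d =>
      have h1 := G.lft_X_mul d m (del v g)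
      have h2 := Submodule.smul_mem _ ((v : K) - m) (G.lft_X_mul d (v + m) g)
      have h3 := G.E_mul_mem m (hg d)
      have h4 := G.ad_mem_F v (G.lft_X_mul d m g)
      have h5 := sub_mem (add_mem (add_mem h1 h2) h3) h4
      convert h5 using 1
      rw [map_sub, ad_E_mul, smul_sub, mul_sub]
      abel

/-- A two-sided ideal as a subspace. -/
def sbm (I : TwoSidedIdeal U) : Submodule K U where
  carrier := {x | x ∈ I}
  add_mem' hx hy := I.add_mem hx hy
  zero_mem' := I.zero_mem
  smul_mem' c x hx := by
    change c • x ∈ I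
    rw [Algebra.smul_def]; exact I.mul_mem_left _ _ hx

lemma mem_sbm {I : TwoSidedIdeal U} {x : U} : x ∈ (sbm I : Submodule K U) ↔ x ∈ I := Iff.rfl

/-- The ideal of leading forms. -/
noncomputable def JJ (I : TwoSidedIdeal U) : Ideal (Sy K) where
  carrier := {f | ∀ d, G.lft d f ∈ sbm I ⊔ G.F d}
  add_mem' hf hg d := by rw [map_add]; exact add_mem (hf d) (hg d)
  zero_mem' d := by rw [map_zero]; exact zero_mem _
  smul_mem' a f hf := by
    induction a using MvPolynomial.induction_on generalizing f with
    | C r =>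
      intro d
      have : (MvPolynomial.C r : Sy K) • f = r • f := by
        rw [MvPolynomial.smul_eq_C_mul]; rfl
      rw [this, map_smul]
      exact Submodule.smul_mem _ _ (hf d)
    | add a b ha hb =>
      intro d
      rw [add_smul, map_add]; exact add_mem (ha f hf d) (hb f hf d)
    | mul_X a m ha =>
      rw [mul_smul]
      refine ha _ ?_
      intro d
      rw [smul_eq_mul]
      cases d with
      | zero => rw [lft_zero_X_mul]; exact zero_mem _
      | succ d =>
        have h1 := G.lft_X_mul d m f
        have h2 : G.E m * G.lft d f ∈ sbm I ⊔ G.F (d + 1) := by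
          obtain ⟨z, hz, u, hu, hzu⟩ := Submodule.mem_sup.1 (hf d)
          rw [← hzu, mul_add]
          exact Submodule.add_mem_sup (I.mul_mem_left _ _ hz) (G.E_mul_mem m hu)
        have h4 := add_mem (Submodule.mem_sup_right (S := sbm I) h1) h2
        simpa using h4

lemma mem_JJ {I : TwoSidedIdeal U} {f : Sy K} : f ∈ G.JJ I ↔ ∀ d, G.lft d f ∈ sbm I ⊔ G.F d := Iff.rfl

lemma JJ_mono {I J : TwoSidedIdeal U} (h : I ≤ J) : G.JJ I ≤ G.JJ J := fun f hf d =>
  (sup_le_sup_right (show (sbm I : Submodule K U) ≤ sbm J from fun x hx => h hx) _) (hf d)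

lemma JJ_DSt (I : TwoSidedIdeal U) : DSt (G.JJ I) := by
  intro v f hf d
  have h1 := G.lft_del_mem v f d
  have h2 : G.ad v (G.lft d f) ∈ sbm I ⊔ G.F d := by
    obtain ⟨z, hz, u, hu, hzu⟩ := Submodule.mem_sup.1 (hf d)
    rw [← hzu, map_add]
    refine Submodule.add_mem_sup ?_ (G.ad_mem_F v hu)
    rw [ad_apply]
    exact sub_mem (I.mul_mem_left _ _ hz : G.E v * z ∈ (sbm I : Submodule K U)) (I.mul_mem_right _ _ hz)
  have h4 := add_mem (Submodule.mem_sup_right (S := sbm I) h1) h2
  simpa using h4

/-- Leading words of degree exactly `d`. -/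
noncomputable def PPd (d : ℕ) : Submodule K (Sy K) where
  carrier := {f | ∀ d', d' ≠ d → G.lft d' f = 0}
  add_mem' hf hg d' h := by rw [map_add, hf d' h, hg d' h, add_zero]
  zero_mem' d' h := map_zero _
  smul_mem' a f hf d' h := by rw [map_smul, hf d' h, smul_zero]

lemma word_mem' (l : List ℤ) : G.W l ∈ (G.PPd l.length).map (G.lft l.length) ⊔ G.F l.length := by
  set κ := Multiset.toFinsupp (l : Multiset ℤ) with hκ
  have h1 : (wd κ).Perm l := by
    rw [wd, ← Multiset.coe_eq_coe, hκ]; simp
  have h2 : (wd κ).length = l.length := h1.length_eq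
  have h3 : G.W (wd κ) ∈ (G.PPd l.length).map (G.lft l.length) := by
    refine ⟨MvPolynomial.monomial κ 1, ?_, ?_⟩
    · intro d' hd'
      rw [lft_monomial, if_neg (by omega)]
    · rw [lft_monomial, if_pos h2]
  have h4 := G.perm_sub_mem h1
  rw [h2] at h4
  have h5 := sub_mem (Submodule.mem_sup_left (T := G.F l.length) h3)
    (Submodule.mem_sup_right (S := (G.PPd l.length).map (G.lft l.length)) h4)
  simpa using h5

lemma F_succ_le (d : ℕ) : G.F (d + 1) ≤ (G.PPd d).map (G.lft d) ⊔ G.F d := by
  refine G.F_le fun l hl => ?_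
  rcases Nat.lt_succ_iff_lt_or_eq.1 hl with h | h
  · exact Submodule.mem_sup_right (G.W_mem_F h)
  · subst h; exact G.word_mem' l

lemma le_of_JJ {I J : TwoSidedIdeal U} (hIJ : I ≤ J) (h : G.JJ J ≤ G.JJ I) : J ≤ I := by
  have key : ∀ d, ∀ x ∈ G.F d, x ∈ J → x ∈ I := by
    intro d
    induction d with
    | zero =>
      intro x hx _
      rw [G.F_zero, Submodule.mem_bot] at hx
      rw [hx]; exact I.zero_mem
    | succ d ih =>
      intro x hx hxJ
      obtain ⟨_, ⟨f, hf, rfl⟩, u, hu, rfl⟩ := Submodule.mem_sup.1 (G.F_succ_le d hx)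
      have h1 : f ∈ G.JJ J := by
        intro d'
        by_cases hd' : d' = d
        · subst hd'
          have h2 : G.lft d' f = (G.lft d' f + u) - u := by abel
          rw [h2]
          exact sub_mem (Submodule.mem_sup_left hxJ) (Submodule.mem_sup_right hu)
        · rw [hf d' hd']; exact zero_mem _
      obtain ⟨z', hz', u', hu', he⟩ := Submodule.mem_sup.1 (h h1 d)
      have h3 : G.lft d f + u = z' + (u' + u) := by rw [← he]; abel
      have h4 : u' + u ∈ J := by
        have : u' + u = (G.lft d f + u) - z' := by rw [h3]; abel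
        rw [this]
        exact J.sub_mem hxJ (hIJ hz')
      rw [h3]
      exact I.add_mem hz' (ih _ (add_mem hu' hu) h4)
  intro x hx
  obtain ⟨d, hd⟩ := G.exists_mem_F x
  exact key d x hd hx

/-- The map `T` on the commutative level. -/
noncomputable def tK (K : Type*) [Field K] (n : ℕ) : Lau K (Fin n) →ₗ[K] Sy K :=
  lin fun a => ∏ i, (MvPolynomial.X (a i) : Sy K)

lemma lft_tK_mem (n : ℕ) (x : Lau K (Fin n)) (d : ℕ) :
    G.lft d (tK K n x) - (if d = n then G.T n x else 0) ∈ G.F d := by
  induction x using lau_induction with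
  | h0 => simp
  | hs c x hx =>
    have := Submodule.smul_mem _ c hx
    rw [smul_sub] at this
    rw [map_smul, map_smul, map_smul]
    convert this using 2
    split_ifs <;> simp
  | ha x y hx hy =>
    have := add_mem hx hy
    rw [map_add, map_add, map_add]
    convert this using 1
    split_ifs
    · abel
    · abel
  | hm a =>
    have h1 : ∏ i, (MvPolynomial.X (a i) : Sy K)
        = MvPolynomial.monomial (Multiset.toFinsupp ((List.ofFn a : List ℤ) : Multiset ℤ)) 1 := by
      have h2 : ∀ l : List ℤ, (l.map (fun m => (MvPolynomial.X m : Sy K))).prod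
          = MvPolynomial.monomial (Multiset.toFinsupp (l : Multiset ℤ)) 1 := by
        intro l
        induction l with
        | nil => simp
        | cons m l ih =>
          rw [List.map_cons, List.prod_cons, ih, ← Multiset.cons_coe, ← Multiset.singleton_add,
            map_add, MvPolynomial.X, MvPolynomial.monomial_mul, one_mul, Multiset.toFinsupp_singleton]
      rw [← h2, List.map_ofFn, List.prod_ofFn]; rfl
    rw [tK, lin_mon, h1, lft_monomial, T_mon]
    have h2 : (wd (Multiset.toFinsupp ((List.ofFn a : List ℤ) : Multiset ℤ))).Perm (List.ofFn a) := by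
      rw [wd, ← Multiset.coe_eq_coe]; simp
    have h3 := h2.length_eq
    rw [List.length_ofFn] at h3
    rw [h3]
    by_cases h : d = n
    · subst h
      rw [if_pos rfl, if_pos rfl]
      have := G.perm_sub_mem h2
      rwa [h3] at this
    · rw [if_neg h, if_neg (fun h' => h h'.symm)]; simp

lemma tK_mem_JJ {n : ℕ} {I : TwoSidedIdeal U} {x : Lau K (Fin n)} (h : G.T n x ∈ I) :
    tK K n x ∈ G.JJ I := by
  intro d
  have h1 := G.lft_tK_mem n x d
  have h2 : (if d = n then G.T n x else 0) ∈ (sbm I : Submodule K U) := by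
    split_ifs
    · exact h
    · exact zero_mem _
  have := add_mem (Submodule.mem_sup_right (S := sbm I) h1) (Submodule.mem_sup_left (T := G.F d) h2)
  simpa using this

lemma tY_up (n : ℕ) (x : Lau K (Fin n)) : tY (up x : PP K (Fin n)) = tK K n x := by
  induction x using lau_induction with
  | h0 => simp
  | hs c x hx =>
    have h1 : tY (c • up x : PP K (Fin n)) = c • tY (up x : PP K (Fin n)) :=
      map_smul ((tY : PP K (Fin n) →ₗ[Sy K] Sy K).restrictScalars K) c (up x)
    rw [map_smul (tK K n), ← hx, ← h1, map_smul]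
  | ha x y hx hy => simp only [map_add, hx, hy]
  | hm a => rw [up_mon, tY_mon, tK, lin_mon]

lemma up_disc (n : ℕ) : (up (disc K (Fin n)) : PP K (Fin n)) = disc (Sy K) (Fin n) := by
  rw [disc, disc, map_prod]
  refine Finset.prod_congr rfl fun i _ => ?_
  rw [map_prod]
  refine Finset.prod_congr rfl fun j _ => ?_
  split_ifs
  · exact map_one _
  · rw [map_sub, up_w, up_w]

lemma tY_disc_mem_JJ {n M : ℕ} {I : TwoSidedIdeal U}
    (h : ∀ x : Lau K (Fin n), G.T n (disc K (Fin n) ^ M * x) ∈ I) (x : PP K (Fin n)) :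
    tY (disc (Sy K) (Fin n) ^ M * x) ∈ G.JJ I := by
  induction x using lau_induction with
  | h0 => rw [mul_zero, map_zero]; exact zero_mem _
  | hs c x hx => rw [mul_smul_comm, map_smul]; exact Submodule.smul_mem _ _ hx
  | ha x y hx hy => rw [mul_add, map_add]; exact add_mem hx hy
  | hm a =>
    have h1 := G.tK_mem_JJ (h (mon a))
    rwa [← tY_up, map_mul, map_pow, up_disc, up_mon] at h1

include G in
/-- The ascending chain condition for all two-sided ideals. -/
theorem all_acc [CharZero K] (I : ℕ → TwoSidedIdeal U) (hmono : Monotone I) :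
    ∃ k₀, ∀ k, k₀ ≤ k → I k = I k₀ := by
  by_cases h : ∀ k, I k = ⊥
  · exact ⟨0, fun k _ => by rw [h, h]⟩
  · push Not at h
    obtain ⟨k₂, hk₂⟩ := h
    obtain ⟨n, M, hne⟩ := G.cofinal (I k₂) hk₂
    obtain ⟨k₀, hk₀⟩ := acc_sym M n (fun k => G.JJ (I (k₂ + k)))
      (fun a b hab => G.JJ_mono (hmono (by omega))) (fun k => G.JJ_DSt _)
      (fun j x => G.tY_disc_mem_JJ (fun y => hmono (by omega) (hne y)) x)
    refine ⟨k₂ + k₀, fun k hk => le_antisymm (G.le_of_JJ (hmono hk) ?_) (hmono hk)⟩
    have := hk₀ (k - k₂)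
    simpa [show k₂ + (k - k₂) = k by omega] using this

end WittGen

end WittACC
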