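import Pool.Agent.helper37.Witt.Cofinal

/-!
The symmetric algebra `S` of the Witt algebra, the Laurent rings `S[x_i^{±1}]` and the twisted action
of the Witt algebra on them.
-/

namespace WittACC

open MvPolynomial

/-- The symmetric algebra of the Witt algebra. -/
abbrev Sy (K : Type*) [Field K] := MvPolynomial ℤ K

/-- Laurent polynomials over the symmetric algebra. -/
abbrev PP (K : Type*) [Field K] (X : Type*) := Lau (Sy K) X

variable {K : Type*} [Field K]

/-- The adjoint action of `e_v` on `S`. -/
noncomputable def del (v : ℤ) : Derivation K (Sy K) (Sy K) :=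
  MvPolynomial.mkDerivation K (fun m => ((v : K) - m) • (X (v + m) : Sy K))

@[simp] lemma del_X (v m : ℤ) : del (K := K) v (X m) = ((v : K) - m) • (X (v + m) : Sy K) := by
  rw [del, mkDerivation_X]

section cmap

variable {X X' : Type*}

/-- Coefficientwise application of a derivation, as a linear map. -/
noncomputable def cmapL (δ : Derivation K (Sy K) (Sy K)) : PP K X →ₗ[K] PP K X where
  toFun := AddMonoidAlgebra.map (δ : Sy K →ₗ[K] Sy K).toAddMonoidHom
  map_add' x y := AddMonoidAlgebra.map_add _ x y
  map_smul' c x := by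
    apply AddMonoidAlgebra.ext
    ext a : 1
    simp [AddMonoidAlgebra.coeff_map]

lemma cmapL_coeff (δ : Derivation K (Sy K) (Sy K)) (F : PP K X) (a : X → ℤ) :
    (cmapL δ F).coeff a = δ (F.coeff a) := by
  simp [cmapL, AddMonoidAlgebra.coeff_map]

lemma cmapL_mon (δ : Derivation K (Sy K) (Sy K)) (a : X → ℤ) : cmapL δ (mon a : PP K X) = 0 := by
  apply AddMonoidAlgebra.ext
  ext b : 1
  rw [cmapL_coeff, mon, AddMonoidAlgebra.coeff_single]
  classical
  rw [Finsupp.single_apply]
  split_ifs <;> simp

lemma cmapL_smul (δ : Derivation K (Sy K) (Sy K)) (s : Sy K) (F : PP K X) :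
    cmapL δ (s • F) = δ s • F + s • cmapL δ F := by
  apply AddMonoidAlgebra.ext
  ext b : 1
  rw [cmapL_coeff, AddMonoidAlgebra.coeff_smul_apply, AddMonoidAlgebra.coeff_add,
    Finsupp.add_apply, AddMonoidAlgebra.coeff_smul_apply, AddMonoidAlgebra.coeff_smul_apply,
    cmapL_coeff]
  simp [mul_comm, add_comm]

lemma cmapL_mul (δ : Derivation K (Sy K) (Sy K)) (F G : PP K X) :
    cmapL δ (F * G) = F * cmapL δ G + G * cmapL δ F := by
  induction F using lau_induction with
  | h0 => simp
  | ha x y hx hy => rw [add_mul, map_add, hx, hy, map_add]; ring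
  | hs c x hx =>
    rw [smul_mul_assoc, cmapL_smul, cmapL_smul, hx]
    simp only [smul_add, mul_add, mul_smul_comm, smul_mul_assoc]
    rw [mul_comm G x]; ring
  | hm a =>
    induction G using lau_induction with
    | h0 => simp
    | ha x y hx hy => rw [mul_add, map_add, hx, hy, map_add]; ring
    | hs c x hx =>
      rw [mul_smul_comm, cmapL_smul, cmapL_smul, hx]
      simp only [smul_add, mul_add, mul_smul_comm, smul_mul_assoc]
      ring
    | hm b => rw [mon_mul, cmapL_mon, cmapL_mon, cmapL_mon]; simp

/-- Coefficientwise application of a derivation. -/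
noncomputable def cmap (δ : Derivation K (Sy K) (Sy K)) : Derivation K (PP K X) (PP K X) :=
  Derivation.mk' (cmapL δ) (fun F G => by rw [cmapL_mul]; simp)

@[simp] lemma cmap_mon (δ : Derivation K (Sy K) (Sy K)) (a : X → ℤ) : cmap δ (mon a : PP K X) = 0 :=
  cmapL_mon δ a

lemma cmap_smul (δ : Derivation K (Sy K) (Sy K)) (s : Sy K) (F : PP K X) :
    cmap δ (s • F) = δ s • F + s • cmap δ F := cmapL_smul δ s F

end cmap

section action

variable {X X' : Type*} [Fintype X] [DecidableEq X] [Fintype X'] [DecidableEq X']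

/-- The derivation giving the untwisted action of `e_v`. -/
noncomputable def pd (v : ℤ) : Derivation K (PP K X) (PP K X) :=
  cmap (del v) + (Dd v : Derivation (Sy K) (PP K X) (PP K X)).restrictScalars K

lemma pd_apply (v : ℤ) (F : PP K X) :
    pd v F = cmap (del v) F - ∑ i : X, wz i v * dg (ev i) F := by
  rw [pd, Derivation.add_apply, Derivation.restrictScalars_apply, Dd_apply, sub_eq_add_neg]

lemma pd_smul (v : ℤ) (s : Sy K) (F : PP K X) : pd v (s • F) = del v s • F + s • pd v F := by
  rw [pd, Derivation.add_apply, Derivation.add_apply, cmap_smul, Derivation.restrictScalars_apply,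
    Derivation.restrictScalars_apply, Derivation.map_smul, smul_add]
  ring

lemma pd_mon (v : ℤ) (a : X → ℤ) :
    pd v (mon a : PP K X) = - ∑ i : X, (a i : Sy K) • (mon (a + Pi.single i v)) := by
  rw [pd_apply, cmap_mon, zero_sub]
  congr 1
  refine Finset.sum_congr rfl fun i _ => ?_
  rw [dg_mon, ev_apply, mul_smul_comm, wz, mon_mul, add_comm]

lemma pd_w (v : ℤ) (i : X) : pd v (w i : PP K X) = - wz i (v + 1) := by
  have h : cmap (del (K := K) v) (w i : PP K X) = 0 := cmap_mon _ _
  rw [pd, Derivation.add_apply, Derivation.restrictScalars_apply, Dd_w, h, zero_add]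

variable (K) in
/-- The function part of the twisted action. -/
noncomputable def om (lam : X → ℤ) (v : ℤ) : PP K X := ∑ i : X, ((v * lam i : ℤ) : Sy K) • wz i v

/-- The twisted action of `e_v`. -/
noncomputable def DD (lam : X → ℤ) (v : ℤ) (F : PP K X) : PP K X := pd v F + om K lam v * F

lemma DD_add (lam : X → ℤ) (v : ℤ) (F G : PP K X) : DD lam v (F + G) = DD lam v F + DD lam v G := by
  simp only [DD, map_add]; ring

lemma DD_zero (lam : X → ℤ) (v : ℤ) : DD lam v (0 : PP K X) = 0 := by simp [DD]

lemma DD_neg (lam : X → ℤ) (v : ℤ) (F : PP K X) : DD lam v (-F) = -DD lam v F := by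
  simp only [DD, map_neg]; ring

lemma DD_sub (lam : X → ℤ) (v : ℤ) (F G : PP K X) : DD lam v (F - G) = DD lam v F - DD lam v G := by
  simp only [DD, map_sub]; ring

lemma DD_smul (lam : X → ℤ) (v : ℤ) (s : Sy K) (F : PP K X) :
    DD lam v (s • F) = del v s • F + s • DD lam v F := by
  rw [DD, DD, pd_smul, mul_smul_comm, smul_add]; ring

lemma DD_mul (lam : X → ℤ) (v : ℤ) (F G : PP K X) :
    DD lam v (F * G) = pd v F * G + F * DD lam v G := by
  rw [DD, DD, Derivation.leibniz]; simp only [smul_eq_mul]; ring

lemma DD_mon (lam : X → ℤ) (v : ℤ) (a : X → ℤ) :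
    DD lam v (mon a : PP K X) = ∑ i : X, ((v * lam i - a i : ℤ) : Sy K) • mon (a + Pi.single i v) := by
  rw [DD, pd_mon, om, Finset.sum_mul, ← Finset.sum_neg_distrib, ← Finset.sum_add_distrib]
  refine Finset.sum_congr rfl fun i _ => ?_
  rw [smul_mul_assoc, wz, mon_mul, add_comm (Pi.single i v) a, ← neg_smul, ← add_smul]
  congr 1
  push_cast; ring

/-- Extensionality for equivariance. -/
lemma equivariant_of_mon {lam : X → ℤ} {lam' : X' → ℤ} (φ : PP K X →ₗ[Sy K] PP K X') (v : ℤ)
    (h : ∀ a, DD lam' v (φ (mon a)) = φ (DD lam v (mon a))) (F : PP K X) :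
    DD lam' v (φ F) = φ (DD lam v F) := by
  induction F using lau_induction with
  | h0 => simp [DD_zero]
  | ha x y hx hy => rw [map_add, DD_add, DD_add, map_add, hx, hy]
  | hs c x hx => rw [map_smul, DD_smul, DD_smul, map_add, map_smul, map_smul, hx]
  | hm a => exact h a

/-- Substitutions are equivariant. -/
lemma DD_sub_map (f : X → X') (lam : X → ℤ) (v : ℤ) (F : PP K X) :
    DD (push f lam) v (sub f F) = sub f (DD lam v F) := by
  refine equivariant_of_mon (sub f : PP K X →ₐ[Sy K] PP K X').toLinearMap v (fun a => ?_) F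
  simp only [AlgHom.toLinearMap_apply]
  rw [sub_mon, DD_mon, DD_mon, map_sum]
  simp only [map_smul, sub_mon, map_add, push_single]
  have h1 : ∀ i' : X', ((v * push f lam i' - push f a i' : ℤ) : Sy K)
      • (mon (push f a + Pi.single i' v) : PP K X')
      = ∑ i : X, if f i = i' then ((v * lam i - a i : ℤ) : Sy K) • mon (push f a + Pi.single i' v)
        else 0 := by
    intro i'
    have : ((v * push f lam i' - push f a i' : ℤ) : Sy K)
        = ∑ i : X, if f i = i' then ((v * lam i - a i : ℤ) : Sy K) else 0 := by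
      rw [push_apply, push_apply, Finset.mul_sum, ← Finset.sum_sub_distrib]
      push_cast
      refine Finset.sum_congr rfl fun i _ => ?_
      split_ifs <;> simp
    rw [this, Finset.sum_smul]
    refine Finset.sum_congr rfl fun i _ => ?_
    split_ifs <;> simp
  simp only [h1]
  rw [Finset.sum_comm]
  refine Finset.sum_congr rfl fun i _ => ?_
  simp

lemma pd_sub_map (f : X → X') (v : ℤ) (F : PP K X) : pd v (sub f F) = sub f (pd v F) := by
  have h := DD_sub_map f 0 v F
  rw [map_zero, DD, DD] at h
  simpa [om] using h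

end action

end WittACC
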