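import Pool.Agent.helper37.WittC.KL5

/-!
Good semi-invariants and the main step.
-/

set_option linter.unusedSectionVars false
set_option linter.unusedVariables false

namespace WittACC

section good

variable {K : Type*} [Field K] {X : Type*} [Fintype X] [DecidableEq X] {n : ℕ}

variable (K) in
/-- Good semi-invariants. -/
def GS (c : Fin n → X) : Submonoid (PP K X) where
  carrier := {g | (∀ ρ ∈ TW K X, ACCI c ρ g) ∧ ∃ α ∈ TW K X, SIm c g α}
  one_mem' := ⟨fun ρ _ => ACCI.one ρ, 0, zero_mem _, fun v => by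
    rw [Derivation.map_one_eq_zero, Pi.zero_apply, zero_mul, sub_zero]; exact zero_mem _⟩
  mul_mem' := by
    rintro g g' ⟨h, α, hα, hg⟩ ⟨h', α', hα', hg'⟩
    refine ⟨fun ρ hρ => ACCI.mul hg (h ρ hρ) (h' _ (add_mem hρ hα)), α + α', add_mem hα hα', fun v => ?_⟩
    have e : pd v (g * g') - (α + α') v * (g * g') = g' * (pd v g - α v * g) + g * (pd v g' - α' v * g') := by
      rw [Derivation.leibniz, smul_eq_mul, smul_eq_mul, Pi.add_apply]; ring
    rw [e]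
    exact add_mem (Ideal.mul_mem_left _ _ (hg v)) (Ideal.mul_mem_left _ _ (hg' v))

lemma GS_w_sub {c : Fin n → X} {i j : X} (hij : i ≠ j)
    (h : ∀ (c' : Fin n → {x : X // x ≠ j}), ∀ ρ ∈ TW K {x : X // x ≠ j}, ACC c' ρ) :
    (w i - w j : PP K X) ∈ GS K c :=
  ⟨fun ρ hρ => ACCI.merge hij h hρ, _, hv_mem_TW i j, SIm.w_sub c i j⟩

lemma GS_bk {n : ℕ} {c : Fin (n + 1) → X} (k : Fin (n + 1))
    (h : ∀ ρ ∈ TW K X, ACC (c ∘ k.succAbove) ρ) : bk K c k ∈ GS K c :=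
  ⟨fun ρ hρ => ACCI.bk k (h ρ hρ), _, abk_mem_TW c k, SIm.bk c k⟩

lemma pow_sub_mem {R : Type*} [CommRing R] (I : Ideal R) {x y : R} (h : x - y ∈ I) (m : ℕ) :
    x ^ m - y ^ m ∈ I := by
  obtain ⟨z, hz⟩ := sub_dvd_pow_sub_pow x y m
  rw [hz]; exact Ideal.mul_mem_right _ _ h

end good

section main

variable {K : Type*} [Field K] {l : ℕ} {H : Type*} [Fintype H] [DecidableEq H] {n : ℕ}
  {lam : Fin l ⊕ H → ℤ} {c : Fin n → H}

lemma UU_unit [CharZero K] (hlam : ∀ j : Fin l, lam (Sum.inl j) ≠ -1) :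
    IsUnit (UU K lam : PP K (Fin l ⊕ H)) := by
  rw [UU_eq, Algebra.smul_def]
  refine IsUnit.mul ?_ ((um_unit lam).map _)
  have h1 : uc K lam = MvPolynomial.C ((-1) ^ (S1 lam).card *
      ∏ j ∈ (S1 lam)ᶜ, (2 * ((lam (Sum.inl j) : K) + 1) * -(lam (Sum.inl j) : K))) := by
    rw [uc, map_mul, map_pow, map_neg, map_one, map_prod]
    congr 1
    refine Finset.prod_congr rfl fun j _ => ?_
    rw [map_mul, map_mul, map_neg, map_add, map_one, map_intCast, map_ofNat]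
  rw [h1]
  refine IsUnit.map _ (IsUnit.map _ (IsUnit.mk0 _ ?_))
  refine mul_ne_zero (pow_ne_zero _ (neg_ne_zero.2 one_ne_zero)) (Finset.prod_ne_zero_iff.2 fun j hj => ?_)
  have h2 : lam (Sum.inl j) ≠ 0 := by
    rw [Finset.mem_compl, mem_S1] at hj; exact hj
  refine mul_ne_zero (mul_ne_zero two_ne_zero ?_) (neg_ne_zero.2 (by exact_mod_cast h2))
  have := hlam j
  intro h
  apply this
  have h3 : ((lam (Sum.inl j) + 1 : ℤ) : K) = 0 := by push_cast; exact h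
  have h4 : lam (Sum.inl j) + 1 = 0 := by exact_mod_cast h3
  omega

lemma disc_GS (h : ∀ i j : Fin l, i ≠ j → (w (Sum.inl i) - w (Sum.inl j) : PP K (Fin l ⊕ H)) ∈ GS K (cc l c)) :
    (sub Sum.inl (disc (Sy K) (Fin l)) : PP K (Fin l ⊕ H)) ∈ GS K (cc l c) := by
  rw [disc, map_prod]
  refine prod_mem fun i _ => ?_
  rw [map_prod]
  refine prod_mem fun j _ => ?_
  by_cases hij : i = j
  · rw [if_pos hij, map_one]; exact one_mem _
  · rw [if_neg hij, map_sub, sub_w, sub_w]; exact h i j hij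

lemma exists_good [CharZero K] (hlam : ∀ j : Fin l, lam (Sum.inl j) ≠ -1)
    (h : ∀ i j : Fin l ⊕ H, i ≠ j → (w i - w j : PP K (Fin l ⊕ H)) ∈ GS K (cc l c))
    (hb : ∃ g ∈ GS K (cc l c), ∃ u, g - u * algebraMap (Sy K) (PP K (Fin l ⊕ H)) (hh K n) ∈ rr K (cc l c))
    (e : ℕ) : ∃ g ∈ GS K (cc l c), ∃ u, g - u * hp K lam c ^ e ∈ rr K (cc l c) := by
  obtain ⟨g, hg, u, hu⟩ := hb
  obtain ⟨v, hv⟩ := (UU_unit (K := K) (lam := lam) hlam).exists_left_inv
  refine ⟨(g ^ (1 + (l + l)) * DDn K l c) ^ e, pow_mem (mul_mem (pow_mem hg _) ?_) _,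
    (u ^ (1 + (l + l)) * v) ^ e, ?_⟩
  · rw [DDn, PX]
    refine mul_mem (pow_mem (prod_mem fun j _ => prod_mem fun k _ => h _ _ (by simp)) _)
      (pow_mem (disc_GS fun i j hij => h _ _ (by simpa using hij)) _)
  · rw [← mul_pow]
    refine pow_sub_mem _ ?_ e
    have h1 := pow_sub_mem _ hu (1 + (l + l))
    have h2 := Ideal.mul_mem_right (DDn K l c) _ h1
    convert h2 using 1
    rw [hp, map_pow, mul_pow]
    linear_combination (-(u ^ (1 + (l + l)) * algebraMap (Sy K) (PP K (Fin l ⊕ H)) (hh K n) ^ (1 + (l + l)) *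
      DDn K l c)) * hv

theorem ACC_main [CharZero K] (hc : Function.Surjective c) (h2 : S1 lam = ∅ ∨ 2 ≤ n + l)
    (hgood : ∀ e : ℕ, ∃ g ∈ GS K (cc l c), ∃ u, g - u * hp K lam c ^ e ∈ rr K (cc l c)) :
    ACC (cc l c) (om K lam) := by
  intro A hmono hA
  obtain ⟨j₀, e, hKL⟩ := KL hc h2 A hmono hA
  obtain ⟨g, hg, u, hu⟩ := hgood e
  obtain ⟨hg1, α, hα, hg2⟩ := hg
  obtain ⟨j₁, hj₁⟩ := hg1 _ (om_mem_TW lam) (fun j => A j ⊔ gP (cc l c) g)
    (fun a b hab => sup_le_sup_right (hmono hab) _) (fun j => (hA j).sup (gP_st hg2 _))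
    (fun j F => Submodule.mem_sup_right (mem_gP.2 ⟨F, by simp⟩))
  refine ⟨max j₀ j₁, fun j w hw => ?_⟩
  obtain ⟨a, ha, b, hb, rfl⟩ := Submodule.mem_sup.1 (hj₁ j (Submodule.mem_sup_left hw))
  refine add_mem (hmono (le_max_right j₀ j₁) ha) (hmono (le_max_left j₀ j₁) ?_)
  refine hKL (max j j₁) b ?_ ?_
  · have h3 := sub_mem (hmono (le_max_left j j₁) hw) (hmono (le_max_right j j₁) ha)
    rwa [add_sub_cancel_left] at h3
  · obtain ⟨G, hG⟩ := mem_gP.1 hb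
    refine mem_gP.2 ⟨u * G, ?_⟩
    have h3 := Ideal.mul_mem_right G _ hu
    have h4 := add_mem hG h3
    convert h4 using 1
    ring

end main

end WittACC
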