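import Pool.Agent.helper37.WittC.MainC

/-!
The chain condition for stable ideals of the symmetric algebra.
-/

set_option linter.unusedSectionVars false
set_option linter.unusedVariables false

namespace WittACC

variable {K : Type*} [Field K]

section tY

variable {X : Type*} [Fintype X] [DecidableEq X] {Y : Type*} [Fintype Y] [DecidableEq Y]

lemma algebraMap_PP_injective : Function.Injective (algebraMap (Sy K) (PP K X)) := by
  intro a b hab
  rw [Algebra.algebraMap_eq_smul_one, Algebra.algebraMap_eq_smul_one] at hab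
  have h := congrArg (fun F : PP K X => F.coeff 0) hab
  simp only [AddMonoidAlgebra.coeff_smul_apply] at h
  have h1 : (1 : PP K X).coeff 0 = 1 := by
    rw [← mon_zero, mon, AddMonoidAlgebra.coeff_single, Finsupp.single_eq_same]
  rw [h1] at h
  simpa using h

/-- Equivariance of `tY`. -/
lemma tY_equivariant (v : ℤ) (G : PP K Y) : del v (tY G) = tY (DD 1 v G) := by
  apply algebraMap_PP_injective (K := K) (X := Fin 0)
  rw [← eY_inr, ← DD_sub_map, push_inr]
  have h := eY_equivariant (X := Fin 0) 0 v (sub Sum.inr G)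
  rw [← h, eY_inr, Algebra.algebraMap_eq_smul_one, Algebra.algebraMap_eq_smul_one, DD_smul]
  have h2 : DD 0 v (1 : PP K (Fin 0)) = 0 := by simp [DD, om]
  rw [h2, smul_zero, add_zero]

lemma tY_equiv {Y' : Type*} [Fintype Y'] [DecidableEq Y'] (e : Y ≃ Y') (G : PP K Y) :
    tY (sub e G) = tY G := by
  induction G using lau_induction with
  | h0 => simp
  | ha x y hx hy => simp only [map_add, hx, hy]
  | hs c x hx => simp only [map_smul, hx]
  | hm a =>
    rw [sub_mon, tY_mon, tY_mon, ← Equiv.prod_comp e]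
    refine Finset.prod_congr rfl fun y _ => ?_
    congr 1
    rw [push_apply, Finset.sum_eq_single y]
    · simp
    · intro x _ hx; rw [if_neg fun h => hx (e.injective h)]
    · intro h; exact absurd (Finset.mem_univ _) h

lemma tY_eY (G : PP K (X ⊕ Y)) : tY (eY G) = tY G := by
  induction G using lau_induction with
  | h0 => simp
  | ha x y hx hy => simp only [map_add, hx, hy]
  | hs c x hx => simp only [map_smul, hx]
  | hm a =>
    rw [eY_mon, map_smul, tY_mon, tY_mon, Fintype.prod_sum_type, smul_eq_mul, mul_comm]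

end tY

section disc

variable {n : ℕ}

/-- The twist of the discriminant. -/
noncomputable def dsum (K : Type*) [Field K] (n : ℕ) : ℤ → PP K (Fin n) :=
  ∑ i : Fin n, ∑ j : Fin n, if i = j then 0 else fun v => -hv K v i j

lemma dsum_mem_TW : dsum K n ∈ TW K (Fin n) := by
  refine AddSubmonoid.sum_mem _ fun i _ => AddSubmonoid.sum_mem _ fun j _ => ?_
  split_ifs
  · exact zero_mem _
  · exact hv_mem_TW i j

lemma pd_disc (v : ℤ) : pd v (disc (Sy K) (Fin n)) = dsum K n v * disc (Sy K) (Fin n) := by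
  have h1 : dsum K n v = ∑ i : Fin n, ∑ j : Fin n, if i = j then 0 else -hv K v i j := by
    rw [dsum, Finset.sum_apply]
    refine Finset.sum_congr rfl fun i _ => ?_
    rw [Finset.sum_apply]
    refine Finset.sum_congr rfl fun j _ => ?_
    split_ifs <;> rfl
  rw [h1, disc]
  refine pd_prod _ _ _ v fun i _ => pd_prod _ _ _ v fun j _ => ?_
  split_ifs
  · simp
  · exact pd_w_sub _ _ _

lemma pd_disc_pow (M : ℕ) (v : ℤ) :
    pd v (disc (Sy K) (Fin n) ^ M) = (M • dsum K n v) * disc (Sy K) (Fin n) ^ M := by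
  induction M with
  | zero => simp
  | succ M ih =>
    rw [pow_succ, Derivation.leibniz, ih, pd_disc, smul_eq_mul, smul_eq_mul, succ_nsmul]
    ring

/-- The twist. -/
noncomputable def rhoM (K : Type*) [Field K] (n M : ℕ) : ℤ → PP K (Fin n) := om K 1 + M • dsum K n

lemma rhoM_mem_TW (M : ℕ) : rhoM K n M ∈ TW K (Fin n) :=
  add_mem (om_mem_TW 1) (AddSubmonoid.nsmul_mem _ dsum_mem_TW M)

lemma del_tY_disc (M : ℕ) (v : ℤ) (F : PP K (Fin n)) :
    del v (tY (disc (Sy K) (Fin n) ^ M * F))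
      = tY (disc (Sy K) (Fin n) ^ M * (pd v F + rhoM K n M v * F)) := by
  rw [tY_equivariant, DD_mul, pd_disc_pow, DD]
  congr 1
  rw [rhoM, Pi.add_apply, Pi.smul_apply]
  ring

/-- The ideal generated by the values `tY (disc ^ M * F)`. -/
noncomputable def tid (K : Type*) [Field K] (n M : ℕ) : Ideal (Sy K) :=
  LinearMap.range ((tY : PP K (Fin n) →ₗ[Sy K] Sy K) ∘ₗ
    LinearMap.mulLeft (Sy K) (disc (Sy K) (Fin n) ^ M))

lemma mem_tid {M : ℕ} {f : Sy K} : f ∈ tid K n M ↔ ∃ F : PP K (Fin n),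
    tY (disc (Sy K) (Fin n) ^ M * F) = f := Iff.rfl

/-- The submodule of `F` with `tY (disc ^ M * F) ∈ I`. -/
noncomputable def NI (n M : ℕ) (I : Ideal (Sy K)) : Submodule (Sy K) (PP K (Fin n)) :=
  Submodule.comap ((tY : PP K (Fin n) →ₗ[Sy K] Sy K) ∘ₗ
    LinearMap.mulLeft (Sy K) (disc (Sy K) (Fin n) ^ M)) I

lemma mem_NI {M : ℕ} {I : Ideal (Sy K)} {F : PP K (Fin n)} : F ∈ NI n M I ↔
    tY (disc (Sy K) (Fin n) ^ M * F) ∈ I := Iff.rfl

/-- Stable ideals. -/
def DSt (I : Ideal (Sy K)) : Prop := ∀ v, ∀ f ∈ I, del v f ∈ I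

lemma tid_DSt (M : ℕ) : DSt (tid K n M) := by
  rintro v _ ⟨F, rfl⟩
  exact ⟨pd v F + rhoM K n M v * F, (del_tY_disc M v F).symm⟩

lemma DSt.sup {I J : Ideal (Sy K)} (hI : DSt I) (hJ : DSt J) : DSt (I ⊔ J) := by
  intro v f hf
  obtain ⟨a, ha, b, hb, rfl⟩ := Submodule.mem_sup.1 hf
  rw [map_add]
  exact Submodule.add_mem_sup (hI v a ha) (hJ v b hb)

/-- The roots, each repeated `m` times. -/
def crep (m n : ℕ) (k : Fin (m * n)) : Fin n := (finProdFinEquiv.symm k).2

lemma prod_crep {M : Type*} [CommMonoid M] (m n : ℕ) (f : Fin n → M) :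
    ∏ k, f (crep m n k) = (∏ i, f i) ^ m := by
  rw [← Equiv.prod_comp finProdFinEquiv]
  simp only [crep, Equiv.symm_apply_apply]
  rw [Fintype.prod_prod_type]
  simp

/-- The equivalence adding a last point. -/
def eS (n : ℕ) : Fin n ⊕ Unit ≃ Fin (n + 1) where
  toFun := Sum.elim Fin.castSucc (fun _ => Fin.last n)
  invFun := Fin.lastCases (Sum.inr ()) Sum.inl
  left_inv := by
    rintro (i | i)
    · simp
    · simp
  right_inv := by
    intro i
    refine Fin.lastCases ?_ (fun j => ?_) i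
    · simp
    · simp

lemma tY_rr (M : ℕ) (G : PP K (Fin n ⊕ Unit)) : ∃ G' : PP K (Fin (n + 1)),
    tY (disc (Sy K) (Fin n) ^ M * eL (pc K (crep (2 * M) n) * G))
      = tY (disc (Sy K) (Fin (n + 1)) ^ M * G') := by
  refine ⟨(-1) ^ (n * M) * sub (eS n) G, ?_⟩
  rw [eL, ← eY_mul_inl, tY_eY, ← tY_equiv (eS n)]
  congr 1
  rw [map_mul, map_mul, sub_sub]
  have h1 : (eS n : Fin n ⊕ Unit → Fin (n + 1)) ∘ Sum.inl = Fin.castSucc := rfl
  have h2 : sub (eS n) (pc K (crep (2 * M) n))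
      = (∏ i : Fin n, (w (Fin.last n) - w i.castSucc) : PP K (Fin (n + 1))) ^ (2 * M) := by
    rw [pc, map_prod, ← prod_crep]
    refine Finset.prod_congr rfl fun k _ => ?_
    rw [map_sub, sub_w, sub_w]; rfl
  have h3 : (∏ i : Fin n, (w i.castSucc - w (Fin.last n)) : PP K (Fin (n + 1)))
      = (-1) ^ n * ∏ i : Fin n, (w (Fin.last n) - w i.castSucc) := by
    have h4 : ((-1) ^ n : PP K (Fin (n + 1))) = ∏ i : Fin n, (-1 : PP K (Fin (n + 1))) := by simp
    rw [h4, ← Finset.prod_mul_distrib]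
    refine Finset.prod_congr rfl fun i _ => by ring
  have h5 : ((-1) ^ (n * M) * (-1) ^ (n * M) : PP K (Fin (n + 1))) = 1 := by
    rw [← mul_pow]; simp
  rw [h1, h2, disc_succ, h3, map_pow, mul_pow, mul_pow, mul_pow, ← pow_mul]
  generalize (∏ i : Fin n, (w (Fin.last n) - w i.castSucc) : PP K (Fin (n + 1))) = P
  generalize (sub Fin.castSucc (disc (Sy K) (Fin n)) : PP K (Fin (n + 1))) = Q
  generalize (sub (eS n) G : PP K (Fin (n + 1))) = R
  have h6 : P ^ (2 * M) = P ^ M * P ^ M := by rw [two_mul, pow_add]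
  rw [h6]
  linear_combination (-(Q ^ M * P ^ M * P ^ M * R)) * h5

lemma NI_TSt {M : ℕ} {I : Ideal (Sy K)} (hI : DSt I)
    (h : ∀ x : PP K (Fin (n + 1)), tY (disc (Sy K) (Fin (n + 1)) ^ M * x) ∈ I) :
    TSt (crep (2 * M) n) (rhoM K n M) (NI n M I) where
  rr F hF := by
    obtain ⟨G, rfl⟩ := hF
    obtain ⟨G', hG'⟩ := tY_rr M G
    rw [mem_NI, hG']; exact h G'
  st v F hF := by
    rw [mem_NI, ← del_tY_disc]; exact hI v _ hF

/-- The chain condition for stable ideals. -/
theorem acc_sym [CharZero K] (M : ℕ) : ∀ (n : ℕ) (I : ℕ → Ideal (Sy K)), Monotone I →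
    (∀ j, DSt (I j)) → (∀ j (x : PP K (Fin n)), tY (disc (Sy K) (Fin n) ^ M * x) ∈ I j) →
    ∃ j₀, ∀ j, I j ≤ I j₀ := by
  intro n
  induction n with
  | zero =>
    intro I hmono _ h
    have h1 : (1 : Sy K) ∈ I 0 := by
      have h2 := h 0 1
      have h3 : (disc (Sy K) (Fin 0) ^ M * 1 : PP K (Fin 0)) = mon 0 := by
        rw [mon_zero]; simp [disc]
      rw [h3, tY_mon] at h2
      simpa using h2
    exact ⟨0, fun j => by rw [(Ideal.eq_top_iff_one _).2 h1]; exact le_top⟩
  | succ n ih =>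
    intro I hmono hD h
    obtain ⟨j₁, hj₁⟩ := ih (fun j => I j ⊔ tid K n M) (fun a b hab => sup_le_sup_right (hmono hab) _)
      (fun j => (hD j).sup (tid_DSt M)) (fun j x => Submodule.mem_sup_right ⟨x, rfl⟩)
    obtain ⟨j₂, hj₂⟩ := ACC_TW (crep (2 * M) n) (rhoM_mem_TW (K := K) M) (fun j => NI n M (I j))
      (fun a b hab => Submodule.comap_mono (hmono hab)) (fun j => NI_TSt (hD j) (h j))
    refine ⟨max j₁ j₂, fun j f hf => ?_⟩
    obtain ⟨a, ha, b, hb, rfl⟩ := Submodule.mem_sup.1 (hj₁ j (Submodule.mem_sup_left hf))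
    obtain ⟨F, rfl⟩ := mem_tid.1 hb
    have ha' := hmono (le_max_left j₁ j₂) ha
    refine add_mem ha' (hmono (le_max_right j₁ j₂) ?_)
    have h5 : F ∈ NI n M (I (max j (max j₁ j₂))) := by
      rw [mem_NI]
      have e : tY (disc (Sy K) (Fin n) ^ M * F) = (a + tY (disc (Sy K) (Fin n) ^ M * F)) - a := by ring
      rw [e]
      exact sub_mem (hmono (le_max_left _ _) hf) (hmono (le_max_right _ _) ha')
    exact hj₂ _ h5

end disc

end WittACC
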