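import Pool.Agent.helper37.WittC.Phi

/-!
Symmetric functions of the heavy roots, and the Hankel determinant.
-/

set_option linter.unusedSectionVars false
set_option linter.unusedVariables false

namespace WittACC

variable {K : Type*} [Field K]

section tY

variable {X : Type*} [Fintype X] [DecidableEq X] {Y : Type*} [Fintype Y] [DecidableEq Y]

/-- The map `y^b ↦ ∏ e_{b}`. -/
noncomputable def tY : PP K Y →ₗ[Sy K] Sy K :=
  lin fun a => ∏ y, (MvPolynomial.X (a y) : Sy K)

lemma tY_mon (a : Y → ℤ) : tY (mon a : PP K Y) = ∏ y, (MvPolynomial.X (a y) : Sy K) := by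
  rw [tY, lin_mon]

lemma push_inr (a : Y → ℤ) : push (Sum.inr : Y → X ⊕ Y) a = Sum.elim (0 : X → ℤ) a := by
  ext y
  rcases y with y | y
  · simp [push_apply]
  · simp [push_apply]

lemma eY_inr (G : PP K Y) : eY (sub Sum.inr G : PP K (X ⊕ Y)) = algebraMap (Sy K) (PP K X) (tY G) := by
  induction G using lau_induction with
  | h0 => simp
  | ha x y hx hy => simp only [map_add, hx, hy]
  | hs c x hx =>
    rw [map_smul, map_smul, map_smul, hx, smul_eq_mul, map_mul, Algebra.smul_def]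
  | hm a =>
    rw [sub_mon, eY_mon, tY_mon, push_inr, Algebra.algebraMap_eq_smul_one, ← mon_zero]
    rfl

/-- `p_c(y_i)`. -/
noncomputable def pY {n : ℕ} (c : Fin n → X) (i : Y) : PP K (X ⊕ Y) :=
  ∏ k, (w (Sum.inr i) - w (Sum.inl (c k)))

lemma pY_eq_sum {n : ℕ} (c : Fin n → X) (i : Y) : (pY c i : PP K (X ⊕ Y)) =
    ∑ κ ∈ Finset.range ((pbar K c).natDegree + 1),
      sub Sum.inl (up ((pbar K c).coeff κ)) * wz (Sum.inr i) κ := by
  have h1 : sub (Sum.elim Sum.inl (fun _ => Sum.inr i)) (pc K c) = (pY c i : PP K (X ⊕ Y)) := by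
    rw [pc, map_prod, pY]
    refine Finset.prod_congr rfl fun k _ => ?_
    rw [map_sub, sub_w, sub_w]; rfl
  rw [← h1, ← ihp_pbar, ihp_eq_sum, map_sum]
  refine Finset.sum_congr rfl fun κ _ => ?_
  rw [map_mul, sub_sub, sub_wz]; rfl

lemma eY_pY_mem {n : ℕ} (c : Fin n → X) (i : Y) (F : PP K (X ⊕ Y)) : eY (pY c i * F) ∈ rr K c := by
  induction F using lau_induction with
  | h0 => rw [mul_zero, map_zero]; exact zero_mem _
  | ha x y hx hy => rw [mul_add, map_add]; exact add_mem hx hy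
  | hs s x hx =>
    rw [mul_smul_comm, map_smul, Algebra.smul_def]
    exact Ideal.mul_mem_left _ _ hx
  | hm a =>
    have h1 : eY (pY c i * (mon a : PP K (X ⊕ Y))) =
        ((∏ y ∈ Finset.univ.erase i, (MvPolynomial.X (a (Sum.inr y)) : Sy K)) • mon fun i => a (Sum.inl i)) *
        ∑ κ ∈ Finset.range ((pbar K c).natDegree + 1), up ((pbar K c).coeff κ) * ee (a (Sum.inr i) + κ) := by
      rw [pY_eq_sum, Finset.sum_mul, map_sum, Finset.mul_sum]
      refine Finset.sum_congr rfl fun κ _ => ?_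
      rw [mul_assoc, eY_mul_inl, wz, mon_mul, eY_mon, ← Finset.mul_prod_erase _ _ (Finset.mem_univ i)]
      have h2 : ∀ y ∈ Finset.univ.erase i,
          (MvPolynomial.X ((Pi.single (Sum.inr i) (κ : ℤ) + a : X ⊕ Y → ℤ) (Sum.inr y)) : Sy K)
            = MvPolynomial.X (a (Sum.inr y)) := by
        intro y hy
        rw [Finset.mem_erase] at hy
        simp [hy.1]
      rw [Finset.prod_congr rfl h2]
      have h3 : (fun j => (Pi.single (Sum.inr i) (κ : ℤ) + a : X ⊕ Y → ℤ) (Sum.inl j))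
          = fun j => a (Sum.inl j) := by ext j; simp
      rw [h3, Pi.add_apply, Pi.single_eq_same, add_comm (κ : ℤ), ee, mul_smul,
        Algebra.smul_def (MvPolynomial.X (a (Sum.inr i) + (κ : ℤ)) : Sy K)]
      ring
    rw [h1]
    exact Ideal.mul_mem_left _ _ (rec_mem c _)

end tY

section hankel

variable (K) in
/-- The Hankel determinant. -/
noncomputable def hh (n : ℕ) : Sy K :=
  Matrix.det (Matrix.of fun i j : Fin n => (MvPolynomial.X ((i : ℤ) + j) : Sy K))

/-- The Vandermonde determinant in the slots. -/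
noncomputable def vd (R : Type*) [CommRing R] (n : ℕ) : Lau R (Fin n) :=
  Matrix.det (Matrix.vandermonde fun i : Fin n => (w i : Lau R (Fin n)))

lemma tY_vd (n : ℕ) : tY (vd (Sy K) n * ∏ i : Fin n, wz i i) = hh K n := by
  rw [vd, Matrix.det_apply, Finset.sum_mul, map_sum, hh, Matrix.det_apply]
  refine Finset.sum_congr rfl fun σ _ => ?_
  have h1 : ∏ i : Fin n, (wz i (i : ℕ) : PP K (Fin n)) = ∏ i, wz (σ i) (σ i : ℕ) :=
    (Equiv.prod_comp σ (fun i : Fin n => (wz i (i : ℕ) : PP K (Fin n)))).symm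
  have h2 : (∏ i : Fin n, Matrix.vandermonde (fun i : Fin n => (w i : PP K (Fin n))) (σ i) i) *
      ∏ i : Fin n, (wz i (i : ℕ) : PP K (Fin n)) = mon (fun j => ((σ.symm j : ℕ) : ℤ) + (j : ℕ)) := by
    rw [h1, ← Finset.prod_mul_distrib]
    have h3 : ∀ i : Fin n, Matrix.vandermonde (fun i : Fin n => (w i : PP K (Fin n))) (σ i) i
        * wz (σ i) (σ i : ℕ) = mon (Pi.single (σ i) (((i : ℕ) : ℤ) + (σ i : ℕ))) := by
      intro i
      rw [Matrix.vandermonde_apply, w, ← wz_natCast, ← wz_add]; rfl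
    simp only [h3]
    have h4 : ∀ s : Finset (Fin n), ∏ i ∈ s, (mon (Pi.single (σ i) (((i : ℕ) : ℤ) + (σ i : ℕ))) : PP K (Fin n))
        = mon (∑ i ∈ s, Pi.single (σ i) (((i : ℕ) : ℤ) + (σ i : ℕ))) := by
      intro s
      induction s using Finset.induction_on with
      | empty => simp [mon_zero]
      | insert i s hi ih => rw [Finset.prod_insert hi, Finset.sum_insert hi, ih, mon_mul]
    rw [h4]
    congr 1
    ext j
    rw [Finset.sum_apply, Finset.sum_eq_single (σ.symm j)]
    · simp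
    · intro i _ hi
      rw [Pi.single_eq_of_ne]
      intro h
      exact hi (by rw [h]; simp)
    · intro h; exact absurd (Finset.mem_univ _) h
  rw [smul_mul_assoc]
  have h5 : tY ((∏ i : Fin n, Matrix.vandermonde (fun i : Fin n => (w i : PP K (Fin n))) (σ i) i) *
      ∏ i : Fin n, (wz i (i : ℕ) : PP K (Fin n))) = ∏ i, Matrix.of (fun i j : Fin n =>
        (MvPolynomial.X ((i : ℤ) + j) : Sy K)) (σ i) i := by
    rw [h2, tY_mon, ← Equiv.prod_comp σ]
    refine Finset.prod_congr rfl fun i _ => ?_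
    rw [Matrix.of_apply, Equiv.symm_apply_apply, add_comm]
  rw [Units.smul_def, Units.smul_def, map_zsmul, h5]

end hankel

end WittACC
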