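import Pool.Agent.helper37.WittC.Heavy

/-!
Multiplication by symmetric functions of the heavy roots.
-/

set_option linter.unusedSectionVars false
set_option linter.unusedVariables false

namespace WittACC

variable {K : Type*} [Field K]

lemma smul_eq_C_smul {X : Type*} (t : K) (G : PP K X) : t • G = (MvPolynomial.C t : Sy K) • G := by
  rw [← MvPolynomial.algebraMap_eq, algebraMap_smul]

lemma up_sub {X X' : Type*} [Fintype X] [DecidableEq X'] (f : X → X') (F : Lau K X) :
    up (sub f F) = sub f (up F) := by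
  induction F using lau_induction with
  | h0 => simp
  | ha x y hx hy => simp only [map_add, hx, hy]
  | hm a => rw [sub_mon, up_mon, up_mon, sub_mon]
  | hs t x hx =>
    rw [map_smul, map_smul, map_smul, hx, smul_eq_C_smul, smul_eq_C_smul, map_smul]

lemma up_vd (n : ℕ) : up (vd K n) = vd (Sy K) n := by
  rw [vd, vd, AlgHom.map_det]
  congr 1
  ext i j
  simp [Matrix.vandermonde_apply]

section sym

variable (K) in
/-- The ideal generated by the `P_z(y_i)`. -/
noncomputable def Iz (n : ℕ) : Ideal (Lau K (Fin n ⊕ Fin n)) :=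
  Ideal.span (Set.range fun i : Fin n => ∏ k : Fin n, (w (Sum.inr i) - w (Sum.inl k)))

variable (K) in
/-- The symmetric functions, defined by a congruence. -/
noncomputable def LS (n : ℕ) : Subalgebra K (Lau K (Fin n)) where
  carrier := {r | ∃ G : Lau K (Fin n), sub Sum.inr (vd K n) * (sub Sum.inl r - sub Sum.inr G) ∈ Iz K n}
  mul_mem' := by
    rintro r r' ⟨G, hG⟩ ⟨G', hG'⟩
    refine ⟨G * G', ?_⟩
    have e : sub Sum.inr (vd K n) * (sub Sum.inl (r * r') - sub Sum.inr (G * G'))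
        = (sub Sum.inr (vd K n) * (sub Sum.inl r - sub Sum.inr G)) * sub Sum.inl r'
          + sub Sum.inr G * (sub Sum.inr (vd K n) * (sub Sum.inl r' - sub Sum.inr G')) := by
      rw [map_mul, map_mul]; ring
    rw [e]
    exact add_mem (Ideal.mul_mem_right _ _ hG) (Ideal.mul_mem_left _ _ hG')
  add_mem' := by
    rintro r r' ⟨G, hG⟩ ⟨G', hG'⟩
    refine ⟨G + G', ?_⟩
    have e : sub Sum.inr (vd K n) * (sub Sum.inl (r + r') - sub Sum.inr (G + G'))
        = (sub Sum.inr (vd K n) * (sub Sum.inl r - sub Sum.inr G))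
          + (sub Sum.inr (vd K n) * (sub Sum.inl r' - sub Sum.inr G')) := by
      rw [map_add, map_add]; ring
    rw [e]
    exact add_mem hG hG'
  algebraMap_mem' := by
    intro t
    refine ⟨algebraMap _ _ t, ?_⟩
    rw [AlgHom.commutes, AlgHom.commutes, _root_.sub_self, mul_zero]
    exact zero_mem _

lemma eval₂_pbar {X Y : Type*} [Fintype X] [DecidableEq X] [Fintype Y] [DecidableEq Y] {n : ℕ}
    (c : Fin n → X) (f : X → Y) (y : Lau K Y) :
    Polynomial.eval₂ (sub f : Lau K X →ₐ[K] Lau K Y).toRingHom y (pbar K c)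
      = ∏ k, (y - w (f (c k))) := by
  rw [pbar, Polynomial.eval₂_finsetProd]
  refine Finset.prod_congr rfl fun k _ => ?_
  rw [Polynomial.eval₂_sub, Polynomial.eval₂_X, Polynomial.eval₂_C]
  congr 1
  exact sub_w f (c k)

lemma vd_coeff_mem (n : ℕ) (κ : ℕ) :
    sub Sum.inr (vd K n) * (sub Sum.inl ((pbar K (id : Fin n → Fin n)).coeff κ)
      - sub Sum.inr ((pbar K (id : Fin n → Fin n)).coeff κ)) ∈ Iz K n := by
  set p := pbar K (id : Fin n → Fin n) with hp
  have hdeg : p.natDegree = n := pbar_natDegree _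
  have hcn : p.coeff n = 1 := by
    have := pbar_monic (K := K) (id : Fin n → Fin n)
    rwa [Polynomial.Monic, Polynomial.leadingCoeff, pbar_natDegree] at this
  by_cases hκ : κ < n
  swap
  · by_cases hκ2 : κ = n
    · rw [hκ2, hcn, map_one, map_one, _root_.sub_self, mul_zero]; exact zero_mem _
    · have : p.coeff κ = 0 := Polynomial.coeff_eq_zero_of_natDegree_lt (by omega)
      rw [this, map_zero, map_zero, _root_.sub_self, mul_zero]; exact zero_mem _
  set d : ℕ → Lau K (Fin n ⊕ Fin n) := fun κ => sub Sum.inl (p.coeff κ) - sub Sum.inr (p.coeff κ) with hd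
  set V : Matrix (Fin n) (Fin n) (Lau K (Fin n ⊕ Fin n)) :=
    Matrix.vandermonde fun i : Fin n => (w (Sum.inr i) : Lau K (Fin n ⊕ Fin n)) with hV
  have hdet : (sub Sum.inr (vd K n) : Lau K (Fin n ⊕ Fin n)) = V.det := by
    rw [vd, AlgHom.map_det]
    congr 1
    ext1 i j
    simp [Matrix.vandermonde_apply, hV, sub_w]
  have h1 : ∀ i : Fin n, ∑ κ : Fin n, V i κ * d κ = ∏ k : Fin n, (w (Sum.inr i) - w (Sum.inl k)) := by
    intro i
    have e1 := eval₂_pbar (K := K) (id : Fin n → Fin n) (Sum.inl : Fin n → Fin n ⊕ Fin n) (w (Sum.inr i))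
    have e2 := eval₂_pbar (K := K) (id : Fin n → Fin n) (Sum.inr : Fin n → Fin n ⊕ Fin n) (w (Sum.inr i))
    rw [← hp, Polynomial.eval₂_eq_sum_range, hdeg] at e1 e2
    have e3 : ∏ k : Fin n, ((w (Sum.inr i) : Lau K (Fin n ⊕ Fin n)) - w (Sum.inr (id k))) = 0 :=
      Finset.prod_eq_zero (Finset.mem_univ i) (by simp)
    rw [e3] at e2
    have e4 : ∏ k : Fin n, ((w (Sum.inr i) : Lau K (Fin n ⊕ Fin n)) - w (Sum.inl k))
        = ∑ κ ∈ Finset.range (n + 1), w (Sum.inr i) ^ κ * d κ := by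
      have e5 : ∏ k : Fin n, ((w (Sum.inr i) : Lau K (Fin n ⊕ Fin n)) - w (Sum.inl k))
        = ∏ k : Fin n, ((w (Sum.inr i) : Lau K (Fin n ⊕ Fin n)) - w (Sum.inl (id k))) := rfl
      rw [e5, ← e1, ← sub_zero (∑ i_1 ∈ Finset.range (n + 1), _), ← e2, ← Finset.sum_sub_distrib]
      refine Finset.sum_congr rfl fun κ _ => ?_
      rw [hd]
      simp only [AlgHom.toRingHom_eq_coe, RingHom.coe_coe]
      ring
    have e6 : d n = 0 := by
      rw [hd]; simp only; rw [hcn, map_one, map_one, _root_.sub_self]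
    rw [e4, Finset.sum_range_succ, e6, mul_zero, add_zero, ← Fin.sum_univ_eq_sum_range
      (fun κ => w (Sum.inr i) ^ κ * d κ)]
    rfl
  have h2 : V.det * d κ = ∑ i : Fin n, V.adjugate ⟨κ, hκ⟩ i * ∏ k : Fin n, (w (Sum.inr i) - w (Sum.inl k)) := by
    have h3 := congrArg (fun M => (Matrix.mulVec M fun κ : Fin n => d κ) ⟨κ, hκ⟩) (Matrix.adjugate_mul V)
    beta_reduce at h3
    rw [← Matrix.mulVec_mulVec, Matrix.smul_mulVec, Matrix.one_mulVec, Pi.smul_apply, smul_eq_mul] at h3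
    rw [← h3, Matrix.mulVec, dotProduct]
    refine Finset.sum_congr rfl fun i _ => ?_
    rw [← h1 i]; rfl
  rw [hdet]
  change V.det * d κ ∈ _
  rw [h2]
  refine Ideal.sum_mem _ fun i _ => Ideal.mul_mem_left _ _ (Ideal.subset_span ⟨i, rfl⟩)

lemma coeff_mem_LS (n : ℕ) (κ : ℕ) : (pbar K (id : Fin n → Fin n)).coeff κ ∈ LS K n :=
  ⟨_, vd_coeff_mem n κ⟩

lemma inv_mem_LS (n : ℕ) (q : Lau K (Fin n)) (hq : q * (pbar K (id : Fin n → Fin n)).coeff 0 = 1) :
    q ∈ LS K n := by
  refine ⟨q, ?_⟩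
  have h1 := vd_coeff_mem (K := K) n 0
  set p0 := (pbar K (id : Fin n → Fin n)).coeff 0
  have e1 : (sub Sum.inl q * sub Sum.inl p0 : Lau K (Fin n ⊕ Fin n)) = 1 := by rw [← map_mul, hq, map_one]
  have e2 : (sub Sum.inr q * sub Sum.inr p0 : Lau K (Fin n ⊕ Fin n)) = 1 := by rw [← map_mul, hq, map_one]
  have e : sub Sum.inr (vd K n) * (sub Sum.inl q - sub Sum.inr q : Lau K (Fin n ⊕ Fin n))
      = -(sub Sum.inl q * sub Sum.inr q) * (sub Sum.inr (vd K n) * (sub Sum.inl p0 - sub Sum.inr p0)) := by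
    linear_combination -(sub Sum.inr (vd K n)) * sub Sum.inl q * e2 + sub Sum.inr (vd K n) * sub Sum.inr q * e1
  rw [e]
  exact Ideal.mul_mem_left _ _ h1

end sym

section heavy

variable {X : Type*} [Fintype X] [DecidableEq X] {n : ℕ} (c : Fin n → X)

/-- One power of the Hankel determinant suffices. -/
theorem LS_heavy {r : Lau K (Fin n)} (hr : r ∈ LS K n) :
    ∃ s : Sy K, algebraMap (Sy K) (PP K X) (hh K n) * up (sub c r) - algebraMap (Sy K) (PP K X) s
      ∈ rr K c := by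
  obtain ⟨G, hG⟩ := hr
  have h1 : ∀ E ∈ Iz K n, ∀ F : PP K (X ⊕ Fin n),
      eY (sub (Sum.map c id) (up E) * F) ∈ rr K c := by
    intro E hE
    refine Submodule.span_induction ?_ ?_ ?_ ?_ hE
    · rintro _ ⟨i, rfl⟩ F
      have e : sub (Sum.map c id) (up (∏ k : Fin n, (w (Sum.inr i) - w (Sum.inl k)) :
          Lau K (Fin n ⊕ Fin n))) = (pY c i : PP K (X ⊕ Fin n)) := by
        rw [map_prod, map_prod, pY]
        refine Finset.prod_congr rfl fun k _ => ?_
        rw [map_sub, map_sub, up_w, up_w, sub_w, sub_w]; rfl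
      rw [e]; exact eY_pY_mem c i F
    · intro F; rw [map_zero, map_zero, zero_mul, map_zero]; exact zero_mem _
    · intro x y _ _ hx hy F
      rw [map_add, map_add, add_mul, map_add]; exact add_mem (hx F) (hy F)
    · intro a x _ hx F
      have e : sub (Sum.map c id) (up (a • x)) * F
          = sub (Sum.map c id) (up x) * (sub (Sum.map c id) (up a) * F) := by
        rw [smul_eq_mul, map_mul, map_mul]; ring
      rw [e]
      exact hx _
  have h2 := h1 _ hG (sub Sum.inr (∏ i : Fin n, wz i (i : ℕ)))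
  refine ⟨tY (vd (Sy K) n * (∏ i : Fin n, wz i (i : ℕ)) * up G), ?_⟩
  convert h2 using 1
  have e1 : sub (Sum.map c id) (up (sub Sum.inr (vd K n) : Lau K (Fin n ⊕ Fin n)))
      = (sub Sum.inr (vd (Sy K) n) : PP K (X ⊕ Fin n)) := by
    rw [up_sub, sub_sub, up_vd]; rfl
  have e2 : sub (Sum.map c id) (up (sub Sum.inl r : Lau K (Fin n ⊕ Fin n)))
      = (sub Sum.inl (up (sub c r)) : PP K (X ⊕ Fin n)) := by
    rw [up_sub, up_sub, sub_sub, sub_sub]; rfl
  have e3 : sub (Sum.map c id) (up (sub Sum.inr G : Lau K (Fin n ⊕ Fin n)))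
      = (sub Sum.inr (up G) : PP K (X ⊕ Fin n)) := by
    rw [up_sub, sub_sub]; rfl
  have e5 : sub (Sum.map c id) (up (sub Sum.inr (vd K n) * (sub Sum.inl r - sub Sum.inr G) :
      Lau K (Fin n ⊕ Fin n))) = (sub Sum.inr (vd (Sy K) n) * (sub Sum.inl (up (sub c r))
        - sub Sum.inr (up G)) : PP K (X ⊕ Fin n)) := by
    rw [map_mul, map_mul, map_sub, map_sub, e1, e2, e3]
  rw [e5]
  have e4 : (sub Sum.inr (vd (Sy K) n) * (sub Sum.inl (up (sub c r)) - sub Sum.inr (up G)) *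
      sub Sum.inr (∏ i : Fin n, wz i (i : ℕ)) : PP K (X ⊕ Fin n))
      = sub Sum.inl (up (sub c r)) * sub Sum.inr (vd (Sy K) n * ∏ i : Fin n, wz i (i : ℕ))
        - sub Sum.inr (vd (Sy K) n * (∏ i : Fin n, wz i (i : ℕ)) * up G) := by
    rw [map_mul (sub Sum.inr), map_mul (sub Sum.inr), map_mul (sub Sum.inr)]; ring
  rw [e4, map_sub, eY_mul_inl, eY_inr, eY_inr, tY_vd, mul_comm]

end heavy

end WittACC
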