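import Pool.Agent.helper37.WittC.Heavy2

/-!
The Hankel determinant divides the product of the `b_k` modulo `rr c`.
-/

set_option linter.unusedSectionVars false
set_option linter.unusedVariables false

namespace WittACC

variable {K : Type*} [Field K] {X : Type*} [Fintype X] [DecidableEq X]

lemma eL_ihp_mul (N : ℕ) (p q : Polynomial (Lau K X)) (hp : p.natDegree < N) (hq : q.natDegree < N) :
    eL (ihp p * ihp q) = ∑ i : Fin N, ∑ j : Fin N, up (p.coeff i) * (ee ((i : ℕ) + (j : ℕ)) * up (q.coeff j)) := by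
  have h : ∀ r : Polynomial (Lau K X), r.natDegree < N → ihp r = ∑ i : Fin N,
      sub Sum.inl (up (r.coeff i)) * wz (Sum.inr ()) (i : ℕ) := by
    intro r hr
    rw [ihp, Polynomial.coe_eval₂RingHom, Polynomial.eval₂_eq_sum_range' _ hr,
      ← Fin.sum_univ_eq_sum_range (fun i => (_ : Lau K X →+* PP K (X ⊕ Unit)) (r.coeff i) *
        (w (Sum.inr ()) : PP K (X ⊕ Unit)) ^ i)]
    refine Finset.sum_congr rfl fun κ _ => ?_
    rw [wz_natCast]; rfl
  rw [h p hp, h q hq, Finset.sum_mul, map_sum]
  refine Finset.sum_congr rfl fun i _ => ?_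
  rw [Finset.mul_sum, map_sum]
  refine Finset.sum_congr rfl fun j _ => ?_
  have e : (sub Sum.inl (up (p.coeff i)) * wz (Sum.inr ()) (i : ℕ) *
      (sub Sum.inl (up (q.coeff j)) * wz (Sum.inr ()) (j : ℕ)) : PP K (X ⊕ Unit))
      = sub Sum.inl (up (p.coeff i) * up (q.coeff j)) * wz (Sum.inr ()) ((i : ℕ) + (j : ℕ)) := by
    rw [map_mul, wz_add]; ring
  rw [e, eL, eY_mul_inl, ← eL, eL_wz]
  ring

section

variable {n : ℕ} (c : Fin (n + 1) → X)

/-- Partial products. -/
noncomputable def pS (s : Finset (Fin (n + 1))) : Polynomial (Lau K X) :=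
  ∏ k ∈ s, (Polynomial.X - Polynomial.C (w (c k)))

lemma pS_natDegree (s : Finset (Fin (n + 1))) : (pS (K := K) c s).natDegree = s.card := by
  rw [pS, Polynomial.natDegree_prod_of_monic _ _ fun k _ => Polynomial.monic_X_sub_C _]
  simp

lemma ihp_pS (s : Finset (Fin (n + 1))) : ihp (pS (K := K) c s)
    = ∏ k ∈ s, (w (Sum.inr ()) - w (Sum.inl (c k))) := by
  rw [pS, map_prod]
  refine Finset.prod_congr rfl fun k _ => ?_
  rw [map_sub, ihp_X, ihp_C, up_w, sub_w]

theorem hh_dvd : ∃ u : PP K X, (∏ k, bk K c k) - u * algebraMap (Sy K) (PP K X) (hh K (n + 1)) ∈ rr K c := by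
  classical
  set A : Fin (n + 1) → Finset (Fin (n + 1)) := fun k => Finset.univ.filter (· < k) with hA
  set B : Fin (n + 1) → Finset (Fin (n + 1)) := fun k => Finset.univ.filter (k < ·) with hB
  have hcA : ∀ k, (A k).card < n + 1 := fun k => by
    have : A k ⊂ Finset.univ := by
      rw [Finset.ssubset_univ_iff]; intro h
      have := Finset.mem_univ k; rw [← h, hA] at this; simp at this
    have := Finset.card_lt_card this
    simpa using this
  have hcB : ∀ k, (B k).card < n + 1 := fun k => by
    have : B k ⊂ Finset.univ := by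
      rw [Finset.ssubset_univ_iff]; intro h
      have := Finset.mem_univ k; rw [← h, hB] at this; simp at this
    have := Finset.card_lt_card this
    simpa using this
  set U : Matrix (Fin (n + 1)) (Fin (n + 1)) (PP K X) := Matrix.of fun k i => up ((pS c (A k)).coeff i) with hU
  set W : Matrix (Fin (n + 1)) (Fin (n + 1)) (PP K X) := Matrix.of fun j l => up ((pS c (B l)).coeff j) with hW
  set H : Matrix (Fin (n + 1)) (Fin (n + 1)) (PP K X) := Matrix.of fun i j => ee ((i : ℕ) + (j : ℕ)) with hH
  set N : Matrix (Fin (n + 1)) (Fin (n + 1)) (PP K X) := Matrix.of fun k l =>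
    eL (ihp (pS c (A k)) * ihp (pS c (B l))) with hN
  have hNe : N = U * (H * W) := by
    ext1 k l
    rw [hN, Matrix.of_apply, eL_ihp_mul (n + 1) _ _ (by rw [pS_natDegree]; exact hcA k)
      (by rw [pS_natDegree]; exact hcB l), Matrix.mul_apply]
    refine Finset.sum_congr rfl fun i _ => ?_
    rw [Matrix.mul_apply, Finset.mul_sum]
    rfl
  have hdetH : H.det = algebraMap (Sy K) (PP K X) (hh K (n + 1)) := by
    rw [hh, RingHom.map_det]
    congr 1
  have hdet : N.det = (U.det * W.det) * algebraMap (Sy K) (PP K X) (hh K (n + 1)) := by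
    rw [hNe, Matrix.det_mul, Matrix.det_mul, hdetH]; ring
  refine ⟨U.det * W.det, ?_⟩
  rw [← hdet, mem_rr_iff, map_sub, sub_eq_zero, AlgHom.map_det, map_prod]
  rw [Matrix.det_of_isUpperTriangular]
  · refine Finset.prod_congr rfl fun k _ => ?_
    rw [AlgHom.mapMatrix_apply, Matrix.map_apply, hN, Matrix.of_apply, bk, ihp_pS, ihp_pS]
    congr 2
    have hd : Disjoint (A k) (B k) := by
      rw [Finset.disjoint_left]
      intro x hx hx'
      rw [hA] at hx; rw [hB] at hx'
      simp only [Finset.mem_filter, Finset.mem_univ, true_and] at hx hx'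
      exact absurd hx hx'.le.not_gt
    rw [← Finset.prod_union hd]
    have hAB : A k ∪ B k = Finset.univ.image k.succAbove := by
      rw [Fin.image_succAbove_univ]
      ext x
      simp only [hA, hB, Finset.mem_union, Finset.mem_filter, Finset.mem_univ, true_and,
        Finset.mem_compl, Finset.mem_singleton]
      exact ⟨fun h => h.elim ne_of_lt (fun h => (ne_of_lt h).symm), lt_or_gt_of_ne⟩
    rw [hAB, Finset.prod_image (fun a _ b _ h => Fin.succAbove_right_injective h), pc]
    rfl
  · intro k l hkl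
    simp only [id] at hkl
    rw [AlgHom.mapMatrix_apply, Matrix.map_apply, hN, Matrix.of_apply, ihp_pS, ihp_pS]
    refine phi_rr c (eL_mem_rr_of_dvd c ?_)
    rw [pc]
    have h1 : (Finset.univ : Finset (Fin (n + 1))) = A k ∪ (Finset.univ \ A k) := by
      rw [Finset.union_sdiff_of_subset (Finset.subset_univ _)]
    rw [h1, Finset.prod_union (Finset.disjoint_sdiff)]
    refine mul_dvd_mul_left _ (Finset.prod_dvd_prod_of_subset _ _ _ ?_)
    intro x hx
    simp only [hA, hB, Finset.mem_sdiff, Finset.mem_filter, Finset.mem_univ, true_and, not_lt] at hx ⊢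
    exact lt_of_lt_of_le hkl hx

end

end WittACC
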