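import Pool.Agent.helper37.WittC.Noe

/-!
The modules attached to stable submodules, and averaging.
-/

set_option linter.unusedSectionVars false
set_option linter.unusedVariables false

namespace WittACC

variable {K : Type*} [Field K] {l : ℕ} {H : Type*} [Fintype H] [DecidableEq H] {n : ℕ}

section gm

/-- The action of permutations of the light points. -/
noncomputable def gm (τ : Equiv.Perm (Fin l)) : PP K (Fin l ⊕ H) →ₐ[Sy K] PP K (Fin l ⊕ H) :=
  sub (Sum.map τ id)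

lemma gm_gm (τ ρ : Equiv.Perm (Fin l)) (F : PP K (Fin l ⊕ H)) : gm τ (gm ρ F) = gm (τ * ρ) F := by
  rw [gm, gm, gm, sub_sub, Sum.map_comp_map]; rfl

lemma gm_one (F : PP K (Fin l ⊕ H)) : gm (1 : Equiv.Perm (Fin l)) F = F := by
  rw [gm]
  have : (Sum.map (⇑(1 : Equiv.Perm (Fin l))) id : Fin l ⊕ H → Fin l ⊕ H) = id := by
    ext x; rcases x with x | x <;> rfl
  rw [this, sub_id]

lemma gm_heavy (c : Fin n → H) (τ : Equiv.Perm (Fin l)) (r : Lau K (Fin n)) :
    gm τ (up (sub (cc l c) r)) = up (sub (cc l c) r) := by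
  rw [gm, ← up_sub, sub_sub]; rfl

lemma gm_light (τ : Equiv.Perm (Fin l)) (G : PP K (Fin l)) :
    gm τ (sub Sum.inl G : PP K (Fin l ⊕ H)) = sub Sum.inl (sub τ G) := by
  rw [gm, sub_sub, sub_sub]; rfl

lemma gm_rr (c : Fin n → H) (τ : Equiv.Perm (Fin l)) {F : PP K (Fin l ⊕ H)} (hF : F ∈ rr K (cc l c)) :
    gm τ F ∈ rr K (cc l c) := sub_mem_rr (Sum.map τ id) (cc l c) hF

lemma gm_Tht {lam : Fin l ⊕ H → ℤ} {τ : Equiv.Perm (Fin l)} (hτ : τ ∈ Gm lam) (F : PP K (Fin l ⊕ H)) :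
    gm τ (Tht K lam F) = Tht K lam (gm τ F) := by
  induction F using lau_induction with
  | h0 => simp
  | ha x y hx hy => simp only [map_add, hx, hy]
  | hs t x hx => simp only [map_smul, hx]
  | hm f =>
    rw [Tht, gm, sub_mon, dg_mon, dg_mon, map_smul, sub_mon]
    congr 1
    refine Finset.prod_equiv τ (fun i => Gm_S1 hτ i) (fun j _ => ?_)
    rw [push_apply, Fintype.sum_sum_type]; simp

end gm

section hp

variable (lam : Fin l ⊕ H → ℤ) (c : Fin n → H)

variable (K) in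
/-- The scalar in the unit factor. -/
noncomputable def uc : Sy K := (-1) ^ (S1 lam).card *
  ∏ j ∈ (S1 lam)ᶜ, (2 * ((lam (Sum.inl j) : Sy K) + 1) * -(lam (Sum.inl j) : Sy K))

variable (K) in
/-- The monomial in the unit factor. -/
noncomputable def um : PP K (Fin l) := (∏ j ∈ (S1 lam)ᶜ, w j ^ 2) * ∏ j ∈ S1 lam, w j

lemma UU_eq : UU K lam = uc K lam • sub Sum.inl (um K lam) := by
  rw [UU, uc, um, map_mul, map_prod, map_prod]
  have h1 : ∏ j ∈ (S1 lam)ᶜ, (2 * ((lam (Sum.inl j) : Sy K) • w (Sum.inl j) + w (Sum.inl j)) *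
      -((lam (Sum.inl j) : Sy K) • w (Sum.inl j)) : PP K (Fin l ⊕ H)) =
      (∏ j ∈ (S1 lam)ᶜ, (2 * ((lam (Sum.inl j) : Sy K) + 1) * -(lam (Sum.inl j) : Sy K))) •
        ∏ j ∈ (S1 lam)ᶜ, w (Sum.inl j) ^ 2 := by
    rw [Algebra.smul_def, map_prod, ← Finset.prod_mul_distrib]
    refine Finset.prod_congr rfl fun j _ => ?_
    rw [Algebra.smul_def, map_mul, map_mul, map_neg, map_add, map_one, map_ofNat]
    ring
  have h2 : ∀ j : Fin l, (sub Sum.inl (w j ^ 2) : PP K (Fin l ⊕ H)) = w (Sum.inl j) ^ 2 := by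
    intro j; rw [map_pow, sub_w]
  have h3 : ∀ j : Fin l, (sub Sum.inl (w j) : PP K (Fin l ⊕ H)) = w (Sum.inl j) := by
    intro j; rw [sub_w]
  simp only [h2, h3]
  rw [h1, mul_smul, smul_mul_assoc]
  rw [Algebra.smul_def ((-1) ^ (S1 lam).card : Sy K), map_pow, map_neg, map_one]

lemma um_unit : IsUnit (um K lam) := by
  rw [um]
  refine IsUnit.mul ?_ ?_
  · rw [IsUnit.prod_iff]; exact fun j _ => (wz_isUnit j 1).pow 2
  · rw [IsUnit.prod_iff]; exact fun j _ => wz_isUnit j 1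

lemma sub_um {τ : Equiv.Perm (Fin l)} (hτ : τ ∈ Gm lam) : sub τ (um K lam) = um K lam := by
  rw [um, map_mul, map_prod, map_prod]
  congr 1
  · have hc : ∀ i, i ∈ (S1 lam)ᶜ ↔ τ i ∈ (S1 lam)ᶜ := fun i => by
      rw [Finset.mem_compl, Finset.mem_compl, not_iff_not]; exact Gm_S1 hτ i
    refine Finset.prod_equiv τ hc (fun j _ => ?_)
    rw [map_pow, sub_w]
  · refine Finset.prod_equiv τ (fun i => Gm_S1 hτ i) (fun j _ => ?_)
    rw [sub_w]

variable (K) in
/-- The denominator. -/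
noncomputable def hp : PP K (Fin l ⊕ H) :=
  algebraMap (Sy K) (PP K (Fin l ⊕ H)) (hh K n ^ (1 + (l + l))) * (UU K lam * DDn K l c)

variable {lam c}

/-- Values of the heavy polynomial. -/
lemma eval_pbar_mem_R0 (j : Fin l) : (∏ k : Fin n, (w (Sum.inl j) - w (Sum.inr (c k))) : PP K (Fin l ⊕ H))
    ∈ R0 K l c := by
  have h1 := ihp_eq_sum (pbar K (cc l c))
  have h2 := congrArg (evz (Sum.inl j : Fin l ⊕ H)) h1
  rw [ihp_pbar, map_sum, pc, map_prod] at h2
  have h3 : ∏ k : Fin n, (w (Sum.inl j) - w (Sum.inr (c k)) : PP K (Fin l ⊕ H)) =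
      ∏ x : Fin n, evz (Sum.inl j) (w (Sum.inr ()) - w (Sum.inl (cc l c x))) := by
    refine Finset.prod_congr rfl fun k _ => ?_
    rw [map_sub, sub_w, sub_w]; rfl
  rw [h3, h2]
  refine sum_mem fun κ _ => ?_
  rw [map_mul, sub_sub, sub_wz, Sum.elim_comp_inl, sub_id, pbar_cc_coeff]
  exact mul_mem (LS_mem_R0 (coeff_mem_LS n κ)) (wz_mem_R0 j _)

lemma hp_mem_R0 : hp K lam c ∈ R0 K l c := by
  rw [hp, UU_eq, DDn, PX]
  refine mul_mem (Subalgebra.algebraMap_mem _ _) (mul_mem (Subalgebra.smul_mem _ (light_mem_R0 _) _)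
    (mul_mem (pow_mem (prod_mem fun j _ => eval_pbar_mem_R0 j) _) (pow_mem (light_mem_R0 _) _)))

lemma gm_PX (τ : Equiv.Perm (Fin l)) : gm τ (PX K c : PP K (Fin l ⊕ H)) = PX K c := by
  rw [PX, map_prod, ← Equiv.prod_comp τ (fun j => ∏ k : Fin n, (w (Sum.inl j) - w (Sum.inr (c k)) :
    PP K (Fin l ⊕ H)))]
  refine Finset.prod_congr rfl fun j _ => ?_
  rw [map_prod]
  refine Finset.prod_congr rfl fun k _ => ?_
  rw [gm, map_sub, sub_w, sub_w]; rfl

lemma gm_hp {τ : Equiv.Perm (Fin l)} (hτ : τ ∈ Gm lam) : gm τ (hp K lam c) = hp K lam c := by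
  rw [hp, UU_eq, DDn]
  simp only [map_mul, map_pow, map_smul]
  rw [gm_light, sub_um lam hτ, gm_PX, gm_light, sub_disc, AlgHom.commutes]

end hp

section Qs

variable (lam : Fin l ⊕ H → ℤ) (c : Fin n → H)

variable {lam} in
/-- The vector of conjugates. -/
noncomputable def hat (F : PP K (Fin l ⊕ H)) : Gm lam → PP K (Fin l ⊕ H) :=
  fun τ => gm (τ : Equiv.Perm (Fin l)) F

/-- The `R0`-module attached to `A`. -/
noncomputable def Qs (A : Submodule (Sy K) (PP K (Fin l ⊕ H))) :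
    Submodule (R0 K l c) (Gm lam → PP K (Fin l ⊕ H)) :=
  Submodule.span (R0 K l c) ({z | ∃ F ∈ A, z = hat (Tht K lam F)} ∪ {z | ∀ τ, z τ ∈ rr K (cc l c)})

variable {lam c}

lemma hat_mem_Qs {A : Submodule (Sy K) (PP K (Fin l ⊕ H))} {F : PP K (Fin l ⊕ H)} (hF : F ∈ A) :
    hat (Tht K lam F) ∈ Qs lam c A := Submodule.subset_span (Or.inl ⟨F, hF, rfl⟩)

lemma rr_mem_Qs {A : Submodule (Sy K) (PP K (Fin l ⊕ H))} {z : Gm lam → PP K (Fin l ⊕ H)}
    (hz : ∀ τ, z τ ∈ rr K (cc l c)) : z ∈ Qs lam c A := Submodule.subset_span (Or.inr hz)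

lemma Qs_mono {A A' : Submodule (Sy K) (PP K (Fin l ⊕ H))} (h : A ≤ A') : Qs lam c A ≤ Qs lam c A' := by
  refine Submodule.span_mono ?_
  rintro z (⟨F, hF, rfl⟩ | hz)
  · exact Or.inl ⟨F, h hF, rfl⟩
  · exact Or.inr hz

/-- `T3` for all elements of `R0`. -/
lemma T3' {A : Submodule (Sy K) (PP K (Fin l ⊕ H))} (hc : Function.Surjective c)
    (hA : TSt (cc l c) (om K lam) A) {F : PP K (Fin l ⊕ H)} (hF : F ∈ A)
    {a : PP K (Fin l ⊕ H)} (ha : a ∈ R0 K l c) :
    hp K lam c * (∑ τ : Gm lam, gm (τ : Equiv.Perm (Fin l)) a) * Tht K lam F ∈ A := by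
  refine R0_induction (P := fun a => hp K lam c * (∑ τ : Gm lam, gm (τ : Equiv.Perm (Fin l)) a) *
    Tht K lam F ∈ A) ha ?_ ?_ ?_ ?_
  · simp only [map_zero, Finset.sum_const_zero, mul_zero, zero_mul]; exact zero_mem _
  · intro x y hx hy
    simp only [map_add, Finset.sum_add_distrib, mul_add, add_mul]
    exact add_mem hx hy
  · intro s x hx
    simp only [map_smul, ← Finset.smul_sum, mul_smul_comm, smul_mul_assoc]
    exact A.smul_mem _ hx
  · intro r hr G
    simp only [map_mul, gm_heavy, gm_light, ← Finset.mul_sum]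
    exact T3 hc hA hF hr G

/-- Averaging. -/
lemma averaging [CharZero K] {A : Submodule (Sy K) (PP K (Fin l ⊕ H))} (hc : Function.Surjective c)
    (hA : TSt (cc l c) (om K lam) A) {w : PP K (Fin l ⊕ H)} (hw : hat w ∈ Qs lam c A) :
    hp K lam c * w ∈ A := by
  have key : ∀ z ∈ Qs lam c A, ∀ a ∈ R0 K l c,
      hp K lam c * ∑ τ : Gm lam, gm ((τ⁻¹ : Gm lam) : Equiv.Perm (Fin l)) (a * z τ) ∈ A := by
    intro z hz
    refine Submodule.span_induction ?_ ?_ ?_ ?_ hz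
    · rintro z (⟨F, hF, rfl⟩ | hz) a ha
      · have h1 := T3' hc hA hF ha
        have h2 : ∑ τ : Gm lam, gm ((τ⁻¹ : Gm lam) : Equiv.Perm (Fin l)) (a * hat (Tht K lam F) τ)
            = (∑ τ : Gm lam, gm (τ : Equiv.Perm (Fin l)) a) * Tht K lam F := by
          rw [← Equiv.sum_comp (Equiv.inv (Gm lam)) (fun τ => gm (τ : Equiv.Perm (Fin l)) a),
            Finset.sum_mul]
          refine Finset.sum_congr rfl fun τ _ => ?_
          rw [map_mul, hat, gm_gm]
          have : ((τ⁻¹ : Gm lam) : Equiv.Perm (Fin l)) * (τ : Equiv.Perm (Fin l)) = 1 := by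
            rw [← Subgroup.coe_mul, inv_mul_cancel, Subgroup.coe_one]
          rw [this, gm_one]; rfl
        rw [h2, ← mul_assoc]; exact h1
      · refine hA.rr _ (Ideal.mul_mem_left _ _ (Ideal.sum_mem _ fun τ _ => gm_rr c _ ?_))
        exact Ideal.mul_mem_left _ _ (hz τ)
    · intro a _
      simp only [Pi.zero_apply, mul_zero, map_zero, Finset.sum_const_zero]
      exact zero_mem _
    · intro x y _ _ hx hy a ha
      simp only [Pi.add_apply, mul_add, map_add, Finset.sum_add_distrib]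
      exact add_mem (hx a ha) (hy a ha)
    · rintro ⟨b, hb⟩ x _ hx a ha
      have h1 := hx (a * b) (mul_mem ha hb)
      have h2 : ∀ τ, a * (((⟨b, hb⟩ : R0 K l c) • x) τ) = a * b * x τ := by
        intro τ
        have : (((⟨b, hb⟩ : R0 K l c) • x) τ) = b * x τ := rfl
        rw [this]; ring
      simp only [h2]; exact h1
  have h1 := key _ hw 1 (one_mem _)
  have h2 : ∀ τ : Gm lam, gm ((τ⁻¹ : Gm lam) : Equiv.Perm (Fin l)) (1 * hat w τ) = w := by
    intro τ
    rw [one_mul, hat, gm_gm]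
    have : ((τ⁻¹ : Gm lam) : Equiv.Perm (Fin l)) * (τ : Equiv.Perm (Fin l)) = 1 := by
      rw [← Subgroup.coe_mul, inv_mul_cancel, Subgroup.coe_one]
    rw [this, gm_one]
  simp only [h2, Finset.sum_const] at h1
  set N := (Finset.univ : Finset (Gm lam)).card with hN
  have hN0 : N ≠ 0 := by rw [hN, Finset.card_univ]; exact Fintype.card_ne_zero
  have h3 := A.smul_mem (MvPolynomial.C ((N : K)⁻¹) : Sy K) h1
  have h4 : (MvPolynomial.C ((N : K)⁻¹) : Sy K) • (hp K lam c * N • w) = hp K lam c * w := by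
    rw [← Nat.cast_smul_eq_nsmul (Sy K), mul_smul_comm, smul_smul]
    have : (MvPolynomial.C ((N : K)⁻¹) : Sy K) * (N : Sy K) = 1 := by
      rw [← map_natCast (MvPolynomial.C : K →+* Sy K) N, ← map_mul,
        inv_mul_cancel₀ (Nat.cast_ne_zero.2 hN0), map_one]
    rw [this, one_smul]
  rwa [h4] at h3

end Qs

end WittACC
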