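import Pool.Agent.helper37.WittC.KL1

/-!
Stability under the Euler operators of the light variables.
-/

set_option linter.unusedSectionVars false
set_option linter.unusedVariables false

namespace WittACC

variable {K : Type*} [Field K] {l : ℕ} {H : Type*} [Fintype H] [DecidableEq H] {n : ℕ}

section Tht

/-- The shifted weights. -/
def lamst (lam : Fin l ⊕ H → ℤ) : Fin l ⊕ H → ℤ :=
  Sum.elim (fun j => if j ∈ S1 lam then -1 else lam (Sum.inl j)) (fun h => lam (Sum.inr h))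

lemma del_intCast (v m : ℤ) : del v ((m : ℤ) : Sy K) = 0 := Derivation.map_intCast _ _

lemma DD_Tht (lam : Fin l ⊕ H → ℤ) (v : ℤ) (F : PP K (Fin l ⊕ H)) :
    DD (lamst lam) v (Tht K lam F) = Tht K lam (DD lam v F) := by
  refine equivariant_of_mon (Tht K lam) v (fun a => ?_) F
  have e0 : ∀ b : Fin l ⊕ H → ℤ, Tht K lam (mon b) =
      ((∏ j ∈ S1 lam, b (Sum.inl j) : ℤ) : Sy K) • mon b := by
    intro b; rw [Tht, dg_mon]; push_cast; rfl
  rw [e0, DD_smul, del_intCast, zero_smul, zero_add, DD_mon, DD_mon, map_sum, Finset.smul_sum]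
  refine Finset.sum_congr rfl fun i _ => ?_
  rw [map_smul, e0, smul_smul, smul_smul, ← Int.cast_mul, ← Int.cast_mul]
  congr 2
  rcases i with i | h
  · by_cases hi : i ∈ S1 lam
    · have h1 : lamst lam (Sum.inl i) = -1 := by simp [lamst, hi]
      have h2 : lam (Sum.inl i) = 0 := mem_S1.1 hi
      rw [h1, h2, ← Finset.mul_prod_erase _ _ hi, ← Finset.mul_prod_erase _ _ hi]
      have h3 : ∏ j ∈ (S1 lam).erase i, (a + Pi.single (Sum.inl i) v : Fin l ⊕ H → ℤ) (Sum.inl j)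
          = ∏ j ∈ (S1 lam).erase i, a (Sum.inl j) := by
        refine Finset.prod_congr rfl fun j hj => ?_
        have : j ≠ i := (Finset.mem_erase.1 hj).1
        simp [this]
      rw [h3]
      simp only [Pi.add_apply, Pi.single_eq_same]
      ring
    · have h1 : lamst lam (Sum.inl i) = lam (Sum.inl i) := by simp [lamst, hi]
      have h3 : ∏ j ∈ S1 lam, (a + Pi.single (Sum.inl i) v : Fin l ⊕ H → ℤ) (Sum.inl j)
          = ∏ j ∈ S1 lam, a (Sum.inl j) := by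
        refine Finset.prod_congr rfl fun j hj => ?_
        have : j ≠ i := by rintro rfl; exact hi hj
        simp [this]
      rw [h1, h3]; ring
  · have h1 : lamst lam (Sum.inr h) = lam (Sum.inr h) := rfl
    have h3 : ∏ j ∈ S1 lam, (a + Pi.single (Sum.inr h) v : Fin l ⊕ H → ℤ) (Sum.inl j)
        = ∏ j ∈ S1 lam, a (Sum.inl j) := by
      refine Finset.prod_congr rfl fun j hj => ?_
      simp
    rw [h1, h3]; ring

/-- The weights on the components. -/
noncomputable def mu (lam : Fin l ⊕ H → ℤ) (τ : Equiv.Perm (Fin l)) : Fin l ⊕ H → ℤ :=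
  push (Sum.map τ id) (lamst lam)

lemma DD_hat (lam : Fin l ⊕ H → ℤ) (v : ℤ) (F : PP K (Fin l ⊕ H)) (τ : Gm lam) :
    DD (mu lam τ) v (hat (Tht K lam F) τ) = hat (Tht K lam (DD lam v F)) τ := by
  rw [hat, gm, mu, DD_sub_map, DD_Tht]; rfl

end Tht

section RZ

variable (c : Fin n → H)

/-- Laurent monomials in the auxiliary variable with coefficients in `R0`. -/
noncomputable def MoZ (K : Type*) [Field K] (l : ℕ) (c : Fin n → H) :
    Submonoid (PP K ((Fin l ⊕ H) ⊕ Unit)) where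
  carrier := {m | ∃ a ∈ R0 K l c, ∃ v : ℤ, m = sub Sum.inl a * wz (Sum.inr ()) v}
  mul_mem' := by
    rintro _ _ ⟨a, ha, v, rfl⟩ ⟨b, hb, u, rfl⟩
    refine ⟨a * b, mul_mem ha hb, v + u, ?_⟩
    rw [map_mul, wz_add]; ring
  one_mem' := ⟨1, one_mem _, 0, by simp [wz_zero]⟩

/-- Laurent polynomials in the auxiliary variable with coefficients in `R0`. -/
noncomputable def RZ (K : Type*) [Field K] (l : ℕ) (c : Fin n → H) :
    Subalgebra (Sy K) (PP K ((Fin l ⊕ H) ⊕ Unit)) := Algebra.adjoin (Sy K) (MoZ K l c)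

variable {c}

lemma RZ_induction {P : PP K ((Fin l ⊕ H) ⊕ Unit) → Prop} {G : PP K ((Fin l ⊕ H) ⊕ Unit)}
    (hG : G ∈ RZ K l c) (h0 : P 0) (hadd : ∀ x y, P x → P y → P (x + y))
    (hsm : ∀ (s : Sy K) x, P x → P (s • x))
    (hm : ∀ a ∈ R0 K l c, ∀ v : ℤ, P (sub Sum.inl a * wz (Sum.inr ()) v)) : P G := by
  have h1 : G ∈ (RZ K l c).toSubmodule := hG
  rw [RZ, Algebra.adjoin_eq_span, Submonoid.closure_eq] at h1
  refine Submodule.span_induction (p := fun x _ => P x) ?_ h0 (fun x y _ _ hx hy => hadd x y hx hy)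
    (fun s x _ hx => hsm s x hx) h1
  rintro _ ⟨a, ha, v, rfl⟩
  exact hm a ha v

lemma inl_mem_RZ {a : PP K (Fin l ⊕ H)} (ha : a ∈ R0 K l c) : sub Sum.inl a ∈ RZ K l c :=
  Algebra.subset_adjoin ⟨a, ha, 0, by simp [wz_zero]⟩

lemma wz_mem_RZ (v : ℤ) : (wz (Sum.inr ()) v : PP K ((Fin l ⊕ H) ⊕ Unit)) ∈ RZ K l c :=
  Algebra.subset_adjoin ⟨1, one_mem _, v, by simp⟩

lemma pc_mem_RZ : pc K (cc l c) ∈ RZ K l c := by
  rw [← ihp_pbar, ihp_eq_sum]
  refine sum_mem fun κ _ => mul_mem (inl_mem_RZ ?_) (wz_mem_RZ _)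
  rw [pbar_cc_coeff]
  exact LS_mem_R0 (coeff_mem_LS n κ)

lemma WD_inl_wz (lam : Fin l ⊕ H → ℤ) (a F : PP K (Fin l ⊕ H)) (v : ℤ) :
    WD lam (sub Sum.inl a * wz (Sum.inr ()) v) F = a * DD lam v F := by
  induction a using lau_induction with
  | h0 => simp
  | ha x y hx hy => rw [map_add, add_mul, map_add, Pi.add_apply, hx, hy, add_mul]
  | hs t x hx => rw [map_smul, smul_mul_assoc, map_smul, Pi.smul_apply, hx, smul_mul_assoc]
  | hm a =>
    rw [sub_mon, wz, mon_mul, WD_mon, push_inl]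
    simp

lemma WD_hat {lam : Fin l ⊕ H → ℤ} {A : Submodule (Sy K) (PP K (Fin l ⊕ H))}
    (hA : TSt (cc l c) (om K lam) A) {F : PP K (Fin l ⊕ H)} (hF : F ∈ A)
    {G : PP K ((Fin l ⊕ H) ⊕ Unit)} (hG : G ∈ RZ K l c) :
    (fun τ : Gm lam => WD (mu lam τ) G (hat (Tht K lam F) τ)) ∈ Qs lam c A := by
  refine RZ_induction (P := fun G => (fun τ : Gm lam => WD (mu lam τ) G (hat (Tht K lam F) τ))
    ∈ Qs lam c A) hG ?_ ?_ ?_ ?_
  · simp only [map_zero, Pi.zero_apply]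
    exact zero_mem _
  · intro x y hx hy
    simp only [map_add, Pi.add_apply]
    exact add_mem hx hy
  · intro s x hx
    simp only [map_smul, Pi.smul_apply]
    exact Submodule.smul_of_tower_mem _ s hx
  · intro a ha v
    have e : (fun τ : Gm lam => WD (mu lam τ) (sub Sum.inl a * wz (Sum.inr ()) v) (hat (Tht K lam F) τ))
        = (⟨a, ha⟩ : R0 K l c) • hat (Tht K lam (DD lam v F)) := by
      ext1 τ
      rw [WD_inl_wz, DD_hat]; rfl
    rw [e]
    exact Submodule.smul_mem _ _ (hat_mem_Qs (hA.st v F hF))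

end RZ

section theta

variable {c : Fin n → H}

lemma dg_heavy (q : Fin l) (r : Lau K (Fin n)) :
    dg (ev (Sum.inl q)) (up (sub (cc l c) r) : PP K (Fin l ⊕ H)) = 0 := by
  induction r using lau_induction with
  | h0 => simp
  | ha x y hx hy => simp only [map_add, hx, hy, add_zero]
  | hs t x hx => rw [map_smul, map_smul, smul_eq_C_smul, map_smul, hx, smul_zero]
  | hm a =>
    rw [sub_mon, up_mon, dg_mon, ev_apply, push_apply]; simp [cc]

lemma dg_light (q : Fin l) (G : PP K (Fin l)) :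
    dg (ev (Sum.inl q)) (sub Sum.inl G : PP K (Fin l ⊕ H)) = sub Sum.inl (dg (ev q) G) := by
  induction G using lau_induction with
  | h0 => simp
  | ha x y hx hy => simp only [map_add, hx, hy]
  | hs t x hx => simp only [map_smul, hx]
  | hm a =>
    rw [sub_mon, dg_mon, dg_mon, map_smul, sub_mon, ev_apply, ev_apply, push_inl, Sum.elim_inl]

lemma dg_R0 (q : Fin l) {a : PP K (Fin l ⊕ H)} (ha : a ∈ R0 K l c) :
    dg (ev (Sum.inl q)) a ∈ R0 K l c := by
  refine R0_induction (P := fun a => dg (ev (Sum.inl q)) a ∈ R0 K l c) ha ?_ ?_ ?_ ?_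
  · rw [map_zero]; exact zero_mem _
  · intro x y hx hy; rw [map_add]; exact add_mem hx hy
  · intro s x hx; rw [map_smul]; exact Subalgebra.smul_mem _ hx _
  · intro r hr G
    rw [dg_leib, dg_heavy, zero_mul, zero_add, dg_light]
    exact mul_mem (LS_mem_R0 hr) (light_mem_R0 _)

lemma dg_eY {X Y : Type*} [Fintype X] [DecidableEq X] [Fintype Y] [DecidableEq Y] (i : X)
    (G : PP K (X ⊕ Y)) : dg (ev i) (eY G) = eY (dg (ev (Sum.inl i)) G) := by
  induction G using lau_induction with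
  | h0 => simp
  | ha x y hx hy => simp only [map_add, hx, hy]
  | hs t x hx => simp only [map_smul, hx]
  | hm a =>
    rw [eY_mon, map_smul, dg_mon, dg_mon, map_smul, eY_mon, smul_comm, ev_apply, ev_apply]

lemma dg_rr (q : Fin l) {F : PP K (Fin l ⊕ H)} (hF : F ∈ rr K (cc l c)) :
    dg (ev (Sum.inl q)) F ∈ rr K (cc l c) := by
  obtain ⟨G, rfl⟩ := hF
  rw [eL, dg_eY, dg_leib]
  have : dg (ev (Sum.inl (Sum.inl q))) (pc K (cc l c)) = 0 := by
    rw [pc]
    have h : ∀ s : Finset (Fin n), dg (ev (Sum.inl (Sum.inl q)))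
        (∏ k ∈ s, (w (Sum.inr ()) - w (Sum.inl (cc l c k)) : PP K ((Fin l ⊕ H) ⊕ Unit))) = 0 := by
      intro s
      induction s using Finset.induction_on with
      | empty => rw [Finset.prod_empty, ← mon_zero, dg_mon, map_zero, zero_smul]
      | insert k s hk ih =>
        rw [Finset.prod_insert hk, dg_leib, ih, map_sub, w, w, dg_wz, dg_wz]
        simp [cc]
    exact h _
  rw [this, zero_mul, zero_add]
  exact eL_mem_rr _ _

variable (c) in
/-- The polynomial vanishing at all points except `q`. -/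
noncomputable def tq (q : Fin l) : PP K ((Fin l ⊕ H) ⊕ Unit) :=
  pc K (cc l c) * ∏ i ∈ Finset.univ.erase q, (w (Sum.inr ()) - w (Sum.inl (Sum.inl i)))

variable (c) in
/-- Its value at `q`. -/
noncomputable def tv (q : Fin l) : PP K (Fin l ⊕ H) := evz (Sum.inl q) (tq c q)

lemma tv_eq (q : Fin l) : (tv c q : PP K (Fin l ⊕ H)) =
    (∏ k : Fin n, (w (Sum.inl q) - w (Sum.inr (c k)))) *
      ∏ i ∈ Finset.univ.erase q, (w (Sum.inl q) - w (Sum.inl i)) := by
  rw [tv, tq, map_mul, pc, map_prod, map_prod]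
  congr 1
  · refine Finset.prod_congr rfl fun k _ => ?_
    rw [map_sub, sub_w, sub_w]; rfl
  · refine Finset.prod_congr rfl fun k _ => ?_
    rw [map_sub, sub_w, sub_w]; rfl

lemma tv_mem_R0 (q : Fin l) : (tv c q : PP K (Fin l ⊕ H)) ∈ R0 K l c := by
  rw [tv_eq]
  exact mul_mem (eval_pbar_mem_R0 q) (prod_mem fun i _ => sub_mem (w_mem_R0 q) (w_mem_R0 i))

lemma tq_mem_RZ (q : Fin l) : (tq c q : PP K ((Fin l ⊕ H) ⊕ Unit)) ∈ RZ K l c := by
  rw [tq]
  refine mul_mem pc_mem_RZ (prod_mem fun i _ => sub_mem (wz_mem_RZ 1) ?_)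
  rw [← sub_w]; exact inl_mem_RZ (w_mem_R0 i)

lemma evz_mem_R0 (q : Fin l) {G : PP K ((Fin l ⊕ H) ⊕ Unit)} (hG : G ∈ RZ K l c) :
    evz (Sum.inl q) G ∈ R0 K l c := by
  refine RZ_induction (P := fun G => evz (Sum.inl q) G ∈ R0 K l c) hG ?_ ?_ ?_ ?_
  · rw [map_zero]; exact zero_mem _
  · intro x y hx hy; rw [map_add]; exact add_mem hx hy
  · intro s x hx; rw [map_smul]; exact Subalgebra.smul_mem _ hx _
  · intro a ha v
    rw [map_mul, sub_sub, Sum.elim_comp_inl, sub_id, sub_wz]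
    exact mul_mem ha (wz_mem_R0 q v)

lemma thz_inl (a : PP K (Fin l ⊕ H)) : thz (sub Sum.inl a : PP K ((Fin l ⊕ H) ⊕ Unit)) = 0 := by
  induction a using lau_induction with
  | h0 => simp
  | ha x y hx hy => rw [map_add, map_add, hx, hy, add_zero]
  | hs t x hx => rw [map_smul, map_smul, hx, smul_zero]
  | hm a => rw [sub_mon, thz, dg_mon, ev_apply, push_inl, Sum.elim_inr]; simp

lemma thz_mem_RZ {G : PP K ((Fin l ⊕ H) ⊕ Unit)} (hG : G ∈ RZ K l c) : thz G ∈ RZ K l c := by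
  refine RZ_induction (P := fun G => thz G ∈ RZ K l c) hG ?_ ?_ ?_ ?_
  · rw [map_zero]; exact zero_mem _
  · intro x y hx hy; rw [map_add]; exact add_mem hx hy
  · intro s x hx; rw [map_smul]; exact Subalgebra.smul_mem _ hx _
  · intro a ha v
    rw [thz, dg_leib, ← thz, thz_inl, zero_mul, zero_add, dg_wz, mul_smul_comm]
    exact Subalgebra.smul_mem _ (mul_mem (inl_mem_RZ ha) (wz_mem_RZ v)) _

variable (c) in
/-- The interpolating combination. -/
noncomputable def rt (q : Fin l) : PP K ((Fin l ⊕ H) ⊕ Unit) :=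
  tq c q ^ 2 * (sub Sum.inl (tv c q ^ 2) + sub Sum.inl (evz (Sum.inl q) (thz (tq c q ^ 2))) *
    (1 - wz (Sum.inr ()) 1 * sub Sum.inl (wz (Sum.inl q) (-1))))

lemma rt_mem_RZ (q : Fin l) : (rt c q : PP K ((Fin l ⊕ H) ⊕ Unit)) ∈ RZ K l c := by
  rw [rt]
  have h1 := pow_mem (tq_mem_RZ (K := K) (c := c) q) 2
  refine mul_mem h1 (add_mem (inl_mem_RZ (pow_mem (tv_mem_R0 q) _)) (mul_mem (inl_mem_RZ
    (evz_mem_R0 q (thz_mem_RZ h1))) (sub_mem (one_mem _) (mul_mem (wz_mem_RZ _)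
      (inl_mem_RZ (wz_mem_R0 q _))))))

lemma evz_inl (i : Fin l ⊕ H) (a : PP K (Fin l ⊕ H)) :
    evz i (sub Sum.inl a : PP K ((Fin l ⊕ H) ⊕ Unit)) = a := by
  rw [evz, sub_sub, Sum.elim_comp_inl, sub_id]

lemma evz_rt (q : Fin l) : evz (Sum.inl q) (rt c q) = (tv c q ^ 4 : PP K (Fin l ⊕ H)) := by
  rw [rt, map_mul, map_add, map_mul, map_sub, map_mul, map_one, evz_inl, evz_inl, evz_inl, map_pow,
    sub_wz]
  have h1 : (wz (Sum.inl q) 1 * wz (Sum.inl q) (-1) : PP K (Fin l ⊕ H)) = 1 := wz_mul_neg _ _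
  change tv c q ^ 2 * (tv c q ^ 2 + _ * (1 - wz (Sum.inl q) 1 * wz (Sum.inl q) (-1))) = _
  rw [h1]; ring

lemma thz_mul {X : Type*} [Fintype X] [DecidableEq X] (x y : PP K (X ⊕ Unit)) :
    thz (x * y) = thz x * y + x * thz y := dg_leib _ _ _

lemma evz_thz_rt (q : Fin l) : evz (Sum.inl q) (thz (rt c q)) = (0 : PP K (Fin l ⊕ H)) := by
  set E : PP K (Fin l ⊕ H) := evz (Sum.inl q) (thz (tq c q ^ 2)) with hE
  have h0 : thz (1 : PP K ((Fin l ⊕ H) ⊕ Unit)) = 0 := by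
    rw [← mon_zero, thz, dg_mon, map_zero, zero_smul]
  have h5 : thz (wz (Sum.inr ()) 1 : PP K ((Fin l ⊕ H) ⊕ Unit)) = wz (Sum.inr ()) 1 := by
    rw [thz, dg_wz, ev_apply, Pi.single_eq_same, Int.cast_one, one_smul]
  have hB : thz (sub Sum.inl (tv c q ^ 2) + sub Sum.inl E *
      (1 - wz (Sum.inr ()) 1 * sub Sum.inl (wz (Sum.inl q) (-1))) : PP K ((Fin l ⊕ H) ⊕ Unit))
      = -(sub Sum.inl E * (wz (Sum.inr ()) 1 * sub Sum.inl (wz (Sum.inl q) (-1)))) := by
    rw [map_add, thz_inl, zero_add, thz_mul, thz_inl, zero_mul, zero_add, map_sub, h0, thz_mul,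
      thz_inl, mul_zero, add_zero, h5]
    ring
  have h1 : (wz (Sum.inl q) 1 * wz (Sum.inl q) (-1) : PP K (Fin l ⊕ H)) = 1 := wz_mul_neg _ _
  have h6 : evz (Sum.inl q) (wz (Sum.inr ()) 1 : PP K ((Fin l ⊕ H) ⊕ Unit)) = wz (Sum.inl q) 1 := by
    rw [evz, sub_wz]; rfl
  have h2 : evz (Sum.inl q) (tq c q) = (tv c q : PP K (Fin l ⊕ H)) := rfl
  rw [rt, ← hE, thz_mul, hB]
  rw [map_add, map_mul, map_mul, map_add, map_mul, map_sub, map_one, map_mul, evz_inl, evz_inl, evz_inl,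
    map_neg, map_mul, map_mul, evz_inl, evz_inl, h6, ← hE, map_pow (evz (Sum.inl q)), h2, h1]
  ring

end theta

end WittACC
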