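import Pool.Agent.helper37.WittC.KL2

/-!
The saturated module and its stability.
-/

set_option linter.unusedSectionVars false
set_option linter.unusedVariables false

namespace WittACC

variable {K : Type*} [Field K] {l : ℕ} {H : Type*} [Fintype H] [DecidableEq H] {n : ℕ}
  {lam : Fin l ⊕ H → ℤ} {c : Fin n → H}

section K3

lemma LW_rt (μ : Fin l ⊕ H → ℤ) (q : Fin l) (F : PP K (Fin l ⊕ H)) :
    LW μ (rt c q) F = -(tv c q ^ 4 * dg (ev (Sum.inl q)) F) := by
  rw [LW, Finset.sum_eq_single q]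
  · rw [evz_thz_rt, evz_rt, zero_mul, smul_zero, zero_sub]
  · intro j _ hj
    have h1 : evz (Sum.inl j) (tq (K := K) c q) = (0 : PP K (Fin l ⊕ H)) := by
      rw [tq, map_mul, map_prod]
      rw [Finset.prod_eq_zero (Finset.mem_erase.2 ⟨hj, Finset.mem_univ j⟩), mul_zero]
      rw [map_sub, sub_w, sub_w]; simp
    have h2 : tq (K := K) c q ∣ rt c q := by
      rw [rt]; exact Dvd.dvd.mul_right (dvd_pow_self _ two_ne_zero) _
    have h3 : tq (K := K) c q ∣ thz (rt c q) := thz_sq_dvd _ _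
    have h4 : evz (Sum.inl j) (rt c q) = (0 : PP K (Fin l ⊕ H)) := by
      obtain ⟨y, hy⟩ := h2; rw [hy, map_mul, h1, zero_mul]
    have h5 : evz (Sum.inl j) (thz (rt c q)) = (0 : PP K (Fin l ⊕ H)) := by
      obtain ⟨y, hy⟩ := h3; rw [hy, map_mul, h1, zero_mul]
    rw [h4, h5, zero_mul, smul_zero, zero_mul, sub_zero]
  · intro h; exact absurd (Finset.mem_univ _) h

/-- The Euler operator on vectors. -/
noncomputable def thv (lam : Fin l ⊕ H → ℤ) (q : Fin l) (z : Gm lam → PP K (Fin l ⊕ H)) :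
    Gm lam → PP K (Fin l ⊕ H) := fun τ => dg (ev (Sum.inl q)) (z τ)

lemma thv_add (q : Fin l) (z z' : Gm lam → PP K (Fin l ⊕ H)) :
    thv lam q (z + z') = thv lam q z + thv lam q z' := by
  ext1 τ; simp [thv]

lemma thv_zero (q : Fin l) : thv lam q (0 : Gm lam → PP K (Fin l ⊕ H)) = 0 := by
  ext1 τ; simp [thv]

lemma thv_smul (q : Fin l) (a : R0 K l c) (z : Gm lam → PP K (Fin l ⊕ H)) :
    thv lam q (a • z) = (⟨_, dg_R0 q a.2⟩ : R0 K l c) • z + a • thv lam q z := by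
  ext1 τ
  exact dg_leib _ _ _

/-- Scalars in `R0`. -/
noncomputable def tvR {K : Type*} [Field K] (c : Fin n → H) (q : Fin l) : R0 K l c :=
  ⟨tv c q, tv_mem_R0 q⟩

lemma K3 (hc : Function.Surjective c) {A : Submodule (Sy K) (PP K (Fin l ⊕ H))}
    (hA : TSt (cc l c) (om K lam) A) (q : Fin l) {z : Gm lam → PP K (Fin l ⊕ H)} (hz : z ∈ Qs lam c A) :
    (tvR (K := K) c q) ^ 4 • thv lam q z ∈ Qs lam c A := by
  refine Submodule.span_induction ?_ ?_ ?_ ?_ hz
  · rintro z (⟨F, hF, rfl⟩ | hz)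
    · have h1 := WD_hat hA hF (rt_mem_RZ (K := K) (c := c) q)
      have h2 : (fun τ : Gm lam => WD (mu lam τ) (rt c q) (hat (Tht K lam F) τ)
          - LW (mu lam τ) (rt c q) (hat (Tht K lam F) τ)) ∈ Qs lam c A := by
        refine rr_mem_Qs fun τ => ?_
        refine WD_light hc _ ?_ _
        refine Dvd.dvd.mul_right ?_ _
        rw [tq, mul_pow]; exact dvd_mul_right _ _
      have h3 := sub_mem h2 h1
      convert h3 using 1
      ext1 τ
      rw [Pi.sub_apply, LW_rt]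
      change tv c q ^ 4 * dg (ev (Sum.inl q)) (hat (Tht K lam F) τ) = _
      ring
    · refine rr_mem_Qs fun τ => ?_
      exact Ideal.mul_mem_left _ _ (dg_rr q (hz τ))
  · rw [thv_zero, smul_zero]; exact zero_mem _
  · intro x y _ _ hx hy
    rw [thv_add, smul_add]; exact add_mem hx hy
  · intro a x hx0 hx
    rw [thv_smul, smul_add]
    refine add_mem (Submodule.smul_mem _ _ (Submodule.smul_mem _ _ hx0)) ?_
    have h1 : tvR (K := K) c q ^ 4 • (a • thv lam q x) = a • (tvR (K := K) c q ^ 4 • thv lam q x) := by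
      rw [smul_smul, smul_smul, mul_comm]
    rw [h1]
    exact (Qs lam c A).smul_mem a hx

end K3

section sat

lemma swap_smul (a b : R0 K l c) (z : Gm lam → PP K (Fin l ⊕ H)) : a • (b • z) = b • (a • z) := by
  rw [smul_smul, smul_smul, mul_comm]

/-- The denominator as an element of `R0`. -/
noncomputable def hpR (K : Type*) [Field K] (lam : Fin l ⊕ H → ℤ) (c : Fin n → H) : R0 K l c :=
  ⟨hp K lam c, hp_mem_R0⟩

lemma hp_factor (q : Fin l) : ∃ u : R0 K l c, hpR K lam c = u * tvR c q ^ 4 := by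
  have hPX : ∃ u ∈ R0 K l c, (PX K c : PP K (Fin l ⊕ H)) = (∏ k : Fin n, (w (Sum.inl q) - w (Sum.inr (c k)))) * u := by
    refine ⟨∏ j ∈ Finset.univ.erase q, ∏ k : Fin n, (w (Sum.inl j) - w (Sum.inr (c k))),
      prod_mem fun j _ => eval_pbar_mem_R0 j, ?_⟩
    rw [Finset.mul_prod_erase _ (fun j => ∏ k : Fin n, (w (Sum.inl j) - w (Sum.inr (c k)) :
      PP K (Fin l ⊕ H))) (Finset.mem_univ q)]
    rfl
  have hdisc : ∃ u ∈ R0 K l c, (sub Sum.inl (disc (Sy K) (Fin l)) : PP K (Fin l ⊕ H)) =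
      (∏ i ∈ Finset.univ.erase q, (w (Sum.inl q) - w (Sum.inl i))) * u := by
    refine ⟨sub Sum.inl (∏ j ∈ Finset.univ.erase q, ∏ i : Fin l, if j = i then (1 : PP K (Fin l)) else w j - w i),
      light_mem_R0 _, ?_⟩
    rw [disc, ← Finset.mul_prod_erase _ (fun j => ∏ i : Fin l, if j = i then (1 : PP K (Fin l)) else w j - w i)
      (Finset.mem_univ q), map_mul]
    congr 1
    rw [← Finset.mul_prod_erase _ _ (Finset.mem_univ q), if_pos rfl, one_mul, map_prod]
    refine Finset.prod_congr rfl fun i hi => ?_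
    rw [if_neg (Finset.mem_erase.1 hi).1.symm, map_sub, sub_w, sub_w]
  obtain ⟨u, hu, hu'⟩ := hPX
  obtain ⟨v, hv, hv'⟩ := hdisc
  have hU : UU K lam ∈ R0 K l c := by
    rw [UU_eq]; exact Subalgebra.smul_mem _ (light_mem_R0 _) _
  have hd : (sub Sum.inl (disc (Sy K) (Fin l)) : PP K (Fin l ⊕ H)) ∈ R0 K l c := light_mem_R0 _
  refine ⟨⟨algebraMap (Sy K) (PP K (Fin l ⊕ H)) (hh K n ^ (1 + (l + l))) * (UU K lam * (u ^ 4 *
    (v ^ 4 * sub Sum.inl (disc (Sy K) (Fin l)) ^ (4 * (l + l))))), ?_⟩, ?_⟩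
  · exact mul_mem (Subalgebra.algebraMap_mem _ _) (mul_mem hU (mul_mem (pow_mem hu _)
      (mul_mem (pow_mem hv _) (pow_mem hd _))))
  · apply Subtype.ext
    change hp K lam c = _ * tv c q ^ 4
    rw [hp, DDn, tv_eq, hu']
    have e : (sub Sum.inl (disc (Sy K) (Fin l)) : PP K (Fin l ⊕ H)) ^ (4 * (l + l + 1))
        = sub Sum.inl (disc (Sy K) (Fin l)) ^ 4 * sub Sum.inl (disc (Sy K) (Fin l)) ^ (4 * (l + l)) := by
      rw [← pow_add]; congr 1; ring
    rw [e]
    nth_rewrite 1 [hv']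
    ring

variable (lam c) in
/-- The saturation. -/
noncomputable def Sat (A : Submodule (Sy K) (PP K (Fin l ⊕ H))) :
    Submodule (R0 K l c) (Gm lam → PP K (Fin l ⊕ H)) where
  carrier := {z | ∃ k : ℕ, hpR K lam c ^ k • z ∈ Qs lam c A}
  add_mem' := by
    rintro z z' ⟨k, hk⟩ ⟨k', hk'⟩
    refine ⟨k + k', ?_⟩
    rw [smul_add]
    refine add_mem ?_ ?_
    · rw [add_comm k, pow_add, mul_smul]; exact (Qs lam c A).smul_mem _ hk
    · rw [pow_add, mul_smul]; exact (Qs lam c A).smul_mem _ hk'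
  zero_mem' := ⟨0, by rw [smul_zero]; exact zero_mem _⟩
  smul_mem' := by
    rintro a z ⟨k, hk⟩
    refine ⟨k, ?_⟩
    have h1 := swap_smul (hpR K lam c ^ k) a z
    rw [h1]
    exact (Qs lam c A).smul_mem a hk

lemma Qs_le_Sat (A : Submodule (Sy K) (PP K (Fin l ⊕ H))) : Qs lam c A ≤ Sat lam c A := fun z hz =>
  ⟨0, by rw [pow_zero, one_smul]; exact hz⟩

lemma Sat_of_hp {A : Submodule (Sy K) (PP K (Fin l ⊕ H))} {z : Gm lam → PP K (Fin l ⊕ H)} {k : ℕ}
    (h : hpR K lam c ^ k • z ∈ Sat lam c A) : z ∈ Sat lam c A := by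
  obtain ⟨m, hm⟩ := h
  exact ⟨m + k, by rw [pow_add, mul_smul]; exact hm⟩

lemma thv_hp_pow (q : Fin l) (k : ℕ) (z : Gm lam → PP K (Fin l ⊕ H)) :
    ∃ b : R0 K l c, hpR K lam c • thv lam q (hpR K lam c ^ k • z)
      = b • (hpR K lam c ^ k • z) + hpR K lam c ^ (k + 1) • thv lam q z := by
  induction k with
  | zero =>
    refine ⟨0, ?_⟩
    rw [pow_zero, one_smul, zero_smul, zero_add, zero_add, pow_one]
  | succ k ih =>
    obtain ⟨b, hb⟩ := ih
    refine ⟨⟨_, dg_R0 q (hpR K lam c).2⟩ + b, ?_⟩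
    rw [pow_succ', mul_smul, thv_smul, smul_add, smul_smul (hpR K lam c) (⟨_, dg_R0 q (hpR K lam c).2⟩ : R0 K l c),
      mul_comm (hpR K lam c) (⟨_, dg_R0 q (hpR K lam c).2⟩ : R0 K l c), mul_smul,
      hb]
    rw [add_smul, smul_add, smul_smul (hpR K lam c) b, mul_comm (hpR K lam c) b, mul_smul, add_assoc,
      smul_smul (hpR K lam c) (hpR K lam c ^ (k + 1)), ← pow_succ']

/-- The saturation is stable under the Euler operators. -/
lemma Sat_thv (hc : Function.Surjective c) {A : Submodule (Sy K) (PP K (Fin l ⊕ H))}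
    (hA : TSt (cc l c) (om K lam) A) (q : Fin l) {z : Gm lam → PP K (Fin l ⊕ H)} (hz : z ∈ Sat lam c A) :
    thv lam q z ∈ Sat lam c A := by
  obtain ⟨k, hk⟩ := hz
  obtain ⟨u, hu⟩ := hp_factor (K := K) (lam := lam) (c := c) q
  have h1 := Submodule.smul_mem _ u (K3 hc hA q hk)
  rw [smul_smul, ← hu] at h1
  obtain ⟨b, hb⟩ := thv_hp_pow (K := K) (lam := lam) (c := c) q k z
  rw [hb] at h1
  exact ⟨k + 1, (Submodule.add_mem_iff_right _ (Submodule.smul_mem _ _ hk)).1 h1⟩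

end sat

end WittACC
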