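import Pool.Agent.helper37.WittC.KL3

/-!
Components with respect to one light variable and the one-variable lemma.
-/

set_option linter.unusedSectionVars false
set_option linter.unusedVariables false

namespace WittACC

lemma dg_coeff' {R : Type*} [CommRing R] {X : Type*} (f : (X → ℤ) → R) (x : Lau R X) (c : X → ℤ) :
    (dg f x).coeff c = f c * x.coeff c := by
  induction x using lau_induction with
  | h0 => simp
  | hs k x hx =>
    rw [map_smul, AddMonoidAlgebra.coeff_smul_apply, AddMonoidAlgebra.coeff_smul_apply, hx]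
    simp [mul_left_comm]
  | ha x y hx hy =>
    rw [map_add, AddMonoidAlgebra.coeff_add, AddMonoidAlgebra.coeff_add, Finsupp.add_apply,
      Finsupp.add_apply, hx, hy, mul_add]
  | hm a =>
    rw [dg_mon, AddMonoidAlgebra.coeff_smul_apply, mon, AddMonoidAlgebra.coeff_single]
    by_cases h : a = c
    · subst h; simp
    · simp [h]

lemma dg_congr {R : Type*} [CommRing R] {X : Type*} {f g : (X → ℤ) → R} {x : Lau R X}
    (h : ∀ a, x.coeff a ≠ 0 → f a = g a) : dg f x = dg g x := by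
  apply AddMonoidAlgebra.ext
  ext a : 1
  rw [dg_coeff', dg_coeff']
  by_cases h0 : x.coeff a = 0
  · rw [h0, mul_zero, mul_zero]
  · rw [h a h0]

variable {K : Type*} [Field K] {l : ℕ} {H : Type*} [Fintype H] [DecidableEq H] {n : ℕ}
  {lam : Fin l ⊕ H → ℤ} {c : Fin n → H}

section comp

/-- The component of degree `m` in the light variable `q`. -/
noncomputable def cm (q : Fin l) (m : ℤ) : PP K (Fin l ⊕ H) →ₗ[Sy K] PP K (Fin l ⊕ H) :=
  dg fun a => if a (Sum.inl q) = m then 1 else 0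

/-- Componentwise version. -/
noncomputable def cv (q : Fin l) (m : ℤ) (z : Gm lam → PP K (Fin l ⊕ H)) : Gm lam → PP K (Fin l ⊕ H) :=
  fun τ => cm q m (z τ)

/-- The exponents occurring. -/
noncomputable def expo (q : Fin l) (z : Gm lam → PP K (Fin l ⊕ H)) : Finset ℤ :=
  Finset.univ.biUnion fun τ => (z τ).coeff.support.image fun a => a (Sum.inl q)

lemma mem_expo {q : Fin l} {z : Gm lam → PP K (Fin l ⊕ H)} {τ : Gm lam} {a : Fin l ⊕ H → ℤ}
    (h : (z τ).coeff a ≠ 0) : a (Sum.inl q) ∈ expo q z := by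
  rw [expo, Finset.mem_biUnion]
  exact ⟨τ, Finset.mem_univ _, Finset.mem_image.2 ⟨a, Finsupp.mem_support_iff.2 h, rfl⟩⟩

lemma cv_eq_zero {q : Fin l} {z : Gm lam → PP K (Fin l ⊕ H)} {m : ℤ} (h : m ∉ expo q z) :
    cv q m z = 0 := by
  ext1 τ
  rw [cv, cm, dg_congr (g := 0) (fun a ha => ?_)]
  · have : dg (0 : (Fin l ⊕ H → ℤ) → Sy K) = 0 := lau_ext fun a => by simp
    rw [this]; rfl
  · rw [if_neg]; · rfl
    rintro rfl
    exact h (mem_expo ha)

lemma sum_cv (q : Fin l) (z : Gm lam → PP K (Fin l ⊕ H)) : ∑ m ∈ expo q z, cv q m z = z := by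
  ext1 τ
  rw [Finset.sum_apply]
  have h1 : ∀ S : Finset ℤ, ∑ m ∈ S, cv q m z τ = dg (fun a => ∑ m ∈ S, if a (Sum.inl q) = m then 1 else 0) (z τ) := by
    intro S
    induction S using Finset.induction_on with
    | empty =>
      have : (fun a : Fin l ⊕ H → ℤ => ∑ m ∈ (∅ : Finset ℤ), (if a (Sum.inl q) = m then (1 : Sy K) else 0)) = 0 := by
        ext; simp
      rw [this]
      have : dg (0 : (Fin l ⊕ H → ℤ) → Sy K) = 0 := lau_ext fun a => by simp
      rw [this]; simp
    | insert m S hm ih =>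
      rw [Finset.sum_insert hm, ih, cv, cm]
      apply AddMonoidAlgebra.ext
      ext a : 1
      rw [AddMonoidAlgebra.coeff_add, Finsupp.add_apply, dg_coeff', dg_coeff', dg_coeff',
        Finset.sum_insert hm, add_mul]
  rw [h1, dg_congr (g := 1) (fun a ha => ?_)]
  · rw [dg_one]; rfl
  · rw [Finset.sum_ite_eq, if_pos (mem_expo ha)]; rfl

/-- Stability under products of diagonal operators. -/
lemma dgv_prod_mem {T : Submodule (R0 K l c) (Gm lam → PP K (Fin l ⊕ H))}
    (g : ℤ → (Fin l ⊕ H → ℤ) → Sy K) (S : Finset ℤ)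
    (h : ∀ i ∈ S, ∀ z ∈ T, (fun τ => dg (g i) (z τ)) ∈ T) : ∀ z ∈ T,
    (fun τ => dg (fun a => ∏ i ∈ S, g i a) (z τ)) ∈ T := by
  induction S using Finset.induction_on with
  | empty =>
    intro z hz
    have : (fun τ => dg (fun a => ∏ i ∈ (∅ : Finset ℤ), g i a) (z τ)) = z := by
      ext1 τ; rw [dg_prod_empty]
    rw [this]; exact hz
  | insert i S hi ih =>
    intro z hz
    have : (fun τ => dg (fun a => ∏ i ∈ insert i S, g i a) (z τ)) =
        fun τ => dg (g i) ((fun τ => dg (fun a => ∏ i ∈ S, g i a) (z τ)) τ) := by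
      ext1 τ; rw [dg_prod_insert g hi]
    rw [this]
    exact h i (Finset.mem_insert_self _ _) _ (ih (fun j hj => h j (Finset.mem_insert_of_mem hj)) z hz)

lemma R0_smul_apply (a : R0 K l c) (z : Gm lam → PP K (Fin l ⊕ H)) (τ : Gm lam) :
    (a • z) τ = (a : PP K (Fin l ⊕ H)) * z τ := rfl

lemma S_smul_mem (T : Submodule (R0 K l c) (Gm lam → PP K (Fin l ⊕ H))) (s : Sy K)
    {z : Gm lam → PP K (Fin l ⊕ H)} (hz : z ∈ T) : (fun τ => s • z τ) ∈ T := by
  have h := T.smul_mem (⟨algebraMap (Sy K) _ s, Subalgebra.algebraMap_mem _ _⟩ : R0 K l c) hz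
  convert h using 1
  ext1 τ
  rw [R0_smul_apply, Algebra.smul_def]

lemma cv_mem [CharZero K] {T : Submodule (R0 K l c) (Gm lam → PP K (Fin l ⊕ H))} {q : Fin l}
    (hT : ∀ z ∈ T, thv lam q z ∈ T) (m : ℤ) {z : Gm lam → PP K (Fin l ⊕ H)} (hz : z ∈ T) :
    cv q m z ∈ T := by
  set g : ℤ → (Fin l ⊕ H → ℤ) → Sy K := fun m' a =>
    (MvPolynomial.C (((m : K) - (m' : K))⁻¹) : Sy K) * (((a (Sum.inl q) : ℤ) : Sy K) - (m' : Sy K)) with hg
  have h1 := dgv_prod_mem (T := T) g ((expo q z).erase m) (fun m' hm' y hy => by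
    have h2 := S_smul_mem T (MvPolynomial.C (((m : K) - m')⁻¹)) (sub_mem (hT y hy)
      (S_smul_mem T (m' : Sy K) hy))
    convert h2 using 1
    ext1 τ
    rw [Pi.sub_apply, thv]
    apply AddMonoidAlgebra.ext
    ext a : 1
    rw [dg_coeff', AddMonoidAlgebra.coeff_smul_apply, AddMonoidAlgebra.coeff_sub, Finsupp.sub_apply,
      dg_coeff', AddMonoidAlgebra.coeff_smul_apply, hg, ev_apply, smul_eq_mul, smul_eq_mul]
    ring) z hz
  convert h1 using 1
  ext1 τ
  rw [cv, cm]
  refine dg_congr fun a ha => ?_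
  by_cases h : a (Sum.inl q) = m
  · rw [if_pos h]
    symm
    refine Finset.prod_eq_one fun m' hm' => ?_
    have hne : (m : K) - m' ≠ 0 := by
      rw [sub_ne_zero]; exact_mod_cast (Finset.mem_erase.1 hm').1.symm
    rw [hg]
    simp only
    rw [h]
    have : ((m : ℤ) : Sy K) - (m' : Sy K) = MvPolynomial.C ((m : K) - m') := by
      rw [map_sub, map_intCast, map_intCast]
    rw [this, ← map_mul, inv_mul_cancel₀ hne, map_one]
  · rw [if_neg h]
    symm
    refine Finset.prod_eq_zero (i := a (Sum.inl q)) (Finset.mem_erase.2 ⟨h, mem_expo ha⟩) ?_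
    rw [hg]; simp

end comp

section poly

variable (c) in
/-- The polynomial vanishing at all points but `q`, as a polynomial. -/
noncomputable def pq' {K : Type*} [Field K] (q : Fin l) : Polynomial (PP K (Fin l ⊕ H)) :=
  (pbar K (cc l c)).map (up : Lau K (Fin l ⊕ H) →ₐ[K] PP K (Fin l ⊕ H)).toRingHom *
    ∏ i ∈ Finset.univ.erase q, (Polynomial.X - Polynomial.C (w (Sum.inl i)))

lemma pq'_monic (q : Fin l) : (pq' (K := K) c q).Monic :=
  ((pbar_monic _).map _).mul (Polynomial.monic_prod_of_monic _ _ fun i _ => Polynomial.monic_X_sub_C _)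

lemma pq'_natDegree (q : Fin l) : (pq' (K := K) c q).natDegree = n + (l - 1) := by
  rw [pq', Polynomial.Monic.natDegree_mul ((pbar_monic _).map _)
    (Polynomial.monic_prod_of_monic _ _ fun i _ => Polynomial.monic_X_sub_C _),
    (pbar_monic _).natDegree_map, pbar_natDegree,
    Polynomial.natDegree_prod_of_monic _ _ fun i _ => Polynomial.monic_X_sub_C _]
  simp

lemma pq'_eval (q : Fin l) : (pq' c q).eval (w (Sum.inl q)) = (tv c q : PP K (Fin l ⊕ H)) := by
  rw [pq', Polynomial.eval_mul, Polynomial.eval_prod, tv_eq]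
  congr 1
  · rw [pbar, Polynomial.map_prod, Polynomial.eval_prod]
    refine Finset.prod_congr rfl fun k _ => ?_
    rw [Polynomial.map_sub, Polynomial.map_X, Polynomial.map_C, Polynomial.eval_sub, Polynomial.eval_X,
      Polynomial.eval_C]
    congr 1
    exact up_w _
  · refine Finset.prod_congr rfl fun i _ => ?_
    rw [Polynomial.eval_sub, Polynomial.eval_X, Polynomial.eval_C]

lemma coeff_prod_mem {R : Type*} [CommRing R] (S : Subring R) {ι : Type*} (s : Finset ι) (f : ι → R)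
    (h : ∀ i ∈ s, f i ∈ S) (κ : ℕ) : (∏ i ∈ s, (Polynomial.X - Polynomial.C (f i))).coeff κ ∈ S := by
  classical
  induction s using Finset.induction_on generalizing κ with
  | empty =>
    rw [Finset.prod_empty, Polynomial.coeff_one]
    split_ifs
    · exact one_mem _
    · exact zero_mem _
  | insert i s hi ih =>
    rw [Finset.prod_insert hi, Polynomial.coeff_mul]
    refine sum_mem fun x _ => mul_mem ?_ (ih (fun j hj => h j (Finset.mem_insert_of_mem hj)) _)
    rw [Polynomial.coeff_sub, Polynomial.coeff_X, Polynomial.coeff_C]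
    refine sub_mem ?_ ?_
    · split_ifs
      · exact one_mem _
      · exact zero_mem _
    · split_ifs
      · exact h i (Finset.mem_insert_self _ _)
      · exact zero_mem _

/-- Elements commuting with the components. -/
noncomputable def Fq (K : Type*) [Field K] (H : Type*) [Fintype H] [DecidableEq H] (q : Fin l) :
    Subring (PP K (Fin l ⊕ H)) where
  carrier := {a | ∀ m Y, cm q m (a * Y) = a * cm q m Y}
  mul_mem' := fun {a b} ha hb m Y => by rw [mul_assoc, ha, hb, mul_assoc]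
  one_mem' := fun m Y => by rw [one_mul, one_mul]
  add_mem' := fun {a b} ha hb m Y => by rw [add_mul, map_add, ha, hb, add_mul]
  zero_mem' := fun m Y => by rw [zero_mul, map_zero, zero_mul]
  neg_mem' := fun {a} ha m Y => by rw [neg_mul, map_neg, ha, neg_mul]

lemma cm_mon_mul (q : Fin l) (e : Fin l ⊕ H → ℤ) (m : ℤ) (Y : PP K (Fin l ⊕ H)) :
    cm q m (mon e * Y) = mon e * cm q (m - e (Sum.inl q)) Y := by
  induction Y using lau_induction with
  | h0 => simp
  | ha x y hx hy => rw [mul_add, map_add, hx, hy, map_add, mul_add]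
  | hs t x hx => rw [mul_smul_comm, map_smul, hx, map_smul, mul_smul_comm]
  | hm f =>
    rw [mon_mul, cm, dg_mon, cm, dg_mon, mul_smul_comm, mon_mul, Pi.add_apply]
    congr 1
    by_cases h : f (Sum.inl q) = m - e (Sum.inl q)
    · rw [if_pos (by rw [h]; ring), if_pos h]
    · rw [if_neg (fun h' => h (by rw [← h']; ring)), if_neg h]

lemma mon_mem_Fq (q : Fin l) {e : Fin l ⊕ H → ℤ} (he : e (Sum.inl q) = 0) :
    (mon e : PP K (Fin l ⊕ H)) ∈ Fq K H q := fun m Y => by
  rw [cm_mon_mul, he, sub_zero]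

lemma heavy_mem_Fq (q : Fin l) (r : Lau K (Fin n)) :
    (up (sub (cc l c) r) : PP K (Fin l ⊕ H)) ∈ Fq K H q := by
  induction r using lau_induction with
  | h0 => rw [map_zero, map_zero]; exact zero_mem _
  | ha x y hx hy => rw [map_add, map_add]; exact add_mem hx hy
  | hs t x hx =>
    rw [map_smul, map_smul, smul_eq_C_smul]
    intro m Y
    rw [smul_mul_assoc, map_smul, hx m Y, smul_mul_assoc]
  | hm a =>
    rw [sub_mon, up_mon]
    exact mon_mem_Fq q (by rw [push_apply]; simp [cc])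

lemma pq'_coeff_mem (q : Fin l) (κ : ℕ) :
    (pq' (K := K) c q).coeff κ ∈ (R0 K l c).toSubring ⊓ Fq K H q := by
  rw [pq', Polynomial.coeff_mul]
  refine sum_mem fun x _ => mul_mem ?_ (coeff_prod_mem _ _ _ (fun i hi => ?_) _)
  · rw [Polynomial.coeff_map]
    change up ((pbar K (cc l c)).coeff x.1) ∈ _
    rw [pbar_cc_coeff]
    exact ⟨LS_mem_R0 (coeff_mem_LS n _), heavy_mem_Fq q _⟩
  · refine ⟨w_mem_R0 i, mon_mem_Fq q ?_⟩
    have : i ≠ q := (Finset.mem_erase.1 hi).1
    simp [this.symm]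

lemma pq'_coeff_zero (q : Fin l) : ∃ s ∈ R0 K l c, s * (pq' (K := K) c q).coeff 0 = 1 := by
  refine ⟨up (sub (cc l c) (qinv K n)) * ∏ i ∈ Finset.univ.erase q, (-wz (Sum.inl i) (-1)),
    mul_mem (LS_mem_R0 (inv_mem_LS n _ qinv_mul)) (prod_mem fun i _ => neg_mem (wz_mem_R0 i _)), ?_⟩
  rw [pq', Polynomial.mul_coeff_zero, Polynomial.coeff_map, Polynomial.coeff_zero_prod]
  have h1 : (up (sub (cc l c) (qinv K n)) : PP K (Fin l ⊕ H)) *
      (up : Lau K (Fin l ⊕ H) →ₐ[K] PP K (Fin l ⊕ H)).toRingHom ((pbar K (cc l c)).coeff 0) = 1 := by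
    change up (sub (cc l c) (qinv K n)) * up ((pbar K (cc l c)).coeff 0) = _
    rw [pbar_cc_coeff, ← map_mul, ← map_mul, qinv_mul, map_one, map_one]
  have h2 : (∏ i ∈ Finset.univ.erase q, (-wz (Sum.inl i) (-1)) : PP K (Fin l ⊕ H)) *
      ∏ i ∈ Finset.univ.erase q, (Polynomial.X - Polynomial.C (w (Sum.inl i)) :
        Polynomial (PP K (Fin l ⊕ H))).coeff 0 = 1 := by
    rw [← Finset.prod_mul_distrib]
    refine Finset.prod_eq_one fun i _ => ?_
    rw [Polynomial.coeff_sub, Polynomial.coeff_X_zero, Polynomial.coeff_C_zero, zero_sub, neg_mul_neg,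
      w, ← wz_add]
    simp [wz_zero]
  calc _ = (up (sub (cc l c) (qinv K n)) *
      (up : Lau K (Fin l ⊕ H) →ₐ[K] PP K (Fin l ⊕ H)).toRingHom ((pbar K (cc l c)).coeff 0)) *
      ((∏ i ∈ Finset.univ.erase q, (-wz (Sum.inl i) (-1)) : PP K (Fin l ⊕ H)) *
      ∏ i ∈ Finset.univ.erase q, (Polynomial.X - Polynomial.C (w (Sum.inl i)) :
        Polynomial (PP K (Fin l ⊕ H))).coeff 0) := by ring
    _ = 1 := by rw [h1, h2, one_mul]

end poly

end WittACC
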