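import Pool.Agent.helper37.WittC.KL4

/-!
The one-variable lemma and the conclusion.
-/

set_option linter.unusedSectionVars false
set_option linter.unusedVariables false

namespace WittACC

variable {K : Type*} [Field K] {l : ℕ} {H : Type*} [Fintype H] [DecidableEq H] {n : ℕ}
  {lam : Fin l ⊕ H → ℤ} {c : Fin n → H}

section onevar

lemma cm_tv (q : Fin l) (m : ℤ) (Y : PP K (Fin l ⊕ H)) : cm q m (tv c q * Y) =
    ∑ i ∈ Finset.range (n + (l - 1) + 1), (pq' c q).coeff i * (wz (Sum.inl q) i * cm q (m - i) Y) := by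
  rw [← pq'_eval, Polynomial.eval_eq_sum_range, pq'_natDegree, Finset.sum_mul, map_sum]
  refine Finset.sum_congr rfl fun i _ => ?_
  have h1 := (pq'_coeff_mem (K := K) (c := c) q i).2
  rw [mul_assoc, h1 m, w, ← wz_natCast, wz, cm_mon_mul, Pi.single_eq_same]

lemma cv_tv (q : Fin l) (m : ℤ) (G : Gm lam → PP K (Fin l ⊕ H)) : cv q m (tvR (K := K) c q • G) =
    ∑ i ∈ Finset.range (n + (l - 1) + 1),
      (⟨(pq' c q).coeff i, (pq'_coeff_mem q i).1⟩ : R0 K l c) •
        ((⟨wz (Sum.inl q) i, wz_mem_R0 q i⟩ : R0 K l c) • cv q (m - i) G) := by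
  ext1 τ
  rw [Finset.sum_apply]
  exact cm_tv q m (G τ)

lemma unit_smul_mem {T : Submodule (R0 K l c) (Gm lam → PP K (Fin l ⊕ H))} {a s : R0 K l c}
    (h : s * a = 1) {z : Gm lam → PP K (Fin l ⊕ H)} (hz : a • z ∈ T) : z ∈ T := by
  have h1 := T.smul_mem s hz
  rwa [smul_smul, h, one_smul] at h1

/-- The key argument. -/
lemma cv_G_mem (h2 : 2 ≤ n + l) {T : Submodule (R0 K l c) (Gm lam → PP K (Fin l ⊕ H))} {q : Fin l}
    {G : Gm lam → PP K (Fin l ⊕ H)} (hG : ∀ m : ℤ, m ≠ 0 → cv q m (tvR (K := K) c q • G) ∈ T) (m : ℤ) :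
    cv q m G ∈ T := by
  classical
  have hl : 1 ≤ l := q.pos
  by_contra hm
  set d : ℕ := n + (l - 1) with hd
  have hd1 : 1 ≤ d := by omega
  set B := (expo q G).filter fun m => cv q m G ∉ T with hB
  have hBmem : ∀ m, cv q m G ∉ T → m ∈ B := by
    intro m hm
    rw [hB, Finset.mem_filter]
    refine ⟨?_, hm⟩
    by_contra h
    rw [cv_eq_zero h] at hm
    exact hm (zero_mem _)
  have hne : B.Nonempty := ⟨m, hBmem m hm⟩
  have hmax := Finset.max'_mem B hne
  have hmin := Finset.min'_mem B hne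
  set M := B.max' hne with hM
  set N := B.min' hne with hN
  have hgt : ∀ m, M < m → cv q m G ∈ T := by
    intro m hm
    by_contra h
    exact absurd (B.le_max' m (hBmem m h)) (not_le.2 hm)
  have hlt : ∀ m, m < N → cv q m G ∈ T := by
    intro m hm
    by_contra h
    exact absurd (B.min'_le m (hBmem m h)) (not_le.2 hm)
  have hNM : N ≤ M := B.min'_le _ hmax
  have h1 : M + d = 0 := by
    by_contra hne0
    have h3 := hG _ hne0
    rw [cv_tv, Finset.sum_range_succ] at h3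
    have h4 := (Submodule.add_mem_iff_right T (sum_mem fun i hi => ?_)).1 h3
    · have h5 : (⟨(pq' c q).coeff (n + (l - 1)), (pq'_coeff_mem q _).1⟩ : R0 K l c) = 1 := by
        apply Subtype.ext
        change (pq' c q).coeff (n + (l - 1)) = 1
        rw [← pq'_natDegree (K := K) (c := c) q]
        exact pq'_monic q
      rw [h5, one_smul] at h4
      have h6 : M + (d : ℤ) - ((n + (l - 1) : ℕ) : ℤ) = M := by rw [hd]; ring
      rw [h6] at h4
      have h7 := unit_smul_mem (s := (⟨wz (Sum.inl q) (-((n + (l - 1) : ℕ) : ℤ)), wz_mem_R0 q _⟩ : R0 K l c))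
        (by
          apply Subtype.ext
          change wz (Sum.inl q) (-((n + (l - 1) : ℕ) : ℤ)) * wz (Sum.inl q) ((n + (l - 1) : ℕ) : ℤ) = 1
          rw [← wz_add]; simp [wz_zero]) h4
      exact (Finset.mem_filter.1 hmax).2 h7
    · refine T.smul_mem _ (T.smul_mem _ (hgt _ ?_))
      have := Finset.mem_range.1 hi
      rw [← hd] at this
      have : (i : ℤ) < d := by exact_mod_cast this
      linarith
  have h1' : N = 0 := by
    by_contra hne0
    have h3 := hG _ hne0
    rw [cv_tv, Finset.sum_range_succ'] at h3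
    have h4 := (Submodule.add_mem_iff_right T (sum_mem fun i hi => ?_)).1 h3
    · obtain ⟨s, hs, hs'⟩ := pq'_coeff_zero (K := K) (l := l) (c := c) q
      have h8 : (⟨s, hs⟩ : R0 K l c) * (⟨(pq' c q).coeff 0, (pq'_coeff_mem q 0).1⟩ : R0 K l c) = 1 := by
        apply Subtype.ext
        exact hs'
      have h5 := unit_smul_mem h8 h4
      have h6 : N - ((0 : ℕ) : ℤ) = N := by simp
      rw [h6] at h5
      have h7 : (⟨wz (Sum.inl q) ((0 : ℕ) : ℤ), wz_mem_R0 q _⟩ : R0 K l c) = 1 := by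
        apply Subtype.ext
        change wz (Sum.inl q) ((0 : ℕ) : ℤ) = 1
        rw [Nat.cast_zero, wz_zero]
      rw [h7, one_smul] at h5
      exact (Finset.mem_filter.1 hmin).2 h5
    · refine T.smul_mem _ (T.smul_mem _ (hlt _ ?_))
      push_cast
      have : (0 : ℤ) ≤ i := Int.natCast_nonneg i
      linarith
  have : (1 : ℤ) ≤ d := by exact_mod_cast hd1
  omega

lemma onevar [CharZero K] (h2 : 2 ≤ n + l) {T : Submodule (R0 K l c) (Gm lam → PP K (Fin l ⊕ H))} {q : Fin l}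
    (hT : ∀ z ∈ T, thv lam q z ∈ T) {F G : Gm lam → PP K (Fin l ⊕ H)} (hFG : F = tvR (K := K) c q • G)
    (hF : thv lam q F ∈ T) : F ∈ T := by
  have h3 : ∀ m : ℤ, m ≠ 0 → cv q m F ∈ T := by
    intro m hm
    have h4 := cv_mem hT m hF
    have h5 := S_smul_mem T (MvPolynomial.C ((m : K)⁻¹)) h4
    convert h5 using 1
    ext1 τ
    rw [cv, cv, thv, cm]
    apply AddMonoidAlgebra.ext
    ext a : 1
    rw [AddMonoidAlgebra.coeff_smul_apply, dg_coeff', dg_coeff', dg_coeff', ev_apply, smul_eq_mul]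
    by_cases h : a (Sum.inl q) = m
    · rw [if_pos h, h, one_mul, one_mul, ← mul_assoc]
      have : (MvPolynomial.C ((m : K)⁻¹) : Sy K) * ((m : ℤ) : Sy K) = 1 := by
        rw [← map_intCast (MvPolynomial.C : K →+* Sy K) m, ← map_mul,
          inv_mul_cancel₀ (by exact_mod_cast hm), map_one]
      rw [this, one_mul]
    · rw [if_neg h]; ring
  have h4 : G ∈ T := by
    rw [← sum_cv q G]
    refine sum_mem fun m _ => cv_G_mem h2 (fun m hm => ?_) m
    rw [← hFG]; exact h3 m hm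
  rw [hFG]
  exact T.smul_mem _ h4

end onevar

section final

/-- Iterated removal of Euler operators. -/
lemma remove_Tht [CharZero K] (hc : Function.Surjective c) {A : Submodule (Sy K) (PP K (Fin l ⊕ H))}
    (hA : TSt (cc l c) (om K lam) A) (Q : Finset (Fin l)) (h2 : Q = ∅ ∨ 2 ≤ n + l)
    (e : ℕ) (he : Q.card < e) (z : Gm lam → PP K (Fin l ⊕ H))
    (hz : (fun τ => dg (fun f => ∏ j ∈ Q, ev (Sum.inl j) f) ((hpR K lam c ^ e • z) τ)) ∈ Sat lam c A) :
    hpR K lam c ^ e • z ∈ Sat lam c A := by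
  induction Q using Finset.induction_on with
  | empty =>
    have : (fun τ => dg (fun f => ∏ j ∈ (∅ : Finset (Fin l)), ev (Sum.inl j) f) ((hpR K lam c ^ e • z) τ))
        = hpR K lam c ^ e • z := by
      ext1 τ; rw [dg_prod_empty (fun j => (ev (Sum.inl j) : (Fin l ⊕ H → ℤ) → Sy K))]
    rwa [this] at hz
  | insert q Q hq ih =>
    have h2' : 2 ≤ n + l := h2.resolve_left (Finset.insert_ne_empty _ _)
    rw [Finset.card_insert_of_notMem hq] at he
    refine ih (Or.inr h2') (by omega) ?_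
    set F : Gm lam → PP K (Fin l ⊕ H) := fun τ =>
      dg (fun f => ∏ j ∈ Q, ev (Sum.inl j) f) ((hpR K lam c ^ e • z) τ) with hF
    have h3 : thv lam q F ∈ Sat lam c A := by
      convert hz using 1
      ext1 τ
      rw [thv, hF, dg_prod_insert (fun j => (ev (Sum.inl j) : (Fin l ⊕ H → ℤ) → Sy K)) hq]
    have h4 : ∀ τ, hp K lam c ∣ F τ := by
      intro τ
      have h5 : hp K lam c ^ (1 + Q.card) ∣ (hpR K lam c ^ e • z) τ := by
        have : (hpR K lam c ^ e • z) τ = hp K lam c ^ e * z τ := rfl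
        rw [this]
        exact Dvd.dvd.mul_right (pow_dvd_pow _ (by omega)) _
      have h6 := dg_prod_dvd Q (fun j => (ev (Sum.inl j) : (Fin l ⊕ H → ℤ) →+ Sy K)) (hp K lam c) 1 _ h5
      rwa [pow_one] at h6
    obtain ⟨u, hu⟩ := hp_factor (K := K) (lam := lam) (c := c) q
    choose G hG using h4
    have h5 : F = tvR (K := K) c q • ((u * tvR (K := K) c q ^ 3) • G) := by
      ext1 τ
      rw [hG τ]
      have h6 : hp K lam c = (u : PP K (Fin l ⊕ H)) * tv c q ^ 4 := congrArg Subtype.val hu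
      rw [h6, R0_smul_apply, R0_smul_apply]
      change _ = tv c q * (((u : PP K (Fin l ⊕ H)) * tv c q ^ 3) * G τ)
      ring
    exact onevar h2' (fun z hz => Sat_thv hc hA q hz) h5 h3

/-- The multiples of a high power of `hp` stabilize. -/
theorem KL [CharZero K] (hc : Function.Surjective c) (h2 : S1 lam = ∅ ∨ 2 ≤ n + l)
    (A : ℕ → Submodule (Sy K) (PP K (Fin l ⊕ H))) (hmono : Monotone A)
    (hA : ∀ j, TSt (cc l c) (om K lam) (A j)) :
    ∃ j₀ e : ℕ, ∀ j, ∀ w ∈ A j, w ∈ gP (cc l c) (hp K lam c ^ e) → w ∈ A j₀ := by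
  obtain ⟨j₀, hj₀⟩ := NOE c hc (fun j => Qs lam c (A j)) (fun a b hab => Qs_mono (hmono hab))
    (fun j z hz => rr_mem_Qs hz)
  let C : ℕ → Submodule (R0 K l c) (Gm lam → PP K (Fin l ⊕ H)) := fun k =>
    { carrier := {z | hpR K lam c ^ k • z ∈ Qs lam c (A j₀)}
      add_mem' := fun {a b} ha hb => by
        rw [Set.mem_ofPred_eq, smul_add]; exact add_mem ha hb
      zero_mem' := by rw [Set.mem_ofPred_eq, smul_zero]; exact zero_mem _
      smul_mem' := fun a z hz => by
        have h1 := swap_smul (hpR K lam c ^ k) a z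
        rw [Set.mem_ofPred_eq, h1]
        exact (Qs lam c (A j₀)).smul_mem a hz }
  obtain ⟨k₀, hk₀⟩ := NOE c hc C (monotone_nat_of_le_succ fun k z hz => by
      change hpR K lam c ^ (k + 1) • z ∈ Qs lam c (A j₀)
      rw [pow_succ', mul_smul]
      exact (Qs lam c (A j₀)).smul_mem _ hz) (fun k z hz => by
      change hpR K lam c ^ k • z ∈ Qs lam c (A j₀)
      refine rr_mem_Qs fun τ => ?_
      exact Ideal.mul_mem_left _ _ (hz τ))
  refine ⟨j₀, k₀ + (S1 lam).card + 2, fun j w hw hwg => ?_⟩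
  set e := k₀ + (S1 lam).card + 2 with he
  obtain ⟨w', hw'⟩ := mem_gP.1 hwg
  set w₀ := hp K lam c ^ e * w' with hw₀
  have hw₀A : w₀ ∈ A (max j j₀) := by
    have h1 := sub_mem (hmono (le_max_left j j₀) hw) ((hA (max j j₀)).rr _ hw')
    rwa [sub_sub_cancel] at h1
  have h3 : hat w₀ = hpR K lam c ^ e • hat (lam := lam) w' := by
    ext1 τ
    rw [hat, hw₀, map_mul, map_pow, gm_hp τ.2]; rfl
  have h4 : hat (lam := lam) w₀ ∈ Sat lam c (A j₀) := by
    rw [h3]
    refine remove_Tht hc (hA j₀) (S1 lam) h2 e (by omega) _ ?_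
    refine Qs_le_Sat _ ?_
    have h5 := hj₀ _ (hat_mem_Qs (c := c) (lam := lam) hw₀A)
    convert h5 using 1
    ext1 τ
    rw [← h3, hat, hat, gm_Tht τ.2, Tht]
    rfl
  have h5 : hat (lam := lam) w' ∈ Sat lam c (A j₀) := by
    rw [h3] at h4; exact Sat_of_hp h4
  obtain ⟨k, hk⟩ := h5
  have h6 : hat (lam := lam) w' ∈ C k₀ := hk₀ k hk
  have h7 : hat (lam := lam) (hp K lam c ^ (e - 1) * w') ∈ Qs lam c (A j₀) := by
    have h8 := (Qs lam c (A j₀)).smul_mem (hpR K lam c ^ (e - 1 - k₀)) h6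
    convert h8 using 1
    rw [smul_smul, ← pow_add]
    have h9 : e - 1 - k₀ + k₀ = e - 1 := by omega
    rw [h9]
    ext1 τ
    rw [hat, map_mul, map_pow, gm_hp τ.2]; rfl
  have h8 := averaging hc (hA j₀) h7
  have h9 : w₀ ∈ A j₀ := by
    convert h8 using 1
    rw [hw₀, ← mul_assoc, ← pow_succ']
    congr 2
  have e1 : w = w₀ + (w - w₀) := by ring
  rw [e1]
  exact add_mem h9 ((hA j₀).rr _ hw')

end final

end WittACC
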