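import Pool.Agent.helper37.WittC.Special

/-!
The chain condition for all twists.
-/

set_option linter.unusedSectionVars false
set_option linter.unusedVariables false

namespace WittACC

variable {K : Type*} [Field K]

/-- The inductive hypothesis. -/
def IH (K : Type*) [Field K] (N : ℕ) : Prop :=
  ∀ (X : Type) [Fintype X] [DecidableEq X] (n : ℕ) (c : Fin n → X), Fintype.card X + n < N →
    ∀ ρ ∈ TW K X, ACC c ρ

lemma card_ne {X : Type} [Fintype X] [DecidableEq X] (q : X) :
    Fintype.card {x : X // x ≠ q} < Fintype.card X :=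
  Fintype.card_subtype_lt (x := q) (by simp)

/-- Weights without `-1` at the light points. -/
lemma step_main [CharZero K] {l n : ℕ} {H : Type} [Fintype H] [DecidableEq H] {c : Fin n → H}
    (hc : Function.Surjective c) (hIH : IH K (Fintype.card (Fin l ⊕ H) + n)) {lam : Fin l ⊕ H → ℤ}
    (hlam : ∀ j : Fin l, lam (Sum.inl j) ≠ -1) : ACC (cc l c) (om K lam) := by
  by_cases h2 : S1 lam = ∅ ∨ 2 ≤ n + l
  · refine ACC_main hc h2 (exists_good hlam (fun i j hij => GS_w_sub hij fun c' ρ hρ => ?_) ?_)
    · refine hIH _ n c' ?_ ρ hρ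
      have := card_ne j
      omega
    · cases n with
      | zero =>
        refine ⟨1, one_mem _, 1, ?_⟩
        rw [hh, Matrix.det_isEmpty, map_one, mul_one, _root_.sub_self]; exact zero_mem _
      | succ n =>
        obtain ⟨u, hu⟩ := hh_dvd (K := K) (cc l c)
        refine ⟨_, prod_mem fun k _ => GS_bk k fun ρ hρ => ?_, u, hu⟩
        exact hIH _ n _ (by omega) ρ hρ
  · push Not at h2
    obtain ⟨hne, hlt⟩ := h2
    obtain ⟨j, hj⟩ := hne
    have hl : 1 ≤ l := j.pos
    obtain rfl : n = 0 := by omega
    obtain rfl : l = 1 := by omega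
    have hH : IsEmpty H := ⟨fun h => by obtain ⟨k, _⟩ := hc h; exact k.elim0⟩
    let _ : Unique (Fin 1 ⊕ H) :=
      { default := Sum.inl 0
        uniq := fun x => by
          rcases x with x | x
          · rw [Subsingleton.elim x 0]
          · exact (hH.false x).elim }
    refine ACC_special _ lam ?_
    have : (default : Fin 1 ⊕ H) = Sum.inl j := by
      rw [Subsingleton.elim j 0]; rfl
    rw [this]; exact mem_S1.1 hj

/-- All weights. -/
lemma step_all [CharZero K] {l n : ℕ} {H : Type} [Fintype H] [DecidableEq H] {c : Fin n → H}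
    (hc : Function.Surjective c) (hIH : IH K (Fintype.card (Fin l ⊕ H) + n)) :
    ∀ (m : ℕ) (lam : Fin l ⊕ H → ℤ), (Finset.univ.filter fun j : Fin l => lam (Sum.inl j) = -1).card = m →
      ACC (cc l c) (om K lam) := by
  intro m
  induction m with
  | zero =>
    intro lam hm
    rw [Finset.card_eq_zero, Finset.filter_eq_empty_iff] at hm
    exact step_main hc hIH fun j => hm (Finset.mem_univ j)
  | succ m ih =>
    intro lam hm
    have hne : (Finset.univ.filter fun j : Fin l => lam (Sum.inl j) = -1).Nonempty := by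
      rw [← Finset.card_pos]; omega
    obtain ⟨j, hj⟩ := hne
    rw [Finset.mem_filter] at hj
    have hcq : ∀ k, cc l c k ≠ Sum.inl j := fun k => by simp [cc]
    refine ACC_minus hcq hj.2 (ih _ ?_) ?_
    · have h1 : (Finset.univ.filter fun i : Fin l => Function.update lam (Sum.inl j) 0 (Sum.inl i) = -1)
          = (Finset.univ.filter fun i : Fin l => lam (Sum.inl i) = -1).erase j := by
        ext i
        rw [Finset.mem_filter, Finset.mem_erase, Finset.mem_filter]
        by_cases hij : i = j
        · subst hij; simp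
        · rw [Function.update_of_ne (by simpa using hij)]; simp [hij]
      rw [h1, Finset.card_erase_of_mem (by rw [Finset.mem_filter]; exact hj), hm]
      rfl
    · refine hIH _ n _ ?_ _ (om_mem_TW _)
      have := card_ne (Sum.inl j : Fin l ⊕ H)
      omega

lemma step [CharZero K] {N : ℕ} (hIH : IH K N) (X : Type) [Fintype X] [DecidableEq X] (n : ℕ)
    (c : Fin n → X) (hN : Fintype.card X + n = N) : ∀ ρ ∈ TW K X, ACC c ρ := by
  classical
  let P : X → Prop := fun x => ∃ k, c k = x
  let H : Type := {x : X // P x}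
  let L : Type := {x : X // ¬ P x}
  let e1 : X ≃ L ⊕ H := ((Equiv.sumComm _ _).trans (Equiv.sumCompl P)).symm
  let e2 : L ≃ Fin (Fintype.card L) := Fintype.equivFin L
  let e : X ≃ Fin (Fintype.card L) ⊕ H := e1.trans (Equiv.sumCongr e2 (Equiv.refl H))
  let c' : Fin n → H := fun k => ⟨c k, k, rfl⟩
  have hc' : Function.Surjective c' := by
    rintro ⟨x, k, rfl⟩; exact ⟨k, rfl⟩
  have hec : e ∘ c = cc (Fintype.card L) c' := by
    ext1 k
    have h1 : e1 (c k) = Sum.inr (c' k) := by
      rw [Equiv.symm_apply_eq]; rfl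
    change Equiv.sumCongr e2 (Equiv.refl H) (e1 (c k)) = _
    rw [h1]; rfl
  have hcard : Fintype.card (Fin (Fintype.card L) ⊕ H) = Fintype.card X := (Fintype.card_congr e).symm
  intro ρ hρ
  refine ACC.of_equiv e (fun ρ hρ => ?_) hρ
  rw [hec]
  refine ACC.untwist (canc _) (fun lam => ?_) hρ
  refine step_all hc' ?_ _ lam rfl
  rw [hcard, hN]; exact hIH

theorem ACC_all [CharZero K] : ∀ N : ℕ, IH K N := by
  intro N
  induction N with
  | zero => intro X _ _ n c h; exact absurd h (Nat.not_lt_zero _)
  | succ N ih =>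
    intro X _ _ n c h
    rcases Nat.lt_succ_iff_lt_or_eq.1 h with h | h
    · exact ih X n c h
    · exact step ih X n c h

/-- The chain condition. -/
theorem ACC_TW [CharZero K] {X : Type} [Fintype X] [DecidableEq X] {n : ℕ} (c : Fin n → X)
    {ρ : ℤ → PP K X} (hρ : ρ ∈ TW K X) : ACC c ρ :=
  ACC_all (Fintype.card X + n + 1) X n c (Nat.lt_succ_self _) ρ hρ

end WittACC
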