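import Pool.Agent.helper37.WittC.Ops

/-!
The slot operators preserve stable submodules up to powers of the Hankel determinant.
-/

set_option linter.unusedSectionVars false
set_option linter.unusedVariables false

namespace WittACC

variable {K : Type*} [Field K] {l : ℕ} {H : Type*} [Fintype H] [DecidableEq H] {n : ℕ}

section EO

/-- Operators preserving `A` up to a power of the Hankel determinant. -/
noncomputable def EO (A : Submodule (Sy K) (PP K (Fin l ⊕ H))) (n k : ℕ) :
    Submodule (Sy K) (PP K (Fin l ⊕ H) →ₗ[Sy K] PP K (Fin l ⊕ H)) where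
  carrier := {T | ∀ F ∈ A, (hh K n ^ k) • T F ∈ A}
  add_mem' := fun hT hT' F hF => by
    rw [LinearMap.add_apply, smul_add]; exact add_mem (hT F hF) (hT' F hF)
  zero_mem' := fun F hF => by rw [LinearMap.zero_apply, smul_zero]; exact zero_mem _
  smul_mem' := fun t T hT F hF => by
    rw [LinearMap.smul_apply, smul_comm]; exact Submodule.smul_mem _ _ (hT F hF)

variable {A : Submodule (Sy K) (PP K (Fin l ⊕ H))}

lemma EO_id : LinearMap.id ∈ EO A n 0 := fun F hF => by
  rw [pow_zero, one_smul]; exact hF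

lemma EO_comp {k k' : ℕ} {T T' : PP K (Fin l ⊕ H) →ₗ[Sy K] PP K (Fin l ⊕ H)}
    (hT : T ∈ EO A n k) (hT' : T' ∈ EO A n k') : T ∘ₗ T' ∈ EO A n (k + k') := fun F hF => by
  rw [pow_add, mul_smul, LinearMap.comp_apply, ← map_smul]
  exact hT _ (hT' F hF)

end EO

section D1

/-- One slot. -/
noncomputable def D1 (c : Fin n → H) (lam : Fin l ⊕ H → ℤ) :
    PP K (Fin n ⊕ Unit) →ₗ[Sy K] (PP K (Fin l ⊕ H) →ₗ[Sy K] PP K (Fin l ⊕ H)) :=
  lin fun a => LinearMap.mulLeft (Sy K) (mon (push (Sum.inr ∘ c) fun k => a (Sum.inl k))) ∘ₗ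
    LL lam (a (Sum.inr ()))

lemma LL_apply (lam : Fin l ⊕ H → ℤ) (m : ℤ) (F : PP K (Fin l ⊕ H)) :
    LL lam m F = ∑ j : Fin l, wz (Sum.inl j) m * (((m * lam (Sum.inl j) : ℤ) : Sy K) • F
      - dg (ev (Sum.inl j)) F) := by
  rw [LL, LinearMap.sum_apply]; rfl

lemma D1_eq_LW (c : Fin n → H) (lam : Fin l ⊕ H → ℤ) (Ψ : PP K (Fin n ⊕ Unit)) (F : PP K (Fin l ⊕ H)) :
    D1 c lam Ψ F = LW lam (sub (Sum.map (Sum.inr ∘ c) id) Ψ) F := by
  induction Ψ using lau_induction with
  | h0 => simp [LW]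
  | ha x y hx hy =>
    rw [map_add, LinearMap.add_apply, hx, hy, LW, LW, LW, ← Finset.sum_add_distrib]
    refine Finset.sum_congr rfl fun j _ => ?_
    simp only [map_add, add_mul, smul_add]; ring
  | hs t x hx =>
    rw [map_smul, LinearMap.smul_apply, hx, LW, LW, Finset.smul_sum]
    refine Finset.sum_congr rfl fun j _ => ?_
    simp only [map_smul, smul_mul_assoc, smul_sub]
    rw [smul_comm t]
  | hm a =>
    rw [D1, lin_mon, LinearMap.comp_apply, LL_apply, LinearMap.mulLeft_apply, Finset.mul_sum, LW]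
    refine Finset.sum_congr rfl fun j _ => ?_
    rw [thz, sub_mon, dg_mon, map_smul, evz_mon, ev_apply]
    have e1 : push (Sum.map (Sum.inr ∘ c : Fin n → Fin l ⊕ H) (id : Unit → Unit)) a (Sum.inr ()) = a (Sum.inr ()) := by
      rw [push_apply, Fintype.sum_sum_type]; simp
    have e2 : (fun x => push (Sum.map (Sum.inr ∘ c : Fin n → Fin l ⊕ H) (id : Unit → Unit)) a (Sum.inl x))
        = push (Sum.inr ∘ c) fun k => a (Sum.inl k) := by
      ext x
      rw [push_apply, Fintype.sum_sum_type, push_apply]; simp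
    rw [e1, e2]
    simp only [smul_mul_assoc, mul_smul_comm, smul_smul, mul_sub]
    push_cast
    rw [mul_comm (lam (Sum.inl j) : Sy K), mul_assoc, mul_assoc]

lemma LL_mul_mon (lam : Fin l ⊕ H → ℤ) (m : ℤ) (d : Fin l ⊕ H → ℤ) (hd : ∀ j, d (Sum.inl j) = 0)
    (F : PP K (Fin l ⊕ H)) : LL lam m (mon d * F) = mon d * LL lam m F := by
  rw [LL_apply, LL_apply, Finset.mul_sum]
  refine Finset.sum_congr rfl fun j _ => ?_
  rw [dg_leib, dg_mon, ev_apply, hd]
  simp only [Int.cast_zero, zero_smul, zero_mul, zero_add]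
  rw [mul_sub, mul_sub, mul_sub, mul_smul_comm, mul_smul_comm, mul_smul_comm]
  congr 1
  · congr 1; ring
  · ring

lemma OpG_succ (c : Fin n → H) (lam : Fin l ⊕ H → ℤ) (s : ℕ) (Ψ₀ : PP K (Fin n ⊕ Unit))
    (Ψ : PP K (Fin n ⊕ Fin s)) :
    OpG c lam (s + 1) (sub (Sum.map id fun _ => 0) Ψ₀ * sub (Sum.map id Fin.succ) Ψ)
      = D1 c lam Ψ₀ ∘ₗ OpG c lam s Ψ := by
  induction Ψ₀ using lau_induction with
  | h0 => simp
  | ha x y hx hy => rw [map_add, map_add, add_mul, map_add, hx, hy, LinearMap.add_comp]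
  | hs t x hx => rw [map_smul, map_smul, smul_mul_assoc, map_smul, hx, LinearMap.smul_comp]
  | hm a =>
    induction Ψ using lau_induction with
    | h0 => simp
    | ha x y hx hy => rw [map_add, map_add, mul_add, map_add, hx, hy, LinearMap.comp_add]
    | hs t x hx => rw [map_smul, map_smul, mul_smul_comm, map_smul, hx, LinearMap.comp_smul]
    | hm b =>
      rw [sub_mon, sub_mon, mon_mul, OpG, lin_mon, OpG, lin_mon, D1, lin_mon]
      have e0 : ∀ (d : Fin n ⊕ Unit → ℤ), (∀ k, push (Sum.map id fun _ => 0 : Fin n ⊕ Unit →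
          Fin n ⊕ Fin (s + 1)) d (Sum.inl k) = d (Sum.inl k)) ∧ push (Sum.map id fun _ => 0 : Fin n ⊕ Unit →
          Fin n ⊕ Fin (s + 1)) d (Sum.inr 0) = d (Sum.inr ()) ∧ ∀ j : Fin s, push (Sum.map id fun _ => 0 :
          Fin n ⊕ Unit → Fin n ⊕ Fin (s + 1)) d (Sum.inr j.succ) = 0 := by
        intro d
        refine ⟨fun k => ?_, ?_, fun j => ?_⟩
        · rw [push_apply, Fintype.sum_sum_type]; simp
        · rw [push_apply, Fintype.sum_sum_type]; simp
        · rw [push_apply, Fintype.sum_sum_type]; simp [(Fin.succ_ne_zero j).symm]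
      have e1 : ∀ (d : Fin n ⊕ Fin s → ℤ), (∀ k, push (Sum.map id Fin.succ : Fin n ⊕ Fin s →
          Fin n ⊕ Fin (s + 1)) d (Sum.inl k) = d (Sum.inl k)) ∧ push (Sum.map id Fin.succ : Fin n ⊕ Fin s →
          Fin n ⊕ Fin (s + 1)) d (Sum.inr 0) = 0 ∧ ∀ j : Fin s, push (Sum.map id Fin.succ :
          Fin n ⊕ Fin s → Fin n ⊕ Fin (s + 1)) d (Sum.inr j.succ) = d (Sum.inr j) := by
        intro d
        refine ⟨fun k => ?_, ?_, fun j => ?_⟩
        · rw [push_apply, Fintype.sum_sum_type]; simp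
        · rw [push_apply, Fintype.sum_sum_type]; simp [Fin.succ_ne_zero]
        · rw [push_apply, Fintype.sum_sum_type]; simp
      obtain ⟨a1, a2, a3⟩ := e0 a
      obtain ⟨b1, b2, b3⟩ := e1 b
      have e2 : (fun k => (push (Sum.map id fun _ => 0 : Fin n ⊕ Unit → Fin n ⊕ Fin (s + 1)) a +
          push (Sum.map id Fin.succ : Fin n ⊕ Fin s → Fin n ⊕ Fin (s + 1)) b) (Sum.inl k))
          = (fun k => a (Sum.inl k)) + fun k => b (Sum.inl k) := by
        funext k
        rw [Pi.add_apply, a1, b1]; rfl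
      have e3 : Fin.tail (fun j => (push (Sum.map id fun _ => 0 : Fin n ⊕ Unit → Fin n ⊕ Fin (s + 1)) a +
          push (Sum.map id Fin.succ : Fin n ⊕ Fin s → Fin n ⊕ Fin (s + 1)) b) (Sum.inr j))
          = fun j => b (Sum.inr j) := by
        funext j
        rw [Fin.tail, Pi.add_apply, a3, b3, zero_add]
      rw [e2, LN, e3]
      simp only [Pi.add_apply]
      rw [a2, b2, add_zero, map_add]
      apply LinearMap.ext
      intro F
      rw [LinearMap.comp_apply, LinearMap.comp_apply, LinearMap.comp_apply, LinearMap.comp_apply,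
        LinearMap.comp_apply, LinearMap.mulLeft_apply, LinearMap.mulLeft_apply, LinearMap.mulLeft_apply,
        LL_mul_mon, ← mul_assoc, mon_mul]
      intro j
      rw [push_apply]; simp

end D1

end WittACC
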