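import Pool.Agent.helper37.WittC.Mem

/-!
The slot operators preserve stable submodules up to powers of the Hankel determinant, continued.
-/

set_option linter.unusedSectionVars false
set_option linter.unusedVariables false

namespace WittACC

variable {K : Type*} [Field K] {l : ℕ} {H : Type*} [Fintype H] [DecidableEq H] {n : ℕ}

section mem

variable {c : Fin n → H} {lam : Fin l ⊕ H → ℤ} {A : Submodule (Sy K) (PP K (Fin l ⊕ H))}

lemma LS_smul_mem (hA : ∀ F ∈ rr K (Sum.inr ∘ c : Fin n → Fin l ⊕ H), F ∈ A)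
    {r : Lau K (Fin n)} (hr : r ∈ LS K n) {F : PP K (Fin l ⊕ H)} (hF : F ∈ A) :
    hh K n • (up (sub (Sum.inr ∘ c) r) * F) ∈ A := by
  obtain ⟨s, hs⟩ := LS_heavy (Sum.inr ∘ c : Fin n → Fin l ⊕ H) hr
  have h1 := hA _ (Ideal.mul_mem_right F _ hs)
  have h2 := add_mem h1 (A.smul_mem s hF)
  convert h2 using 1
  rw [Algebra.smul_def, Algebra.smul_def]; ring

lemma LS_EO (hA : ∀ F ∈ rr K (Sum.inr ∘ c : Fin n → Fin l ⊕ H), F ∈ A)
    {r : Lau K (Fin n)} (hr : r ∈ LS K n) :
    LinearMap.mulLeft (Sy K) (up (sub (Sum.inr ∘ c : Fin n → Fin l ⊕ H) r)) ∈ EO A n 1 := fun F hF => by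
  rw [pow_one]; exact LS_smul_mem hA hr hF

/-- Polynomials with coefficients in `LS`. -/
lemma WD_LS (hA : TSt (Sum.inr ∘ c : Fin n → Fin l ⊕ H) (om K lam) A) (q : Polynomial (Lau K (Fin n)))
    (hq : ∀ κ, q.coeff κ ∈ LS K n) (m : ℤ) {F : PP K (Fin l ⊕ H)} (hF : F ∈ A) :
    hh K n • WD lam (sub (Sum.map (Sum.inr ∘ c) id) (ihp q * wz (Sum.inr ()) m)) F ∈ A := by
  have h1 : WD lam (sub (Sum.map (Sum.inr ∘ c) id) (ihp q * wz (Sum.inr ()) m)) F =
      ∑ κ ∈ Finset.range (q.natDegree + 1), up (sub (Sum.inr ∘ c) (q.coeff κ)) * DD lam (κ + m) F := by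
    have h2 : ∀ (G : PP K (Fin l ⊕ H)) (v : ℤ), WD lam (sub Sum.inl G * wz (Sum.inr ()) v) F
        = G * DD lam v F := by
      intro G v
      induction G using lau_induction with
      | h0 => simp
      | ha x y hx hy => rw [map_add, add_mul, map_add, Pi.add_apply, hx, hy, add_mul]
      | hs t x hx => rw [map_smul, smul_mul_assoc, map_smul, Pi.smul_apply, hx, smul_mul_assoc]
      | hm a =>
        rw [sub_mon, wz, mon_mul, WD_mon, push_inl]
        simp
    rw [ihp_eq_sum, Finset.sum_mul, map_sum, map_sum, Finset.sum_apply]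
    refine Finset.sum_congr rfl fun κ _ => ?_
    rw [mul_assoc, ← wz_add, map_mul, sub_sub, sub_wz, ← h2, up_sub, sub_sub]
    rfl
  rw [h1, Finset.smul_sum]
  exact A.sum_mem fun κ _ => LS_smul_mem hA.rr (hq κ) (hA.st _ F hF)

lemma D1_EO (hc : Function.Surjective c)
    (hA : TSt (Sum.inr ∘ c : Fin n → Fin l ⊕ H) (om K lam) A) (m : ℤ) :
    D1 c lam (pc K (id : Fin n → Fin n) ^ 2 * wz (Sum.inr ()) m) ∈ EO A n 1 := fun F hF => by
  have h1 := WD_LS hA (pbar K (id : Fin n → Fin n) ^ 2) (fun κ => by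
    rw [pow_two, Polynomial.coeff_mul]
    exact Subalgebra.sum_mem _ fun x _ => Subalgebra.mul_mem _ (coeff_mem_LS _ _) (coeff_mem_LS _ _)) m hF
  rw [map_pow, ihp_pbar] at h1
  have h2 : sub (Sum.map (Sum.inr ∘ c) id) (pc K (id : Fin n → Fin n) ^ 2 * wz (Sum.inr ()) m)
      = pc K (Sum.inr ∘ c : Fin n → Fin l ⊕ H) ^ 2 * wz (Sum.inr ()) m := by
    rw [map_mul, map_pow, sub_pc, sub_wz]; rfl
  have h3 := WD_light hc lam (G := sub (Sum.map (Sum.inr ∘ c) id)
    (pc K (id : Fin n → Fin n) ^ 2 * wz (Sum.inr ()) m)) (by rw [h2]; exact dvd_mul_right _ _) F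
  rw [← D1_eq_LW] at h3
  rw [pow_one]
  have h4 := sub_mem h1 (A.smul_mem (hh K n) (hA.rr _ h3))
  rw [← smul_sub, sub_sub_cancel] at h4
  exact h4

/-- The slot operators. -/
lemma OpG_EO (hc : Function.Surjective c)
    (hA : TSt (Sum.inr ∘ c : Fin n → Fin l ⊕ H) (om K lam) A) (s : ℕ) (Ψ : PP K (Fin s)) :
    OpG c lam s ((∏ a : Fin s, pY (id : Fin n → Fin n) a ^ 2) * sub Sum.inr Ψ) ∈ EO A n s := by
  induction Ψ using lau_induction with
  | h0 => rw [map_zero, mul_zero, map_zero]; exact zero_mem _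
  | ha x y hx hy => rw [map_add, mul_add, map_add]; exact add_mem hx hy
  | hs t x hx => rw [map_smul, mul_smul_comm, map_smul]; exact Submodule.smul_mem _ _ hx
  | hm b =>
    induction s with
    | zero =>
      have e : OpG c lam 0 ((∏ a : Fin 0, pY (id : Fin n → Fin n) a ^ 2) * sub Sum.inr (mon b) :
          PP K (Fin n ⊕ Fin 0)) = LinearMap.id := by
        rw [Finset.univ_eq_empty, Finset.prod_empty, one_mul, sub_mon, OpG, lin_mon, push_inr, LN]
        apply LinearMap.ext
        intro F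
        rw [LinearMap.comp_apply, LinearMap.mulLeft_apply, LinearMap.id_apply]
        have : (fun k : Fin n => (Sum.elim (0 : Fin n → ℤ) b : Fin n ⊕ Fin 0 → ℤ) (Sum.inl k)) = 0 := rfl
        rw [this, map_zero, mon_zero, one_mul]
      rw [e]; exact EO_id
    | succ s ih =>
      have e : ((∏ a : Fin (s + 1), pY (id : Fin n → Fin n) a ^ 2) * sub Sum.inr (mon b) :
          PP K (Fin n ⊕ Fin (s + 1))) =
          sub (Sum.map id fun _ => 0) (pc K (id : Fin n → Fin n) ^ 2 * wz (Sum.inr ()) (b 0)) *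
          sub (Sum.map id Fin.succ) ((∏ a : Fin s, pY (id : Fin n → Fin n) a ^ 2) *
            sub Sum.inr (mon (Fin.tail b))) := by
        have e1 : (sub (Sum.map id fun _ => 0) (pc K (id : Fin n → Fin n)) : PP K (Fin n ⊕ Fin (s + 1)))
            = pY (id : Fin n → Fin n) 0 := by
          rw [pc, map_prod, pY]
          refine Finset.prod_congr rfl fun k _ => ?_
          rw [map_sub, sub_w, sub_w]; rfl
        have e2 : ∀ a : Fin s, (sub (Sum.map id Fin.succ) (pY (id : Fin n → Fin n) a) :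
            PP K (Fin n ⊕ Fin (s + 1))) = pY (id : Fin n → Fin n) a.succ := by
          intro a
          rw [pY, map_prod, pY]
          refine Finset.prod_congr rfl fun k _ => ?_
          rw [map_sub, sub_w, sub_w]; rfl
        rw [map_mul, map_mul, map_pow, map_prod, e1, sub_wz, Fin.prod_univ_succ]
        simp only [map_pow, e2]
        have e3 : (sub Sum.inr (mon b) : PP K (Fin n ⊕ Fin (s + 1))) =
            wz (Sum.map id (fun _ => 0) (Sum.inr () : Fin n ⊕ Unit)) (b 0) *
              sub (Sum.map id Fin.succ) (sub Sum.inr (mon (Fin.tail b))) := by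
          rw [sub_mon, sub_mon, sub_mon, wz, mon_mul]
          congr 1
          rw [push_push, push_inr]
          ext x
          rw [Pi.add_apply, push_apply]
          rcases x with x | x
          · simp
          · refine Fin.cases ?_ (fun j => ?_) x
            · simp [Fin.succ_ne_zero]
            · simp [Fin.succ_ne_zero, Fin.tail]
        rw [e3]; ring
      rw [e, OpG_succ]
      have h5 := EO_comp (D1_EO hc hA (b 0)) (ih (Fin.tail b))
      rwa [add_comm 1 s] at h5

end mem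

end WittACC
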