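import Pool.Agent.helper37.WittC.Good

/-!
Light points of weight `-1`.
-/

set_option linter.unusedSectionVars false
set_option linter.unusedVariables false

namespace WittACC

variable {K : Type*} [Field K] {X : Type*} [Fintype X] [DecidableEq X] {n : ℕ}

/-- The part of degree zero in the variable `q`. -/
noncomputable def piq (q : X) : PP K X →ₗ[Sy K] PP K {x : X // x ≠ q} :=
  lin fun a => if a q = 0 then mon fun x => a x.1 else 0

lemma piq_mon (q : X) (a : X → ℤ) : piq q (mon a : PP K X) = if a q = 0 then mon fun x => a x.1 else 0 := by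
  rw [piq, lin_mon]

lemma sum_ne (q : X) {M : Type*} [AddCommMonoid M] (f : X → M) :
    ∑ i, f i = f q + ∑ i : {x : X // x ≠ q}, f i := by
  rw [← Finset.add_sum_erase _ _ (Finset.mem_univ q)]
  congr 1
  rw [← Finset.sum_subtype (Finset.univ.erase q) (p := fun x => x ≠ q) (by simp)]

lemma piq_DD (q : X) {lam : X → ℤ} (hq : lam q = -1) (v : ℤ) (F : PP K X) :
    DD (fun x : {x : X // x ≠ q} => lam x.1) v (piq q F) = piq q (DD lam v F) := by
  refine equivariant_of_mon (piq q) v (fun a => ?_) F
  rw [DD_mon, map_sum, sum_ne q]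
  have h1 : piq q (((v * lam q - a q : ℤ) : Sy K) • (mon (a + Pi.single q v) : PP K X)) = 0 := by
    rw [map_smul, piq_mon, Pi.add_apply, Pi.single_eq_same]
    split_ifs with h
    · have : v * lam q - a q = 0 := by rw [hq]; linarith
      rw [this, Int.cast_zero, zero_smul]
    · rw [smul_zero]
  have h2 : ∀ i : {x : X // x ≠ q}, piq q (((v * lam i.1 - a i.1 : ℤ) : Sy K) •
      (mon (a + Pi.single i.1 v) : PP K X)) = if a q = 0 then ((v * lam i.1 - a i.1 : ℤ) : Sy K) •
        mon ((fun x : {x : X // x ≠ q} => a x.1) + Pi.single i v) else 0 := by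
    intro i
    rw [map_smul, piq_mon, Pi.add_apply, Pi.single_eq_of_ne i.2.symm, add_zero]
    split_ifs with h
    · congr 2
      ext x
      rw [Pi.add_apply, Pi.add_apply]
      congr 1
      by_cases hx : x = i
      · subst hx; simp
      · rw [Pi.single_eq_of_ne hx, Pi.single_eq_of_ne (fun h => hx (Subtype.ext h))]
    · rw [smul_zero]
  rw [h1, zero_add, Finset.sum_congr rfl fun i _ => h2 i, piq_mon]
  split_ifs with h
  · rw [DD_mon]
  · rw [DD_zero]; simp

lemma piq_sub_val (q : X) (F : PP K {x : X // x ≠ q}) : piq q (sub Subtype.val F) = F := by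
  induction F using lau_induction with
  | h0 => simp
  | ha x y hx hy => rw [map_add, map_add, hx, hy]
  | hs t x hx => rw [map_smul, map_smul, hx]
  | hm a =>
    rw [sub_mon, piq_mon]
    have h1 : push (Subtype.val : {x : X // x ≠ q} → X) a q = 0 := by
      rw [push_apply]
      exact Finset.sum_eq_zero fun x _ => if_neg x.2
    rw [if_pos h1]
    congr 1
    ext x
    rw [push_apply, Finset.sum_eq_single x]
    · simp
    · intro y _ hy; rw [if_neg (fun h => hy (Subtype.ext h))]
    · intro h; exact absurd (Finset.mem_univ _) h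

lemma sub_val_piq (q : X) (F : PP K X) :
    sub Subtype.val (piq q F) = dg (fun a => if a q = 0 then (1 : Sy K) else 0) F := by
  induction F using lau_induction with
  | h0 => simp
  | ha x y hx hy => rw [map_add, map_add, hx, hy, map_add]
  | hs t x hx => rw [map_smul, map_smul, hx, map_smul]
  | hm a =>
    rw [piq_mon, dg_mon]
    split_ifs with h
    · rw [sub_mon, one_smul]
      congr 1
      ext x
      by_cases hx : x = q
      · subst hx
        rw [h, push_apply]
        exact Finset.sum_eq_zero fun x _ => if_neg x.2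
      · rw [push_apply, Finset.sum_eq_single ⟨x, hx⟩]
        · simp
        · intro y _ hy; rw [if_neg (fun h => hy (Subtype.ext h))]
        · intro h; exact absurd (Finset.mem_univ _) h
    · rw [map_zero, zero_smul]

/-- Inverse Euler operator. -/
noncomputable def isg (q : X) : PP K X →ₗ[Sy K] PP K X :=
  dg fun a => if a q = 0 then 0 else MvPolynomial.C (((a q : ℤ) : K)⁻¹)

lemma isg_spec [CharZero K] (q : X) (F : PP K X) :
    F = dg (ev q) (isg q F) + sub Subtype.val (piq q F) := by
  rw [sub_val_piq, isg, ← dg_mul_apply]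
  have h : ∀ f g : (X → ℤ) → Sy K, dg f F + dg g F = dg (f + g) F := by
    intro f g
    apply AddMonoidAlgebra.ext
    ext a : 1
    rw [AddMonoidAlgebra.coeff_add, Finsupp.add_apply, dg_coeff', dg_coeff', dg_coeff', Pi.add_apply, add_mul]
  rw [h]
  have h2 : ((ev q : (X → ℤ) → Sy K) * (fun a => if a q = 0 then 0 else MvPolynomial.C (((a q : ℤ) : K)⁻¹))
      + (fun a => if a q = 0 then (1 : Sy K) else 0)) = 1 := by
    ext1 a
    rw [Pi.add_apply, Pi.mul_apply, Pi.one_apply, ev_apply]
    split_ifs with h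
    · simp
    · rw [add_zero, ← map_intCast (MvPolynomial.C : K →+* Sy K), ← map_mul,
        mul_inv_cancel₀ (by exact_mod_cast h), map_one]
  rw [h2, dg_one]; rfl

lemma dg_DD (q : X) {lam : X → ℤ} (hq : lam q = -1) (v : ℤ) (F : PP K X) :
    DD lam v (dg (ev q) F) = dg (ev q) (DD (Function.update lam q 0) v F) := by
  refine equivariant_of_mon (dg (ev q)) v (fun a => ?_) F
  rw [dg_mon, ev_apply, DD_smul, del_intCast, zero_smul, zero_add, DD_mon, DD_mon, map_sum,
    Finset.smul_sum]
  refine Finset.sum_congr rfl fun i _ => ?_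
  rw [map_smul, dg_mon, ev_apply, smul_smul, smul_smul, ← Int.cast_mul, ← Int.cast_mul]
  congr 2
  by_cases hi : i = q
  · subst hi
    rw [hq, Function.update_self, Pi.add_apply, Pi.single_eq_same]; ring
  · rw [Function.update_of_ne hi, Pi.add_apply, Pi.single_eq_of_ne (Ne.symm hi)]; ring

lemma dg_mem_rr {c : Fin n → X} {q : X} (hc : ∀ k, c k ≠ q) {F : PP K X} (hF : F ∈ rr K c) :
    dg (ev q) F ∈ rr K c := by
  obtain ⟨G, rfl⟩ := hF
  rw [eL, dg_eY, dg_leib]
  have : dg (ev (Sum.inl q)) (pc K c) = 0 := by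
    rw [pc]
    have h : ∀ s : Finset (Fin n), dg (ev (Sum.inl q))
        (∏ k ∈ s, (w (Sum.inr ()) - w (Sum.inl (c k)) : PP K (X ⊕ Unit))) = 0 := by
      intro s
      induction s using Finset.induction_on with
      | empty => rw [Finset.prod_empty, ← mon_zero, dg_mon, map_zero, zero_smul]
      | insert k s hk ih =>
        rw [Finset.prod_insert hk, dg_leib, ih, map_sub, w, w, dg_wz, dg_wz]
        simp [(hc k).symm]
    exact h _
  rw [this, zero_mul, zero_add]
  exact eL_mem_rr _ _

lemma TSt_comap_dg {c : Fin n → X} {q : X} (hc : ∀ k, c k ≠ q) {lam : X → ℤ} (hq : lam q = -1)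
    {A : Submodule (Sy K) (PP K X)} (hA : TSt c (om K lam) A) :
    TSt c (om K (Function.update lam q 0)) (A.comap (dg (ev q))) where
  rr F hF := hA.rr _ (dg_mem_rr hc hF)
  st v F hF := by
    have h3 := hA.st v (dg (ev q) F) hF
    have h4 := dg_DD q hq v F
    rw [DD, DD] at h4
    rw [h4] at h3
    exact h3

lemma TSt_map_piq {c : Fin n → X} {q : X} (hc : ∀ k, c k ≠ q) {lam : X → ℤ} (hq : lam q = -1)
    {A : Submodule (Sy K) (PP K X)} (hA : TSt c (om K lam) A) :
    TSt (fun k => (⟨c k, hc k⟩ : {x : X // x ≠ q})) (om K fun x : {x : X // x ≠ q} => lam x.1)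
      (A.map (piq q)) where
  rr F hF := by
    have h1 : sub Subtype.val F ∈ rr K c :=
      sub_mem_rr Subtype.val (fun k => (⟨c k, hc k⟩ : {x : X // x ≠ q})) hF
    exact ⟨sub Subtype.val F, hA.rr _ h1, piq_sub_val q F⟩
  st v F hF := by
    obtain ⟨F, hF, rfl⟩ := hF
    have h1 := piq_DD q hq v F
    rw [DD, DD] at h1
    rw [h1]
    exact ⟨_, hA.st v F hF, rfl⟩

/-- Removing one weight `-1`. -/
theorem ACC_minus [CharZero K] {c : Fin n → X} {q : X} (hc : ∀ k, c k ≠ q) {lam : X → ℤ}
    (hq : lam q = -1) (h1 : ACC c (om K (Function.update lam q 0)))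
    (h2 : ACC (fun k => (⟨c k, hc k⟩ : {x : X // x ≠ q})) (om K fun x : {x : X // x ≠ q} => lam x.1)) :
    ACC c (om K lam) := by
  intro A hmono hA
  obtain ⟨j₁, hj₁⟩ := h1 (fun j => (A j).comap (dg (ev q))) (fun a b hab => Submodule.comap_mono (hmono hab))
    (fun j => TSt_comap_dg hc hq (hA j))
  obtain ⟨j₂, hj₂⟩ := h2 (fun j => (A j).map (piq q)) (fun a b hab => Submodule.map_mono (hmono hab))
    (fun j => TSt_map_piq hc hq (hA j))
  refine ⟨max j₁ j₂, fun j w hw => ?_⟩
  have h0 : piq q w ∈ (A j₂).map (piq q) := hj₂ j (Submodule.mem_map_of_mem hw)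
  obtain ⟨a, ha, haw⟩ := Submodule.mem_map.1 h0
  have h3 : w - a = dg (ev q) (isg q (w - a)) := by
    have h4 := isg_spec q (w - a)
    rw [map_sub (piq q), haw, _root_.sub_self, map_zero, add_zero] at h4
    exact h4
  have h4 : isg q (w - a) ∈ (A (max j j₂)).comap (dg (ev q)) := by
    rw [Submodule.mem_comap, ← h3]
    exact sub_mem (hmono (le_max_left j j₂) hw) (hmono (le_max_right j j₂) ha)
  have h5 := hj₁ _ h4
  rw [Submodule.mem_comap, ← h3] at h5
  have e : w = a + (w - a) := by ring
  rw [e]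
  exact add_mem (hmono (le_max_right j₁ j₂) ha) (hmono (le_max_left j₁ j₂) h5)

end WittACC
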