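import Pool.Agent.helper37.WittC.T3

/-!
The ring `R0` and Noetherianity.
-/

set_option linter.unusedSectionVars false
set_option linter.unusedVariables false

namespace WittACC

variable {K : Type*} [Field K] {l : ℕ} {H : Type*} [Fintype H] [DecidableEq H] {n : ℕ}

section R0

/-- Products of heavy symmetric functions and light functions. -/
noncomputable def Mo (K : Type*) [Field K] (l : ℕ) (c : Fin n → H) : Submonoid (PP K (Fin l ⊕ H)) where
  carrier := {m | ∃ r ∈ LS K n, ∃ G : PP K (Fin l), m = up (sub (Sum.inr ∘ c) r) * sub Sum.inl G}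
  mul_mem' := by
    rintro _ _ ⟨r, hr, G, rfl⟩ ⟨r', hr', G', rfl⟩
    refine ⟨r * r', mul_mem hr hr', G * G', ?_⟩
    simp only [map_mul]; ring
  one_mem' := ⟨1, one_mem _, 1, by simp⟩

/-- The ring generated by heavy symmetric functions and light functions. -/
noncomputable def R0 (K : Type*) [Field K] (l : ℕ) (c : Fin n → H) :
    Subalgebra (Sy K) (PP K (Fin l ⊕ H)) := Algebra.adjoin (Sy K) (Mo K l c)

variable {c : Fin n → H}

lemma R0_eq_span : (R0 K l c).toSubmodule = Submodule.span (Sy K) (Mo K l c : Set (PP K (Fin l ⊕ H))) := by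
  rw [R0, Algebra.adjoin_eq_span, Submonoid.closure_eq]

lemma LS_mem_R0 {r : Lau K (Fin n)} (hr : r ∈ LS K n) :
    (up (sub (Sum.inr ∘ c) r) : PP K (Fin l ⊕ H)) ∈ R0 K l c :=
  Algebra.subset_adjoin ⟨r, hr, 1, by simp⟩

lemma light_mem_R0 (G : PP K (Fin l)) : (sub Sum.inl G : PP K (Fin l ⊕ H)) ∈ R0 K l c :=
  Algebra.subset_adjoin ⟨1, one_mem _, G, by simp⟩

lemma w_mem_R0 (j : Fin l) : (w (Sum.inl j) : PP K (Fin l ⊕ H)) ∈ R0 K l c := by
  rw [← sub_w]; exact light_mem_R0 _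

lemma wz_mem_R0 (j : Fin l) (m : ℤ) : (wz (Sum.inl j) m : PP K (Fin l ⊕ H)) ∈ R0 K l c := by
  rw [← sub_wz]; exact light_mem_R0 _

lemma R0_induction {P : PP K (Fin l ⊕ H) → Prop} {a : PP K (Fin l ⊕ H)} (ha : a ∈ R0 K l c)
    (h0 : P 0) (hadd : ∀ x y, P x → P y → P (x + y)) (hsm : ∀ (s : Sy K) x, P x → P (s • x))
    (hm : ∀ r ∈ LS K n, ∀ G : PP K (Fin l), P (up (sub (Sum.inr ∘ c) r) * sub Sum.inl G)) : P a := by
  have h1 : a ∈ (R0 K l c).toSubmodule := ha
  rw [R0_eq_span] at h1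
  induction h1 using Submodule.span_induction with
  | mem x hx => obtain ⟨r, hr, G, rfl⟩ := hx; exact hm r hr G
  | zero => exact h0
  | add x y _ _ hx hy =>
    have hmem : ∀ z, z ∈ Submodule.span (Sy K) (Mo K l c : Set (PP K (Fin l ⊕ H))) → z ∈ R0 K l c := by
      intro z hz; rw [← R0_eq_span] at hz; exact hz
    exact hadd x y (hx (hmem _ ‹_›)) (hy (hmem _ ‹_›))
  | smul s x _ hx =>
    have hmem : ∀ z, z ∈ Submodule.span (Sy K) (Mo K l c : Set (PP K (Fin l ⊕ H))) → z ∈ R0 K l c := by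
      intro z hz; rw [← R0_eq_span] at hz; exact hz
    exact hsm s x (hx (hmem _ ‹_›))

end R0

section gens

lemma mon_eq_prod {R : Type*} [CommRing R] {X : Type*} [Fintype X] [DecidableEq X] (a : X → ℤ) :
    (mon a : Lau R X) = ∏ x, wz x (a x) := by
  have h : ∀ s : Finset X, ∏ x ∈ s, (wz x (a x) : Lau R X) = mon (∑ x ∈ s, Pi.single x (a x)) := by
    intro s
    induction s using Finset.induction_on with
    | empty => simp [mon_zero]
    | insert x s hx ih => rw [Finset.prod_insert hx, Finset.sum_insert hx, ih, wz, mon_mul]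
  rw [h, Finset.univ_sum_single]

lemma pbar_map {X Y : Type*} [Fintype X] [DecidableEq X] [Fintype Y] [DecidableEq Y]
    (c : Fin n → X) (f : X → Y) :
    pbar K (f ∘ c) = (pbar K c).map (sub f : Lau K X →ₐ[K] Lau K Y).toRingHom := by
  rw [pbar, pbar, Polynomial.map_prod]
  refine Finset.prod_congr rfl fun k _ => ?_
  rw [Polynomial.map_sub, Polynomial.map_X, Polynomial.map_C]
  congr 2
  exact (sub_w f (c k)).symm

variable (c : Fin n → H)

/-- The heavy roots. -/
abbrev cc (l : ℕ) (c : Fin n → H) : Fin n → Fin l ⊕ H := Sum.inr ∘ c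

lemma pbar_cc_coeff (κ : ℕ) : (pbar K (cc l c)).coeff κ = sub (cc l c) ((pbar K (id : Fin n → Fin n)).coeff κ) := by
  have h := pbar_map (K := K) (id : Fin n → Fin n) (cc l c)
  have h2 : pbar K (cc l c ∘ (id : Fin n → Fin n)) = pbar K (cc l c) := rfl
  rw [h2] at h
  rw [h, Polynomial.coeff_map]; rfl

/-- The inverse of the constant coefficient. -/
noncomputable def qinv (K : Type*) [Field K] (n : ℕ) : Lau K (Fin n) :=
  ((pbar_coeff_zero (K := K) (id : Fin n → Fin n)).unit⁻¹ : (Lau K (Fin n))ˣ)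

lemma qinv_mul : qinv K n * (pbar K (id : Fin n → Fin n)).coeff 0 = 1 := by
  rw [qinv]; exact (pbar_coeff_zero (K := K) (id : Fin n → Fin n)).unit.inv_mul

/-- Generators of the finitely generated subring. -/
noncomputable def S0 (K : Type*) [Field K] (l : ℕ) (c : Fin n → H) : Set (BB K (cc l c)) :=
  Set.range (fun j : Fin l => MvPolynomial.C (w (Sum.inl j))) ∪
  Set.range (fun j : Fin l => MvPolynomial.C (wz (Sum.inl j) (-1))) ∪
  Set.range (fun κ : Fin (n + 1) => MvPolynomial.C ((pbar K (cc l c)).coeff κ)) ∪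
  {MvPolynomial.C (sub (cc l c) (qinv K n))} ∪ Set.range MvPolynomial.X

lemma S0_finite : (S0 K l c).Finite := by
  unfold S0
  exact ((((Set.finite_range _).union (Set.finite_range _)).union (Set.finite_range _)).union
    (Set.finite_singleton _)).union (Set.finite_range _)

/-- The finitely generated subring. -/
noncomputable def A0 (K : Type*) [Field K] (l : ℕ) (c : Fin n → H) : Subalgebra K (BB K (cc l c)) :=
  Algebra.adjoin K (S0 K l c)

instance : IsNoetherianRing (A0 K l c) :=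
  isNoetherianRing_of_fg (Subalgebra.fg_def.2 ⟨_, S0_finite c, rfl⟩)

lemma A0_lift {a : BB K (cc l c)} (ha : a ∈ A0 K l c) : ∃ a' ∈ R0 K l c, phi K (cc l c) a' = a := by
  induction ha using Algebra.adjoin_induction with
  | mem x hx =>
    rcases hx with (((⟨j, rfl⟩ | ⟨j, rfl⟩) | ⟨κ, rfl⟩) | hx) | ⟨i, rfl⟩
    · exact ⟨w (Sum.inl j), w_mem_R0 j, by rw [← up_w, phi_up]⟩
    · exact ⟨wz (Sum.inl j) (-1), wz_mem_R0 j _, by rw [← up_wz, phi_up]⟩
    · exact ⟨_, LS_mem_R0 (coeff_mem_LS n κ), by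
        beta_reduce
        rw [phi_up, pbar_cc_coeff]⟩
    · rw [Set.mem_singleton_iff] at hx
      exact ⟨_, LS_mem_R0 (inv_mem_LS n _ qinv_mul), by rw [phi_up, hx]⟩
    · refine ⟨ee (i : ℕ), Subalgebra.algebraMap_mem _ _, ?_⟩
      rw [phi_ee, beta_natCast]
  | algebraMap r =>
    refine ⟨up (algebraMap K _ r), ?_, ?_⟩
    · have := LS_mem_R0 (l := l) (c := c) (Subalgebra.algebraMap_mem (LS K n) r)
      rwa [AlgHom.commutes] at this
    · rw [phi_up]; rfl
  | add x y _ _ hx hy =>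
    obtain ⟨x', hx', rfl⟩ := hx
    obtain ⟨y', hy', rfl⟩ := hy
    exact ⟨x' + y', add_mem hx' hy', map_add _ _ _⟩
  | mul x y _ _ hx hy =>
    obtain ⟨x', hx', rfl⟩ := hx
    obtain ⟨y', hy', rfl⟩ := hy
    exact ⟨x' * y', mul_mem hx' hy', map_mul _ _ _⟩

lemma coeff_mem_A0 (κ : ℕ) : MvPolynomial.C ((pbar K (cc l c)).coeff κ) ∈ A0 K l c := by
  by_cases h : κ < n + 1
  · exact Algebra.subset_adjoin (Or.inl (Or.inl (Or.inr ⟨⟨κ, h⟩, rfl⟩)))
  · have : (pbar K (cc l c)).coeff κ = 0 := Polynomial.coeff_eq_zero_of_natDegree_lt (by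
      rw [pbar_natDegree]; omega)
    rw [this, map_zero]; exact zero_mem _

/-- The heavy variable. -/
noncomputable def uh (K : Type*) [Field K] (l : ℕ) (c : Fin n → H) (h : H) : BB K (cc l c) :=
  MvPolynomial.C (w (Sum.inr h))

/-- The monic polynomial over `A0`. -/
lemma exists_poly : ∃ q : Polynomial (A0 K l c), q.Monic ∧ ∀ k : Fin n,
    q.map (algebraMap (A0 K l c) (BB K (cc l c))) = (pbar K (cc l c)).map MvPolynomial.C := by
  have h1 : (pbar K (cc l c)).map (MvPolynomial.C : Lau K (Fin l ⊕ H) →+* BB K (cc l c)) ∈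
      Polynomial.lifts (algebraMap (A0 K l c) (BB K (cc l c))) := by
    rw [Polynomial.lifts_iff_coeff_lifts]
    intro κ
    rw [Polynomial.coeff_map]
    exact ⟨⟨_, coeff_mem_A0 c κ⟩, rfl⟩
  obtain ⟨q, hq1, _, hq3⟩ := Polynomial.lifts_and_natDegree_eq_and_monic h1 ((pbar_monic _).map _)
  exact ⟨q, hq3, fun _ => hq1⟩

lemma pbar_eval_gen {X : Type*} [Fintype X] [DecidableEq X] (c : Fin n → X) {B : Type*} [CommRing B]
    (f : Lau K X →+* B) (k : Fin n) : Polynomial.eval (f (w (c k))) ((pbar K c).map f) = 0 := by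
  rw [pbar, Polynomial.map_prod, Polynomial.eval_prod]
  refine Finset.prod_eq_zero (Finset.mem_univ k) ?_
  rw [Polynomial.map_sub, Polynomial.map_X, Polynomial.map_C, Polynomial.eval_sub, Polynomial.eval_X,
    Polynomial.eval_C]
  exact _root_.sub_self _

lemma pbar_eval (k : Fin n) : Polynomial.eval (uh K l c (c k))
    ((pbar K (cc l c)).map (MvPolynomial.C : Lau K (Fin l ⊕ H) →+* BB K (cc l c))) = 0 :=
  pbar_eval_gen (cc l c) _ k

lemma uh_integral (k : Fin n) : IsIntegral (A0 K l c) (uh K l c (c k)) := by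
  obtain ⟨q, hq1, hq2⟩ := exists_poly (K := K) (l := l) c
  refine ⟨q, hq1, ?_⟩
  rw [← Polynomial.eval_map, hq2 k, pbar_eval]

/-- The finite extension. -/
noncomputable def A1 (K : Type*) [Field K] (l : ℕ) (c : Fin n → H) : Subalgebra (A0 K l c) (BB K (cc l c)) :=
  Algebra.adjoin (A0 K l c) (Set.range (uh K l c))

lemma A0_le_A1 {a : BB K (cc l c)} (ha : a ∈ A0 K l c) : a ∈ A1 K l c :=
  Subalgebra.algebraMap_mem (A1 K l c) (⟨a, ha⟩ : A0 K l c)

lemma uh_mem (h : H) : uh K l c h ∈ A1 K l c := Algebra.subset_adjoin ⟨h, rfl⟩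

lemma uh_inv_mem (k : Fin n) : MvPolynomial.C (wz (Sum.inr (c k)) (-1)) ∈ A1 K l c := by
  set P := (pbar K (cc l c)).map (MvPolynomial.C : Lau K (Fin l ⊕ H) →+* BB K (cc l c)) with hP
  have h1 := pbar_eval (K := K) (l := l) c k
  rw [← hP, ← Polynomial.X_mul_divX_add P, Polynomial.eval_add, Polynomial.eval_mul, Polynomial.eval_X,
    Polynomial.eval_C] at h1
  have h2 : MvPolynomial.C (wz (Sum.inr (c k)) (-1)) * uh K l c (c k) = 1 := by
    rw [uh, ← map_mul, w, ← wz_add]; simp [wz_zero]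
  have h3 : MvPolynomial.C (sub (cc l c) (qinv K n)) * P.coeff 0 = 1 := by
    rw [hP, Polynomial.coeff_map, pbar_cc_coeff, ← map_mul, ← map_mul, qinv_mul, map_one, map_one]
  have h4 : MvPolynomial.C (wz (Sum.inr (c k)) (-1)) =
      -(MvPolynomial.C (sub (cc l c) (qinv K n)) * Polynomial.eval (uh K l c (c k)) P.divX) := by
    linear_combination (-(MvPolynomial.C (wz (Sum.inr (c k)) (-1))) : BB K (cc l c)) * h3 +
      (MvPolynomial.C (wz (Sum.inr (c k)) (-1)) * MvPolynomial.C (sub (cc l c) (qinv K n)) : BB K (cc l c)) * h1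
      - (MvPolynomial.C (sub (cc l c) (qinv K n)) * Polynomial.eval (uh K l c (c k)) P.divX) * h2
  have h5 : (-(MvPolynomial.C (sub (cc l c) (qinv K n)) * Polynomial.eval (uh K l c (c k)) P.divX) :
      BB K (cc l c)) = algebraMap K (BB K (cc l c)) (-1) *
        (MvPolynomial.C (sub (cc l c) (qinv K n)) * Polynomial.eval (uh K l c (c k)) P.divX) := by
    rw [map_neg, map_one]; ring
  rw [h4, h5]
  refine mul_mem (A0_le_A1 c (Subalgebra.algebraMap_mem _ _)) (mul_mem
    (A0_le_A1 c (Algebra.subset_adjoin (Or.inl (Or.inr rfl)))) ?_)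
  rw [Polynomial.eval_eq_sum_range]
  refine sum_mem fun κ _ => mul_mem ?_ (pow_mem (uh_mem c _) _)
  rw [Polynomial.coeff_divX, hP, Polynomial.coeff_map]
  exact A0_le_A1 c (coeff_mem_A0 c _)

lemma A1_eq_top (hc : Function.Surjective c) : A1 K l c = ⊤ := by
  rw [eq_top_iff]
  rintro b -
  have hz : ∀ (x : Fin l ⊕ H), MvPolynomial.C (w x) ∈ A1 K l c → MvPolynomial.C (wz x (-1)) ∈ A1 K l c →
      ∀ m : ℤ, MvPolynomial.C (wz x m) ∈ A1 K l c := by
    intro x h1 h2 m
    obtain ⟨k, rfl | rfl⟩ := m.eq_nat_or_neg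
    · rw [wz_natCast, map_pow]; exact pow_mem h1 _
    · have : (wz x (-(k : ℤ)) : Lau K (Fin l ⊕ H)) = wz x (-1) ^ k := by
        induction k with
        | zero => simp [wz_zero]
        | succ k ih => rw [pow_succ, ← ih, ← wz_add]; push_cast; congr 1; ring
      rw [this, map_pow]; exact pow_mem h2 _
  have hx : ∀ (x : Fin l ⊕ H) (m : ℤ), MvPolynomial.C (wz x m) ∈ A1 K l c := by
    intro x m
    rcases x with j | h
    · exact hz _ (A0_le_A1 c (Algebra.subset_adjoin (Or.inl (Or.inl (Or.inl (Or.inl ⟨j, rfl⟩))))))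
        (A0_le_A1 c (Algebra.subset_adjoin (Or.inl (Or.inl (Or.inl (Or.inr ⟨j, rfl⟩)))))) m
    · obtain ⟨k, rfl⟩ := hc h
      exact hz _ (uh_mem c _) (uh_inv_mem c k) m
  induction b using MvPolynomial.induction_on with
  | C r =>
    induction r using lau_induction with
    | h0 => rw [map_zero]; exact zero_mem _
    | ha x y hx hy => rw [map_add]; exact add_mem hx hy
    | hm a =>
      rw [mon_eq_prod, map_prod]
      exact prod_mem fun x _ => hx x _
    | hs t x hx =>
      have e : (MvPolynomial.C (t • x) : BB K (cc l c)) = algebraMap K (BB K (cc l c)) t * MvPolynomial.C x := by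
        rw [← Algebra.smul_def]
        exact map_smul (IsScalarTower.toAlgHom K (Lau K (Fin l ⊕ H)) (BB K (cc l c))) t x
      rw [e]
      exact mul_mem (A0_le_A1 c (Subalgebra.algebraMap_mem _ _)) hx
  | add p q hp hq => exact add_mem hp hq
  | mul_X p i hp => exact mul_mem hp (A0_le_A1 c (Algebra.subset_adjoin (Or.inr ⟨i, rfl⟩)))

lemma BB_finite (hc : Function.Surjective c) : Module.Finite (A0 K l c) (BB K (cc l c)) := by
  have h : (A1 K l c).toSubmodule.FG := by
    refine fg_adjoin_of_finite (R := A0 K l c) (s := Set.range (uh K l c)) (Set.finite_range _) ?_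
    rintro _ ⟨h, rfl⟩
    obtain ⟨k, rfl⟩ := hc h
    exact uh_integral c k
  rw [A1_eq_top c hc, Algebra.top_toSubmodule] at h
  exact ⟨h⟩

/-- Chains of `R0`-submodules of `Γ → P` containing the recurrence ideal stabilize. -/
theorem NOE {Γ : Type*} [Finite Γ] (hc : Function.Surjective c)
    (Q : ℕ → Submodule (R0 K l c) (Γ → PP K (Fin l ⊕ H))) (hmono : Monotone Q)
    (hrr : ∀ j z, (∀ γ, z γ ∈ rr K (cc l c)) → z ∈ Q j) : ∃ j₀, ∀ j, Q j ≤ Q j₀ := by
  have : Module.Finite (A0 K l c) (BB K (cc l c)) := BB_finite c hc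
  have hN : IsNoetherian (A0 K l c) (BB K (cc l c)) :=
    isNoetherian_of_isNoetherianRing_of_finite (A0 K l c) (BB K (cc l c))
  have hN2 : IsNoetherian (A0 K l c) (Γ → BB K (cc l c)) :=
    isNoetherian_pi' (R := A0 K l c) (M := BB K (cc l c)) (ι := Γ)
  let P : ℕ → Submodule (A0 K l c) (Γ → BB K (cc l c)) := fun j =>
    { carrier := {y | ∃ z ∈ Q j, ∀ γ, phi K (cc l c) (z γ) = y γ}
      add_mem' := by
        rintro y y' ⟨z, hz, h⟩ ⟨z', hz', h'⟩
        exact ⟨z + z', add_mem hz hz', fun γ => by rw [Pi.add_apply, map_add, h, h', Pi.add_apply]⟩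
      zero_mem' := ⟨0, zero_mem _, fun γ => by rw [Pi.zero_apply, map_zero, Pi.zero_apply]⟩
      smul_mem' := by
        rintro ⟨a, ha⟩ y ⟨z, hz, h⟩
        obtain ⟨a', ha', rfl⟩ := A0_lift c ha
        refine ⟨(⟨a', ha'⟩ : R0 K l c) • z, Submodule.smul_mem _ _ hz, fun γ => ?_⟩
        have e1 : ((⟨a', ha'⟩ : R0 K l c) • z) γ = a' * z γ := rfl
        have e2 : ((⟨phi K (cc l c) a', ha⟩ : A0 K l c) • y) γ = phi K (cc l c) a' * y γ := rfl
        rw [e1, e2, map_mul, h] }
  have hP : Monotone P := by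
    rintro a b hab y ⟨z, hz, h⟩
    exact ⟨z, hmono hab hz, h⟩
  obtain ⟨j₀, hj₀⟩ := (monotone_stabilizes_iff_noetherian (R := A0 K l c)
    (M := Γ → BB K (cc l c))).2 hN2 ⟨P, hP⟩
  refine ⟨j₀, fun j z hz => ?_⟩
  rcases le_total j j₀ with h | h
  · exact hmono h hz
  · have h1 : (fun γ => phi K (cc l c) (z γ)) ∈ P j := ⟨z, hz, fun γ => rfl⟩
    have h2 : P j₀ = P j := hj₀ j h
    rw [← h2] at h1
    obtain ⟨z', hz', h'⟩ := h1
    have h3 : z - z' ∈ Q j₀ := hrr j₀ _ fun γ => by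
      rw [mem_rr_iff, Pi.sub_apply, map_sub, h', _root_.sub_self]
    have := add_mem h3 hz'
    simpa using this

end gens

end WittACC
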