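import Pool.Agent.helper37.WittC.WD

/-!
Iterated light operators with slots.
-/

set_option linter.unusedSectionVars false
set_option linter.unusedVariables false

namespace WittACC

variable {K : Type*} [Field K] {l : ℕ} {H : Type*} [Fintype H] [DecidableEq H] {n : ℕ}

/-- The light part of `DD_m`. -/
noncomputable def LL (lam : Fin l ⊕ H → ℤ) (m : ℤ) :
    PP K (Fin l ⊕ H) →ₗ[Sy K] PP K (Fin l ⊕ H) :=
  ∑ j : Fin l, LinearMap.mulLeft (Sy K) (wz (Sum.inl j) m) ∘ₗ
    (((m * lam (Sum.inl j) : ℤ) : Sy K) • LinearMap.id - dg (ev (Sum.inl j)))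

lemma LL_mon (lam : Fin l ⊕ H → ℤ) (m : ℤ) (f : Fin l ⊕ H → ℤ) :
    LL (K := K) lam m (mon f) = ∑ j : Fin l, ((m * lam (Sum.inl j) - f (Sum.inl j) : ℤ) : Sy K) •
      mon (f + Pi.single (Sum.inl j) m) := by
  rw [LL, LinearMap.sum_apply]
  refine Finset.sum_congr rfl fun j _ => ?_
  rw [LinearMap.comp_apply, LinearMap.sub_apply, LinearMap.smul_apply, LinearMap.id_apply, dg_mon,
    ev_apply, ← sub_smul, LinearMap.mulLeft_apply, mul_smul_comm, wz, mon_mul, add_comm f]
  congr 1
  push_cast; ring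

/-- Iterates. -/
noncomputable def LN (lam : Fin l ⊕ H → ℤ) :
    (s : ℕ) → (Fin s → ℤ) → (PP K (Fin l ⊕ H) →ₗ[Sy K] PP K (Fin l ⊕ H))
  | 0, _ => LinearMap.id
  | s + 1, m => LL lam (m 0) ∘ₗ LN lam s (Fin.tail m)

variable (K) in
/-- The eigenvalues. -/
noncomputable def lamS (lam : Fin l ⊕ H → ℤ) {s : ℕ} (σ : Fin s → Fin l) (a : Fin s) :
    ((Fin l ⊕ H) ⊕ Fin s → ℤ) →+ Sy K :=
  (lam (Sum.inl (σ a))) • ev (Sum.inr a) - ev (Sum.inl (Sum.inl (σ a)))
    - ∑ b : Fin s, if a < b ∧ σ b = σ a then ev (Sum.inr b) else 0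

lemma lamS_apply (lam : Fin l ⊕ H → ℤ) {s : ℕ} (σ : Fin s → Fin l) (a : Fin s) (f : Fin l ⊕ H → ℤ)
    (m : Fin s → ℤ) : lamS K lam σ a (Sum.elim f m) = (m a : Sy K) * lam (Sum.inl (σ a)) - f (Sum.inl (σ a))
      - ∑ b : Fin s, if a < b ∧ σ b = σ a then (m b : Sy K) else 0 := by
  rw [lamS, AddMonoidHom.sub_apply, AddMonoidHom.sub_apply, AddMonoidHom.finsetSum_apply,
    AddMonoidHom.coe_smul, Pi.smul_apply]
  simp only [ev_apply, Sum.elim_inl, Sum.elim_inr, zsmul_eq_mul]
  rw [mul_comm]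
  congr 1
  refine Finset.sum_congr rfl fun b _ => ?_
  split_ifs <;> simp

lemma LN_mon (lam : Fin l ⊕ H → ℤ) (f : Fin l ⊕ H → ℤ) : ∀ (s : ℕ) (m : Fin s → ℤ),
    LN (K := K) lam s m (mon f) = ∑ σ : Fin s → Fin l,
      (∏ a : Fin s, lamS K lam σ a (Sum.elim f m)) • mon (f + push (Sum.inl ∘ σ) m) := by
  intro s
  induction s with
  | zero =>
    intro m
    rw [Fintype.sum_unique]
    simp only [LN, Finset.univ_eq_empty, Finset.prod_empty, one_smul, LinearMap.id_apply]
    have : push (Sum.inl ∘ (default : Fin 0 → Fin l) : Fin 0 → Fin l ⊕ H) m = 0 := by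
      ext y; rw [push_apply]; simp
    rw [this, add_zero]
  | succ s ih =>
    intro m
    rw [← (Fin.consEquiv (fun _ : Fin (s + 1) => Fin l)).sum_comp, Fintype.sum_prod_type,
      Finset.sum_comm]
    simp only [LN, LinearMap.comp_apply, ih, map_sum, map_smul]
    refine Finset.sum_congr rfl fun σ _ => ?_
    rw [LL_mon, Finset.smul_sum]
    refine Finset.sum_congr rfl fun i _ => ?_
    rw [smul_smul]
    have hpush : push (Sum.inl ∘ (Fin.consEquiv (fun _ : Fin (s + 1) => Fin l) (i, σ)) :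
          Fin (s + 1) → Fin l ⊕ H) m
        = push (Sum.inl ∘ σ) (Fin.tail m) + Pi.single (Sum.inl i) (m 0) := by
      ext y
      rw [push_apply, Fin.sum_univ_succ, Pi.add_apply, push_apply]
      simp only [Fin.consEquiv_apply, Fin.cons_zero, Fin.cons_succ, Function.comp]
      rw [add_comm]
      congr 1
      by_cases h : Sum.inl i = y
      · subst h; simp
      · rw [if_neg h, Pi.single_eq_of_ne (Ne.symm h)]
    have hcoef : ∏ a : Fin (s + 1), lamS K lam (Fin.consEquiv (fun _ : Fin (s + 1) => Fin l) (i, σ)) a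
        (Sum.elim f m) = (∏ a : Fin s, lamS K lam σ a (Sum.elim f (Fin.tail m))) *
          ((m 0 * lam (Sum.inl i) - (f + push (Sum.inl ∘ σ : Fin s → Fin l ⊕ H) (Fin.tail m))
            (Sum.inl i) : ℤ) : Sy K) := by
      rw [Fin.prod_univ_succ, mul_comm]
      congr 1
      · refine Finset.prod_congr rfl fun a _ => ?_
        rw [lamS_apply, lamS_apply, Fin.sum_univ_succ]
        simp only [Fin.consEquiv_apply, Fin.cons_succ, Fin.not_lt_zero, false_and, if_false,
          zero_add, Fin.succ_lt_succ_iff]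
        rfl
      · rw [lamS_apply, Fin.sum_univ_succ]
        simp only [Fin.consEquiv_apply, Fin.cons_zero, Fin.cons_succ, lt_self_iff_false, false_and,
          if_false, zero_add, Fin.succ_pos, true_and]
        rw [Pi.add_apply, push_apply]
        push_cast
        rw [_root_.sub_sub]
        congr 2
        refine Finset.sum_congr rfl fun b _ => ?_
        simp only [Function.comp, Sum.inl.injEq]
        rfl
    rw [hpush, hcoef, add_assoc]

/-- The operators with slots. -/
noncomputable def OpG (c : Fin n → H) (lam : Fin l ⊕ H → ℤ) (s : ℕ) :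
    PP K (Fin n ⊕ Fin s) →ₗ[Sy K] (PP K (Fin l ⊕ H) →ₗ[Sy K] PP K (Fin l ⊕ H)) :=
  lin fun a => LinearMap.mulLeft (Sy K) (mon (push (Sum.inr ∘ c) fun k => a (Sum.inl k))) ∘ₗ
    LN lam s fun b => a (Sum.inr b)

/-- The contribution of `σ`. -/
noncomputable def contrS (lam : Fin l ⊕ H → ℤ) {s : ℕ} (σ : Fin s → Fin l)
    (Z : PP K ((Fin l ⊕ H) ⊕ Fin s)) : PP K (Fin l ⊕ H) :=
  sub (Sum.elim id (Sum.inl ∘ σ)) (dg (fun e => ∏ a : Fin s, lamS K lam σ a e) Z)

lemma contrS_add (lam : Fin l ⊕ H → ℤ) {s : ℕ} (σ : Fin s → Fin l)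
    (Z Z' : PP K ((Fin l ⊕ H) ⊕ Fin s)) : contrS lam σ (Z + Z') = contrS lam σ Z + contrS lam σ Z' := by
  rw [contrS, map_add, map_add]; rfl

lemma contrS_smul (lam : Fin l ⊕ H → ℤ) {s : ℕ} (σ : Fin s → Fin l) (t : Sy K)
    (Z : PP K ((Fin l ⊕ H) ⊕ Fin s)) : contrS lam σ (t • Z) = t • contrS lam σ Z := by
  rw [contrS, map_smul, map_smul]; rfl

lemma contrS_zero (lam : Fin l ⊕ H → ℤ) {s : ℕ} (σ : Fin s → Fin l) :
    contrS lam σ (0 : PP K ((Fin l ⊕ H) ⊕ Fin s)) = 0 := by
  rw [contrS, map_zero, map_zero]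

lemma OpG_apply (c : Fin n → H) (lam : Fin l ⊕ H → ℤ) (s : ℕ) (Ψ : PP K (Fin n ⊕ Fin s))
    (F : PP K (Fin l ⊕ H)) : OpG c lam s Ψ F =
      ∑ σ : Fin s → Fin l, contrS lam σ (sub (Sum.map (Sum.inr ∘ c) id) Ψ * sub Sum.inl F) := by
  induction Ψ using lau_induction with
  | h0 => simp [contrS_zero]
  | ha x y hx hy =>
    rw [map_add, LinearMap.add_apply, hx, hy, ← Finset.sum_add_distrib]
    refine Finset.sum_congr rfl fun σ _ => ?_
    rw [← contrS_add, map_add, add_mul]
  | hs t x hx =>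
    rw [map_smul, LinearMap.smul_apply, hx, Finset.smul_sum]
    refine Finset.sum_congr rfl fun σ _ => ?_
    rw [← contrS_smul, map_smul, smul_mul_assoc]
  | hm a =>
    induction F using lau_induction with
    | h0 => simp [contrS_zero]
    | ha x y hx hy =>
      rw [map_add, hx, hy, ← Finset.sum_add_distrib]
      refine Finset.sum_congr rfl fun σ _ => ?_
      rw [← contrS_add, map_add, mul_add]
    | hs t x hx =>
      rw [map_smul, hx, Finset.smul_sum]
      refine Finset.sum_congr rfl fun σ _ => ?_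
      rw [← contrS_smul, map_smul, mul_smul_comm]
    | hm f =>
      rw [OpG, lin_mon, LinearMap.comp_apply, LN_mon, LinearMap.mulLeft_apply, Finset.mul_sum]
      refine Finset.sum_congr rfl fun σ _ => ?_
      rw [sub_mon, sub_mon, mon_mul, contrS, dg_mon, map_smul, sub_mon, mul_smul_comm, mon_mul]
      set d : Fin l ⊕ H → ℤ := push (Sum.inr ∘ c) fun k => a (Sum.inl k) with hd
      have e1 : push (Sum.map (Sum.inr ∘ c) id) a + push Sum.inl f
          = (Sum.elim (d + f) (fun b => a (Sum.inr b)) : (Fin l ⊕ H) ⊕ Fin s → ℤ) := by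
        ext x
        rcases x with x | x
        · rw [Pi.add_apply, push_inl, Sum.elim_inl, Sum.elim_inl, push_apply, Fintype.sum_sum_type,
            hd, Pi.add_apply, push_apply]
          simp
        · rw [Pi.add_apply, push_inl, Sum.elim_inr, Sum.elim_inr, push_apply, Fintype.sum_sum_type]
          simp
      have e2 : ∀ b : Fin s, lamS K lam σ b (Sum.elim (d + f) (fun b => a (Sum.inr b)))
          = lamS K lam σ b (Sum.elim f (fun b => a (Sum.inr b))) := by
        intro b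
        have : d (Sum.inl (σ b)) = 0 := by
          rw [hd, push_apply]; simp
        rw [lamS_apply, lamS_apply, Pi.add_apply, this, zero_add]
      rw [e1]
      congr 1
      · exact (Finset.prod_congr rfl fun b _ => (e2 b).symm)
      · congr 1
        ext x
        rw [push_apply, Fintype.sum_sum_type, Pi.add_apply, Pi.add_apply, push_apply]
        simp [Pi.add_apply, add_assoc]

end WittACC
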