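import Pool.Agent.helper37.WittC.Mem2

/-!
Evaluation of products of diagonal operators.
-/

set_option linter.unusedSectionVars false
set_option linter.unusedVariables false

namespace WittACC

section diag

variable {K : Type*} [CommRing K] {X : Type*} {ι : Type*} [DecidableEq ι]

lemma dg_prod_insert (Λ : ι → (X → ℤ) → K) {i : ι} {S : Finset ι} (hi : i ∉ S) (y : Lau K X) :
    dg (fun c => ∏ j ∈ insert i S, Λ j c) y = dg (Λ i) (dg (fun c => ∏ j ∈ S, Λ j c) y) := by
  rw [← dg_mul_apply]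
  congr 2
  ext c; rw [Finset.prod_insert hi]; rfl

lemma dg_prod_empty (Λ : ι → (X → ℤ) → K) (y : Lau K X) :
    dg (fun c => ∏ j ∈ (∅ : Finset ι), Λ j c) y = y := by
  have : (fun c : X → ℤ => ∏ j ∈ (∅ : Finset ι), Λ j c) = 1 := by ext; simp
  rw [this, dg_one]; rfl

lemma dg_prod_union (Λ : ι → (X → ℤ) → K) {S T : Finset ι} (h : Disjoint S T) (y : Lau K X) :
    dg (fun c => ∏ j ∈ S ∪ T, Λ j c) y = dg (fun c => ∏ j ∈ S, Λ j c) (dg (fun c => ∏ j ∈ T, Λ j c) y) := by
  rw [← dg_mul_apply]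
  congr 2
  ext c; rw [Finset.prod_union h]; rfl

/-- Constants pass through products of derivations. -/
lemma dg_prod_mul_const (Λ : ι → (X → ℤ) →+ K) (g : Lau K X) (S : Finset ι)
    (h : ∀ i ∈ S, dg (Λ i) g = 0) : ∀ y, dg (fun c => ∏ i ∈ S, Λ i c) (g * y)
      = g * dg (fun c => ∏ i ∈ S, Λ i c) y := by
  induction S using Finset.induction_on with
  | empty =>
    intro y
    rw [dg_prod_empty (fun i => (Λ i : (X → ℤ) → K)), dg_prod_empty (fun i => (Λ i : (X → ℤ) → K))]
  | insert i S hi ih =>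
    intro y
    rw [dg_prod_insert (fun i => (Λ i : (X → ℤ) → K)) hi, dg_prod_insert (fun i => (Λ i : (X → ℤ) → K)) hi,
      ih (fun j hj => h j (Finset.mem_insert_of_mem hj)), dg_leib, h i (Finset.mem_insert_self _ _),
      zero_mul, zero_add]

lemma dg_span_pres (M : (X → ℤ) →+ K) (s : Set (Lau K X)) (hM : ∀ g ∈ s, dg M g = 0) {z : Lau K X}
    (hz : z ∈ Ideal.span s) : dg M z ∈ Ideal.span s := by
  refine Submodule.span_induction (p := fun z _ => dg M z ∈ Ideal.span s) ?_ ?_ ?_ ?_ hz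
  · intro g hg
    rw [hM g hg]; exact zero_mem _
  · simp
  · intro x y _ _ hx hy; rw [map_add]; exact add_mem hx hy
  · intro a x hx0 hx
    rw [smul_eq_mul, dg_leib]
    exact add_mem (Ideal.mul_mem_left _ _ hx0) (Ideal.mul_mem_left _ _ hx)

lemma dg_prod_span_pres (Λ : ι → (X → ℤ) →+ K) (s : Set (Lau K X)) (S : Finset ι)
    (hM : ∀ i ∈ S, ∀ g ∈ s, dg (Λ i) g = 0) : ∀ {z : Lau K X},
    z ∈ Ideal.span s → dg (fun c => ∏ i ∈ S, Λ i c) z ∈ Ideal.span s := by
  induction S using Finset.induction_on with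
  | empty =>
    intro z hz
    rw [dg_prod_empty (fun i => (Λ i : (X → ℤ) → K))]; exact hz
  | insert i S hi ih =>
    intro z hz
    rw [dg_prod_insert (fun i => (Λ i : (X → ℤ) → K)) hi]
    exact dg_span_pres _ _ (hM i (Finset.mem_insert_self _ _))
      (ih (fun j hj => hM j (Finset.mem_insert_of_mem hj)) hz)

/-- First order factors. -/
lemma dg_prod_one (Λ Λ' : ι → (X → ℤ) →+ K) (g : ι → Lau K X) (S : Finset ι)
    (h1 : ∀ i ∈ S, ∀ j ∈ S, i ≠ j → dg (Λ i) (g j) = 0) (h2 : ∀ i ∈ S, ∀ j ∈ S, dg (Λ' i) (g j) = 0)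
    (h3 : ∀ i ∈ S, ∀ j ∈ S, i ≠ j → dg (Λ' i) (dg (Λ j) (g j)) = 0) : ∀ y : Lau K X,
      dg (fun c => ∏ i ∈ S, (Λ i c * Λ' i c)) ((∏ i ∈ S, g i) * y)
        - (∏ i ∈ S, dg (Λ i) (g i)) * dg (fun c => ∏ i ∈ S, Λ' i c) y ∈ Ideal.span (g '' S) := by
  induction S using Finset.induction_on with
  | empty =>
    intro y
    rw [dg_prod_empty (fun i c => Λ i c * Λ' i c), dg_prod_empty (fun i => (Λ' i : (X → ℤ) → K))]
    simp
  | insert i S hi ih =>
    intro y
    have hm : ∀ j ∈ S, j ∈ insert i S := fun j hj => Finset.mem_insert_of_mem hj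
    have hii := Finset.mem_insert_self i S
    have hne : ∀ j ∈ S, i ≠ j := by rintro j hj rfl; exact hi hj
    have e1 : ∀ z : Lau K X, dg (fun c => ∏ j ∈ insert i S, (Λ j c * Λ' j c)) z
        = dg (Λ i) (dg (Λ' i) (dg (fun c => ∏ j ∈ S, (Λ j c * Λ' j c)) z)) := by
      intro z
      rw [← dg_mul_apply, ← dg_mul_apply]
      congr 2
      ext c; rw [Finset.prod_insert hi]; simp [mul_assoc]
    rw [e1, dg_prod_insert (fun i => (Λ' i : (X → ℤ) → K)) hi, Finset.prod_insert hi, Finset.prod_insert hi]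
    have e2 : (g i * ∏ j ∈ S, g j) * y = (∏ j ∈ S, g j) * (g i * y) := by ring
    rw [e2]
    have key := ih (fun a ha b hb => h1 a (hm a ha) b (hm b hb))
      (fun a ha b hb => h2 a (hm a ha) b (hm b hb)) (fun a ha b hb => h3 a (hm a ha) b (hm b hb)) (g i * y)
    rw [dg_prod_mul_const Λ' (g i) S (fun j hj => h2 j (hm j hj) i hii)] at key
    set P := ∏ j ∈ S, dg (Λ j) (g j) with hP
    set Y := dg (fun c => ∏ j ∈ S, Λ' j c) y with hY
    have hPz : dg (Λ' i) P = 0 := by
      have : ∀ T : Finset ι, T ⊆ S → dg (Λ' i) (∏ j ∈ T, dg (Λ j) (g j)) = 0 := by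
        intro T
        induction T using Finset.induction_on with
        | empty =>
          intro _
          rw [Finset.prod_empty, ← mon_zero, dg_mon, map_zero, zero_smul]
        | insert j T hj ih2 =>
          intro hT
          rw [Finset.prod_insert hj, dg_leib, ih2 (fun x hx => hT (Finset.mem_insert_of_mem hx)),
            h3 i hii j (hm j (hT (Finset.mem_insert_self _ _))) (hne j (hT (Finset.mem_insert_self _ _))),
            zero_mul, mul_zero, add_zero]
      exact this S (Finset.Subset.refl S)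
    have k1 := dg_span_pres (Λ i) (g '' S) (by rintro _ ⟨j, hj, rfl⟩; exact h1 i hii j (hm j hj) (hne j hj))
      (dg_span_pres (Λ' i) (g '' S) (by rintro _ ⟨j, hj, rfl⟩; exact h2 i hii j (hm j hj)) key)
    rw [map_sub, map_sub] at k1
    have e3 : dg (Λ' i) (P * (g i * Y)) = g i * (P * dg (Λ' i) Y) := by
      rw [dg_leib, dg_leib, hPz, h2 i hii i hii]; ring
    have e4 : dg (Λ i) (g i * (P * dg (Λ' i) Y)) = dg (Λ i) (g i) * P * dg (Λ' i) Y
        + g i * dg (Λ i) (P * dg (Λ' i) Y) := by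
      rw [dg_leib]; ring
    rw [e3, e4] at k1
    have hsub : Ideal.span (g '' (S : Set ι)) ≤ Ideal.span (g '' ((insert i S : Finset ι) : Set ι)) :=
      Ideal.span_mono (Set.image_mono (by simp))
    have k2 := hsub k1
    have k3 : g i * dg (Λ i) (P * dg (Λ' i) Y) ∈ Ideal.span (g '' ((insert i S : Finset ι) : Set ι)) :=
      Ideal.mul_mem_right _ _ (Ideal.subset_span ⟨i, by simp, rfl⟩)
    have k4 := add_mem k2 k3
    convert k4 using 1
    ring

end diag

end WittACC
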