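import Pool.Agent.helper37.WittC.Pair

/-!
Evaluation of the slot operators.
-/

set_option linter.unusedSectionVars false
set_option linter.unusedVariables false

namespace WittACC

variable {K : Type*} [Field K] {l : ℕ} {H : Type*} [Fintype H] [DecidableEq H] {n : ℕ}

section vanish

variable (lam : Fin l ⊕ H → ℤ)

lemma contrS_eq_zero {s : ℕ} (σ : Fin s → Fin l) {a b : Fin s} (hab : σ a = σ b)
    {Z : PP K ((Fin l ⊕ H) ⊕ Fin s)} (hZ : (w (Sum.inr a) - w (Sum.inr b)) ^ (s + 1) ∣ Z) :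
    contrS lam σ Z = 0 := by
  have h1 : (w (Sum.inr a) - w (Sum.inr b) : PP K ((Fin l ⊕ H) ⊕ Fin s)) ^
      (1 + (Finset.univ : Finset (Fin s)).card) ∣ Z := by
    rw [Finset.card_univ, Fintype.card_fin, add_comm]; exact hZ
  obtain ⟨c, hc⟩ := dg_prod_dvd Finset.univ (lamS K lam σ) _ 1 _ h1
  rw [contrS, hc, map_mul, pow_one, map_sub, sub_w, sub_w]
  simp [hab]

lemma lamS_single {s : ℕ} (σ : Fin s → Fin l) (a b : Fin s) :
    lamS K lam σ a (Pi.single (Sum.inr b) 1) = (if a = b then (lam (Sum.inl (σ a)) : Sy K) else 0)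
      - (if a < b ∧ σ b = σ a then 1 else 0) := by
  have h : (Pi.single (Sum.inr b) 1 : (Fin l ⊕ H) ⊕ Fin s → ℤ) = Sum.elim (0 : Fin l ⊕ H → ℤ) (Pi.single b 1) := by
    ext c; rcases c with c | c
    · simp
    · by_cases hc : c = b
      · subst hc; simp
      · simp [hc]
  rw [h, lamS_apply]
  congr 1
  · by_cases hab : a = b
    · subst hab; simp
    · simp [hab]
  · rw [Finset.sum_eq_single b]
    · simp
    · intro c _ hc; simp [hc]
    · intro h; exact absurd (Finset.mem_univ _) h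

lemma dg_lamS_w {s : ℕ} (σ : Fin s → Fin l) (a b : Fin s) :
    dg (lamS K lam σ a) (w (Sum.inr b) : PP K ((Fin l ⊕ H) ⊕ Fin s)) =
      ((if a = b then (lam (Sum.inl (σ a)) : Sy K) else 0)
        - (if a < b ∧ σ b = σ a then 1 else 0) : Sy K) • w (Sum.inr b) := by
  rw [w, dg_wz, lamS_single]

end vanish

section pairs

variable (lam : Fin l ⊕ H → ℤ) (τ : Equiv.Perm (Fin l))

/-- The pair difference. -/
noncomputable def gj (K : Type*) [Field K] (l : ℕ) (H : Type*) [Fintype H] [DecidableEq H] (j : Fin l) :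
    PP K ((Fin l ⊕ H) ⊕ Fin (l + l)) := w (Sum.inr (sL l j)) - w (Sum.inr (sR l j))

/-- Left eigenvalue. -/
noncomputable abbrev eL' (K : Type*) [Field K] (lam : Fin l ⊕ H → ℤ) (τ : Equiv.Perm (Fin l)) (i : Fin l) :=
  lamS K lam (τ ∘ pq l) (sL l i)
/-- Right eigenvalue. -/
noncomputable abbrev eR' (K : Type*) [Field K] (lam : Fin l ⊕ H → ℤ) (τ : Equiv.Perm (Fin l)) (i : Fin l) :=
  lamS K lam (τ ∘ pq l) (sR l i)

lemma eL_wL (i j : Fin l) : dg (eL' K lam τ i) (w (Sum.inr (sL l j)) : PP K ((Fin l ⊕ H) ⊕ Fin (l + l)))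
    = (if i = j then (lam (Sum.inl (τ i)) : Sy K) else 0) • w (Sum.inr (sL l j)) := by
  rw [dg_lamS_w]
  by_cases h : i = j
  · subst h; simp
  · have h1 : sL l i ≠ sL l j := fun h' => h (sL_inj.1 h')
    have h2 : τ j ≠ τ i := fun h' => h (τ.injective h').symm
    simp [h, h1, h2]

lemma eL_wR (i j : Fin l) : dg (eL' K lam τ i) (w (Sum.inr (sR l j)) : PP K ((Fin l ⊕ H) ⊕ Fin (l + l)))
    = (if i = j then (-1 : Sy K) else 0) • w (Sum.inr (sR l j)) := by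
  rw [dg_lamS_w]
  have h0 : sL l i ≠ sR l j := sL_ne_sR i j
  by_cases h : i = j
  · subst h
    simp [h0, sL_lt_sR i i]
  · have h2 : τ j ≠ τ i := fun h' => h (τ.injective h').symm
    simp [h, h0, h2]

lemma eR_wL (i j : Fin l) : dg (eR' K lam τ i) (w (Sum.inr (sL l j)) : PP K ((Fin l ⊕ H) ⊕ Fin (l + l)))
    = 0 := by
  rw [dg_lamS_w]
  have h0 : sR l i ≠ sL l j := (sL_ne_sR j i).symm
  have h1 : ¬ sR l i < sL l j := not_lt.2 (sL_lt_sR j i).le
  simp [h0, h1]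

lemma eR_wR (i j : Fin l) : dg (eR' K lam τ i) (w (Sum.inr (sR l j)) : PP K ((Fin l ⊕ H) ⊕ Fin (l + l)))
    = (if i = j then (lam (Sum.inl (τ i)) : Sy K) else 0) • w (Sum.inr (sR l j)) := by
  rw [dg_lamS_w]
  by_cases h : i = j
  · subst h; simp
  · have h1 : sR l i ≠ sR l j := fun h' => h (sR_inj.1 h')
    have h2 : τ j ≠ τ i := fun h' => h (τ.injective h').symm
    simp [h, h1, h2]

lemma eL_gj {i j : Fin l} (h : i ≠ j) : dg (eL' K lam τ i) (gj K l H j) = 0 := by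
  rw [gj, map_sub, eL_wL, eL_wR, if_neg h, if_neg h]; simp

lemma eR_gj {i j : Fin l} (h : i ≠ j) : dg (eR' K lam τ i) (gj K l H j) = 0 := by
  rw [gj, map_sub, eR_wL, eR_wR, if_neg h]; simp

lemma eL_gj_self (j : Fin l) : dg (eL' K lam τ j) (gj K l H j) =
    (lam (Sum.inl (τ j)) : Sy K) • w (Sum.inr (sL l j)) + w (Sum.inr (sR l j)) := by
  rw [gj, map_sub, eL_wL, eL_wR, if_pos rfl, if_pos rfl]
  rw [neg_smul, one_smul, sub_neg_eq_add]

lemma eR_gj_self (j : Fin l) : dg (eR' K lam τ j) (gj K l H j) =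
    -((lam (Sum.inl (τ j)) : Sy K) • w (Sum.inr (sR l j))) := by
  rw [gj, map_sub, eR_wL, eR_wR, if_pos rfl, zero_sub]

lemma eR_eL_gj {i j : Fin l} (h : i ≠ j) : dg (eR' K lam τ i) (dg (eL' K lam τ j) (gj K l H j)) = 0 := by
  rw [eL_gj_self, map_add, map_smul, eR_wL, eR_wR, if_neg h]; simp

lemma sub_gj (j : Fin l) : sub (Sum.elim id (Sum.inl ∘ (τ ∘ pq l))) (gj K l H j)
    = (0 : PP K (Fin l ⊕ H)) := by
  rw [gj, map_sub, sub_w, sub_w]; simp

lemma sub_span_gj (S : Set (Fin l)) {z : PP K ((Fin l ⊕ H) ⊕ Fin (l + l))}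
    (hz : z ∈ Ideal.span (gj K l H '' S)) :
    sub (Sum.elim id (Sum.inl ∘ (τ ∘ pq l))) z = (0 : PP K (Fin l ⊕ H)) := by
  have : Ideal.span (gj K l H '' S) ≤ RingHom.ker (sub (Sum.elim id (Sum.inl ∘ (τ ∘ pq l))) :
      PP K ((Fin l ⊕ H) ⊕ Fin (l + l)) →ₐ[Sy K] PP K (Fin l ⊕ H)) := by
    rw [Ideal.span_le]
    rintro _ ⟨j, -, rfl⟩
    rw [SetLike.mem_coe, RingHom.mem_ker, sub_gj]
  exact this hz

lemma contrS_slots (Z : PP K ((Fin l ⊕ H) ⊕ Fin (l + l))) (S : Finset (Fin l)) :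
    contrS lam (τ ∘ pq l) Z = sub (Sum.elim id (Sum.inl ∘ (τ ∘ pq l)))
      (dg (fun e => ∏ i ∈ Sᶜ, (eL' K lam τ i e * eR' K lam τ i e))
        (dg (fun e => ∏ i ∈ S, (eL' K lam τ i e * eR' K lam τ i e)) Z)) := by
  rw [contrS, ← dg_prod_union (fun i e => eL' K lam τ i e * eR' K lam τ i e)
    (disjoint_compl_left : Disjoint Sᶜ S)]
  congr 2
  have : (fun e : (Fin l ⊕ H) ⊕ Fin (l + l) → ℤ => ∏ a : Fin (l + l), lamS K lam (τ ∘ pq l) a e)
      = fun e => ∏ j ∈ Sᶜ ∪ S, (eL' K lam τ j e * eR' K lam τ j e) := by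
    ext1 e
    rw [prod_slots, ← Finset.prod_mul_distrib, Finset.union_comm, Finset.union_compl]
  rw [this]

/-- Vanishing for permutations not preserving the type. -/
lemma contrS_type_zero {j : Fin l} (hj : lam (Sum.inl (τ j)) = 0)
    (Z : PP K ((Fin l ⊕ H) ⊕ Fin (l + l))) : contrS lam (τ ∘ pq l) (gj K l H j ^ 2 * Z) = 0 := by
  rw [contrS_slots lam τ _ {j}]
  have hR : dg (eR' K lam τ j) (gj K l H j) = 0 := by
    rw [eR_gj_self, hj]; simp
  have h1 : dg (fun e => ∏ i ∈ ({j} : Finset (Fin l)), (eL' K lam τ i e * eR' K lam τ i e))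
      (gj K l H j ^ 2 * Z) ∈ Ideal.span (gj K l H '' {j}) := by
    have e1 : dg (fun e => ∏ i ∈ ({j} : Finset (Fin l)), (eL' K lam τ i e * eR' K lam τ i e))
        (gj K l H j ^ 2 * Z) = dg (eL' K lam τ j) (dg (eR' K lam τ j) (gj K l H j ^ 2 * Z)) := by
      rw [← dg_mul_apply]
      congr 2
      ext e; rw [Finset.prod_singleton]; rfl
    rw [e1]
    have e2 : dg (eR' K lam τ j) (gj K l H j ^ 2 * Z) = gj K l H j ^ 2 * dg (eR' K lam τ j) Z := by
      rw [dg_leib, pow_two, dg_leib, hR]; ring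
    rw [e2]
    obtain ⟨y, hy⟩ := dg_pow_dvd (eL' K lam τ j) (gj K l H j) (dg (eR' K lam τ j) Z) 1
    rw [hy, pow_one]
    exact Ideal.mul_mem_right _ _ (Ideal.subset_span ⟨j, rfl, rfl⟩)
  refine sub_span_gj τ {j} ?_
  have e3 : ∀ z : PP K ((Fin l ⊕ H) ⊕ Fin (l + l)),
      dg (fun e => ∏ i ∈ ({j} : Finset (Fin l))ᶜ, (eL' K lam τ i e * eR' K lam τ i e)) z
      = dg (fun e => ∏ i ∈ ({j} : Finset (Fin l))ᶜ, eL' K lam τ i e)
          (dg (fun e => ∏ i ∈ ({j} : Finset (Fin l))ᶜ, eR' K lam τ i e) z) := by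
    intro z
    rw [← dg_mul_apply]
    congr 2
    ext e; rw [Finset.prod_mul_distrib]; rfl
  rw [e3]
  refine dg_prod_span_pres (eL' K lam τ) _ _ ?_ (dg_prod_span_pres (eR' K lam τ) _ _ ?_ h1)
  · rintro i hi _ ⟨_, rfl, rfl⟩
    exact eL_gj lam τ (by simpa using hi)
  · rintro i hi _ ⟨_, rfl, rfl⟩
    exact eR_gj lam τ (by simpa using hi)

end pairs

end WittACC
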