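import Pool.Agent.helper37.WittC.Pair2

/-!
The main formula for the slot operators.
-/

set_option linter.unusedSectionVars false
set_option linter.unusedVariables false

namespace WittACC

variable {K : Type*} [Field K] {l : ℕ} {H : Type*} [Fintype H] [DecidableEq H] {n : ℕ}

section defs

/-- Light points of weight zero. -/
def S1 (lam : Fin l ⊕ H → ℤ) : Finset (Fin l) := Finset.univ.filter fun j => lam (Sum.inl j) = 0

lemma mem_S1 {lam : Fin l ⊕ H → ℤ} {j : Fin l} : j ∈ S1 lam ↔ lam (Sum.inl j) = 0 := by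
  simp [S1]

/-- Type preserving permutations. -/
def Gm (lam : Fin l ⊕ H → ℤ) : Subgroup (Equiv.Perm (Fin l)) where
  carrier := {τ | ∀ j, lam (Sum.inl (τ j)) = 0 ↔ lam (Sum.inl j) = 0}
  mul_mem' := fun {a b} ha hb j => by
    rw [Equiv.Perm.mul_apply]; exact (ha _).trans (hb _)
  one_mem' := fun j => Iff.rfl
  inv_mem' := fun {a} ha j => by
    have h1 := ha (a⁻¹ j)
    have h2 : a (a⁻¹ j) = j := a.apply_symm_apply j
    rw [h2] at h1
    exact h1.symm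

lemma mem_Gm {lam : Fin l ⊕ H → ℤ} {τ : Equiv.Perm (Fin l)} :
    τ ∈ Gm lam ↔ ∀ j, lam (Sum.inl (τ j)) = 0 ↔ lam (Sum.inl j) = 0 := Iff.rfl

lemma Gm_S1 {lam : Fin l ⊕ H → ℤ} {τ : Equiv.Perm (Fin l)} (hτ : τ ∈ Gm lam) (j : Fin l) :
    j ∈ S1 lam ↔ τ j ∈ S1 lam := by
  rw [mem_S1, mem_S1]; exact (hτ j).symm

lemma exists_of_notMem_Gm {lam : Fin l ⊕ H → ℤ} {τ : Equiv.Perm (Fin l)} (hτ : τ ∉ Gm lam) :
    ∃ j, j ∉ S1 lam ∧ lam (Sum.inl (τ j)) = 0 := by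
  by_contra hcon
  push Not at hcon
  apply hτ
  have h1 : (S1 lam).image τ.symm ⊆ S1 lam := by
    intro x hx
    obtain ⟨y, hy, rfl⟩ := Finset.mem_image.1 hx
    by_contra hx2
    have := hcon _ hx2
    rw [Equiv.apply_symm_apply] at this
    exact this (mem_S1.1 hy)
  have h2 : (S1 lam).image τ.symm = S1 lam := Finset.eq_of_subset_of_card_le h1 (by
    rw [Finset.card_image_of_injective _ τ.symm.injective])
  intro j
  rw [← mem_S1, ← mem_S1]
  constructor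
  · intro h
    have : τ.symm (τ j) ∈ (S1 lam).image τ.symm := Finset.mem_image_of_mem _ h
    rwa [h2, Equiv.symm_apply_apply] at this
  · intro h
    rw [← h2] at h
    obtain ⟨y, hy, rfl⟩ := Finset.mem_image.1 h
    rwa [Equiv.apply_symm_apply]

/-- The coefficient function of the slot operator. -/
noncomputable def PsiC (lam : Fin l ⊕ H → ℤ) (G : PP K (Fin l)) : PP K (Fin (l + l)) :=
  (sep (Sy K) l ^ (l + l + 1) * sub (sL l) G) *
    ((∏ j ∈ S1 lam, gs (Sy K) l j) * ∏ j ∈ (S1 lam)ᶜ, gs (Sy K) l j ^ 2)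

variable (K) in
/-- The operator `Θ`. -/
noncomputable def Tht (lam : Fin l ⊕ H → ℤ) : PP K (Fin l ⊕ H) →ₗ[Sy K] PP K (Fin l ⊕ H) :=
  dg fun f => ∏ j ∈ S1 lam, ((f (Sum.inl j) : ℤ) : Sy K)

variable (K) in
/-- The unit factor. -/
noncomputable def UU (lam : Fin l ⊕ H → ℤ) : PP K (Fin l ⊕ H) :=
  (-1) ^ (S1 lam).card * ((∏ j ∈ (S1 lam)ᶜ, (2 * ((lam (Sum.inl j) : Sy K) • w (Sum.inl j) + w (Sum.inl j)) *
    -((lam (Sum.inl j) : Sy K) • w (Sum.inl j)))) * ∏ j ∈ S1 lam, w (Sum.inl j))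

variable (K) in
/-- The values of the heavy polynomial at the light points. -/
noncomputable def PX (c : Fin n → H) : PP K (Fin l ⊕ H) :=
  ∏ j : Fin l, ∏ k : Fin n, (w (Sum.inl j) - w (Sum.inr (c k)))

variable (K) in
/-- The full denominator without the Hankel part. -/
noncomputable def DDn (l : ℕ) (c : Fin n → H) : PP K (Fin l ⊕ H) :=
  PX K c ^ 4 * sub Sum.inl (disc (Sy K) (Fin l)) ^ (4 * (l + l + 1))

end defs

section main

variable (lam : Fin l ⊕ H → ℤ) (c : Fin n → H)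

/-- The full argument. -/
noncomputable def ZZ (G : PP K (Fin l)) (F : PP K (Fin l ⊕ H)) : PP K ((Fin l ⊕ H) ⊕ Fin (l + l)) :=
  sub (Sum.map (Sum.inr ∘ c) id) ((∏ a : Fin (l + l), pY (id : Fin n → Fin n) a ^ 2) *
    sub Sum.inr (PsiC lam G)) * sub Sum.inl F

/-- The part of the coefficient without the pair differences. -/
noncomputable def Bt (n : ℕ) (G : PP K (Fin l)) : PP K (Fin n ⊕ Fin (l + l)) :=
  (∏ a : Fin (l + l), pY (id : Fin n → Fin n) a ^ 2) *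
    sub Sum.inr (sep (Sy K) l ^ (l + l + 1) * sub (sL l) G)

lemma ZZ_eq (G : PP K (Fin l)) (F : PP K (Fin l ⊕ H)) : ZZ lam c G F =
    (∏ j ∈ S1 lam, gj K l H j) * ((∏ j ∈ (S1 lam)ᶜ, gj K l H j ^ 2) *
      (sub (Sum.map (Sum.inr ∘ c) id) (Bt n G) * sub Sum.inl F)) := by
  have h1 : ∀ j, sub (Sum.map (Sum.inr ∘ c) id) (sub Sum.inr (gs (Sy K) l j) : PP K (Fin n ⊕ Fin (l + l)))
      = gj K l H j := by
    intro j
    rw [gs, map_sub, map_sub, sub_w, sub_w, sub_w, sub_w]; rfl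
  rw [ZZ, PsiC, Bt]
  simp only [map_mul, map_prod, map_pow, h1]
  ring

lemma ZZ_dvd (G : PP K (Fin l)) (F : PP K (Fin l ⊕ H)) {a b : Fin (l + l)} (h : pq l a ≠ pq l b) :
    (w (Sum.inr a) - w (Sum.inr b)) ^ (l + l + 1) ∣ ZZ lam c G F := by
  obtain ⟨y, hy⟩ := w_sub_dvd_sep (K := Sy K) l h
  have h1 : sub (Sum.map (Sum.inr ∘ c) id) (sub Sum.inr (sep (Sy K) l) : PP K (Fin n ⊕ Fin (l + l)))
      = ((w (Sum.inr a) - w (Sum.inr b)) * sub Sum.inr y : PP K ((Fin l ⊕ H) ⊕ Fin (l + l))) := by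
    rw [hy, map_mul, map_mul, map_sub, map_sub, sub_w, sub_w, sub_w, sub_w, sub_sub]; rfl
  rw [ZZ, PsiC]
  simp only [map_mul, map_pow, h1, mul_pow]
  refine Dvd.dvd.mul_right (Dvd.dvd.mul_left (Dvd.dvd.mul_right (Dvd.dvd.mul_right
    (dvd_mul_right _ _) _) _) _) _

lemma ZZ_sq_dvd (G : PP K (Fin l)) (F : PP K (Fin l ⊕ H)) {j : Fin l} (hj : j ∉ S1 lam) :
    gj K l H j ^ 2 ∣ ZZ lam c G F := by
  rw [ZZ_eq]
  refine Dvd.dvd.mul_left (Dvd.dvd.mul_right (Finset.dvd_prod_of_mem (fun j => gj K l H j ^ 2)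
    (Finset.mem_compl.2 hj)) _) _

lemma dg_eR_light (τ : Equiv.Perm (Fin l)) {i : Fin l} (hi : lam (Sum.inl (τ i)) = 0)
    (Y : PP K (Fin n ⊕ Fin (l + l))) :
    dg (eR' K lam τ i) (sub (Sum.map (Sum.inr ∘ c) id) Y : PP K ((Fin l ⊕ H) ⊕ Fin (l + l))) = 0 := by
  induction Y using lau_induction with
  | h0 => simp
  | ha x y hx hy => rw [map_add, map_add, hx, hy, add_zero]
  | hs t x hx => rw [map_smul, map_smul, hx, smul_zero]
  | hm a =>
    rw [sub_mon, dg_mon]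
    have e1 : push (Sum.map (Sum.inr ∘ c) id) a
        = (Sum.elim (push (Sum.inr ∘ c) fun k => a (Sum.inl k)) (fun b => a (Sum.inr b)) :
          (Fin l ⊕ H) ⊕ Fin (l + l) → ℤ) := by
      ext x
      rcases x with x | x
      · rw [Sum.elim_inl, push_apply, Fintype.sum_sum_type, push_apply]; simp
      · rw [Sum.elim_inr, push_apply, Fintype.sum_sum_type]; simp
    have e2 : lamS K lam (τ ∘ pq l) (sR l i) (push (Sum.map (Sum.inr ∘ c) id) a) = 0 := by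
      rw [e1, lamS_apply]
      have e3 : (push (Sum.inr ∘ c : Fin n → Fin l ⊕ H) fun k => a (Sum.inl k)) (Sum.inl ((τ ∘ pq l) (sR l i))) = 0 := by
        rw [push_apply]; simp
      have e4 : ∀ b : Fin (l + l), ¬ (sR l i < b ∧ (τ ∘ pq l) b = (τ ∘ pq l) (sR l i)) := by
        rintro b ⟨hb1, hb2⟩
        obtain ⟨j, rfl⟩ | ⟨j, rfl⟩ := slot_cases b
        · exact absurd hb1 (not_lt.2 (sL_lt_sR j i).le)
        · simp only [Function.comp, pq_right] at hb2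
          have := τ.injective hb2
          subst this
          exact lt_irrefl _ hb1
      rw [e3, Finset.sum_eq_zero (fun b _ => if_neg (e4 b))]
      simp only [Function.comp, pq_right, hi]
      simp
    rw [e2, zero_smul]

lemma dg_eR_F (τ : Equiv.Perm (Fin l)) (hτ : τ ∈ Gm lam) (F : PP K (Fin l ⊕ H)) :
    dg (fun e => ∏ i ∈ S1 lam, eR' K lam τ i e) (sub Sum.inl F : PP K ((Fin l ⊕ H) ⊕ Fin (l + l)))
      = sub Sum.inl ((-1) ^ (S1 lam).card * Tht K lam F) := by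
  induction F using lau_induction with
  | h0 => simp
  | ha x y hx hy => rw [map_add, map_add, hx, hy, map_add, mul_add, map_add]
  | hs t x hx => rw [map_smul, map_smul, hx, map_smul, mul_smul_comm, map_smul]
  | hm f =>
    rw [sub_mon, dg_mon, Tht, dg_mon, mul_smul_comm, map_smul, push_inl]
    have h1 : ∀ i, lamS K lam (τ ∘ pq l) (sR l i) (Sum.elim f (0 : Fin (l + l) → ℤ))
        = - ((f (Sum.inl (τ i)) : ℤ) : Sy K) := by
      intro i
      rw [lamS_apply]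
      simp
    simp only [h1]
    rw [Finset.prod_neg]
    have h2 : ∏ i ∈ S1 lam, ((f (Sum.inl (τ i)) : ℤ) : Sy K) = ∏ i ∈ S1 lam, ((f (Sum.inl i) : ℤ) : Sy K) :=
      Finset.prod_equiv τ (fun i => Gm_S1 hτ i) (fun i _ => rfl)
    rw [h2, mul_smul]
    have h3 : ((-1) ^ (S1 lam).card : PP K (Fin l ⊕ H)) = ((-1) ^ (S1 lam).card : Sy K) • 1 := by
      rw [← Algebra.algebraMap_eq_smul_one, map_pow, map_neg, map_one]
    rw [h3, smul_mul_assoc, one_mul, map_smul, smul_comm, sub_mon, push_inl]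

lemma dg_kill_prod_sq {R : Type*} [CommRing R] {X ι : Type*} (M : (X → ℤ) →+ R) (g : ι → Lau R X)
    (S : Finset ι) (h : ∀ i ∈ S, dg M (g i) = 0) : dg M (∏ i ∈ S, g i ^ 2) = 0 := by
  classical
  induction S using Finset.induction_on with
  | empty => rw [Finset.prod_empty, ← mon_zero, dg_mon, map_zero, zero_smul]
  | insert i S hi ih =>
    rw [Finset.prod_insert hi, dg_leib, ih (fun j hj => h j (Finset.mem_insert_of_mem hj)), pow_two,
      dg_leib, h i (Finset.mem_insert_self _ _)]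
    ring

/-- The value of the contribution of a type preserving permutation. -/
theorem contrS_pair (τ : Equiv.Perm (Fin l)) (hτ : τ ∈ Gm lam) (G : PP K (Fin l)) (F : PP K (Fin l ⊕ H)) :
    contrS lam (τ ∘ pq l) (ZZ lam c G F) =
      UU K lam * DDn K l c * sub Sum.inl (sub τ G) * Tht K lam F := by
  rw [contrS_slots lam τ _ (S1 lam), ZZ_eq]
  set g := gj K l H with hg
  set ψB := (sub (Sum.map (Sum.inr ∘ c) id) (Bt n G) : PP K ((Fin l ⊕ H) ⊕ Fin (l + l))) with hψ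
  set y := ψB * sub Sum.inl F with hy
  set P1 := ∏ j ∈ S1 lam, dg (eL' K lam τ j) (g j) with hP1
  set Y := dg (fun e => ∏ i ∈ S1 lam, eR' K lam τ i e) y with hY
  have hτ0 : ∀ j ∈ S1 lam, lam (Sum.inl (τ j)) = 0 := fun j hj => mem_S1.1 ((Gm_S1 hτ j).1 hj)
  have hRself : ∀ j ∈ S1 lam, dg (eR' K lam τ j) (g j) = 0 := fun j hj => by
    rw [hg, eR_gj_self, hτ0 j hj]; simp
  have k1 := dg_prod_one (eL' K lam τ) (eR' K lam τ) g (S1 lam)
    (fun i _ j _ hij => eL_gj lam τ hij)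
    (fun i hi j hj => by
      by_cases hij : i = j
      · subst hij; exact hRself i hi
      · exact eR_gj lam τ hij)
    (fun i _ j _ hij => eR_eL_gj lam τ hij) ((∏ j ∈ (S1 lam)ᶜ, g j ^ 2) * y)
  rw [dg_prod_mul_const (eR' K lam τ) (∏ j ∈ (S1 lam)ᶜ, g j ^ 2) (S1 lam) (fun i hi =>
    dg_kill_prod_sq _ _ _ (fun j hj => eR_gj lam τ (by
      rintro rfl; exact (Finset.mem_compl.1 hj) hi)))] at k1
  have k2 := dg_prod_sq (eL' K lam τ) (eR' K lam τ) g (fun i j hij => eL_gj lam τ hij)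
    (fun i j hij => eR_gj lam τ hij) (S1 lam)ᶜ (P1 * Y)
  have k3 : dg (fun e => ∏ i ∈ (S1 lam)ᶜ, (eL' K lam τ i e * eR' K lam τ i e))
      (dg (fun e => ∏ i ∈ S1 lam, (eL' K lam τ i e * eR' K lam τ i e))
        ((∏ j ∈ S1 lam, g j) * ((∏ j ∈ (S1 lam)ᶜ, g j ^ 2) * y)) - P1 * ((∏ j ∈ (S1 lam)ᶜ, g j ^ 2) * Y))
      ∈ Ideal.span (g '' (S1 lam : Set (Fin l))) := by
    have e3 : ∀ z : PP K ((Fin l ⊕ H) ⊕ Fin (l + l)),
        dg (fun e => ∏ i ∈ (S1 lam)ᶜ, (eL' K lam τ i e * eR' K lam τ i e)) z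
        = dg (fun e => ∏ i ∈ (S1 lam)ᶜ, eL' K lam τ i e)
            (dg (fun e => ∏ i ∈ (S1 lam)ᶜ, eR' K lam τ i e) z) := by
      intro z
      rw [← dg_mul_apply]
      congr 2
      ext e; rw [Finset.prod_mul_distrib]; rfl
    rw [e3]
    refine dg_prod_span_pres (eL' K lam τ) _ _ ?_ (dg_prod_span_pres (eR' K lam τ) _ _ ?_ k1)
    · rintro i hi _ ⟨j, hj, rfl⟩
      exact eL_gj lam τ (by rintro rfl; exact (Finset.mem_compl.1 hi) hj)
    · rintro i hi _ ⟨j, hj, rfl⟩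
      exact eR_gj lam τ (by rintro rfl; exact (Finset.mem_compl.1 hi) hj)
  have k4 := sub_span_gj (K := K) (H := H) τ (S1 lam : Set (Fin l)) k3
  have k5 := sub_span_gj (K := K) (H := H) τ _ k2
  rw [map_sub, map_sub, sub_eq_zero] at k4
  rw [map_sub, sub_eq_zero] at k5
  have e5 : P1 * ((∏ j ∈ (S1 lam)ᶜ, g j ^ 2) * Y) = (∏ j ∈ (S1 lam)ᶜ, g j ^ 2) * (P1 * Y) := by ring
  rw [k4, e5, k5]
  have e6 : Y = ψB * sub Sum.inl ((-1) ^ (S1 lam).card * Tht K lam F) := by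
    rw [hY, hy, dg_prod_mul_const (eR' K lam τ) ψB (S1 lam) (fun i hi => dg_eR_light lam c τ (hτ0 i hi) _),
      dg_eR_F lam τ hτ]
  have e7 : sub (Sum.elim id (Sum.inl ∘ (τ ∘ pq l))) P1 = (∏ j ∈ S1 lam, w (Sum.inl j) : PP K (Fin l ⊕ H)) := by
    rw [hP1, map_prod]
    refine Finset.prod_equiv τ (fun i => Gm_S1 hτ i) (fun j hj => ?_)
    rw [hg, eL_gj_self, hτ0 j hj, map_add, map_smul, sub_w, sub_w]
    simp
  have e8 : sub (Sum.elim id (Sum.inl ∘ (τ ∘ pq l))) (∏ i ∈ (S1 lam)ᶜ,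
      2 * dg (eL' K lam τ i) (g i) * dg (eR' K lam τ i) (g i)) = (∏ j ∈ (S1 lam)ᶜ,
      (2 * ((lam (Sum.inl j) : Sy K) • w (Sum.inl j) + w (Sum.inl j)) *
    -((lam (Sum.inl j) : Sy K) • w (Sum.inl j))) : PP K (Fin l ⊕ H)) := by
    rw [map_prod]
    have hc : ∀ i, i ∈ (S1 lam)ᶜ ↔ τ i ∈ (S1 lam)ᶜ := fun i => by
      rw [Finset.mem_compl, Finset.mem_compl, not_iff_not]; exact Gm_S1 hτ i
    refine Finset.prod_equiv τ hc (fun j hj => ?_)
    rw [hg, eL_gj_self, eR_gj_self, map_mul, map_mul, map_add, map_neg, map_smul, map_smul, sub_w, sub_w,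
      map_ofNat]
    simp
  have e9 : sub (Sum.elim id (Sum.inl ∘ (τ ∘ pq l))) ψB = DDn K l c * sub Sum.inl (sub τ G) := by
    have f1 : ∀ a : Fin (l + l), sub (Sum.elim id (Sum.inl ∘ (τ ∘ pq l)) ∘ Sum.map (Sum.inr ∘ c) id)
        (pY (id : Fin n → Fin n) a) = (∏ k : Fin n, (w (Sum.inl (τ (pq l a))) - w (Sum.inr (c k))) :
          PP K (Fin l ⊕ H)) := by
      intro a
      rw [pY, map_prod]
      refine Finset.prod_congr rfl fun k _ => ?_
      rw [map_sub, sub_w, sub_w]; rfl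
    have f2 : (Sum.elim id (Sum.inl ∘ (τ ∘ pq l)) ∘ Sum.map (Sum.inr ∘ c) id) ∘ Sum.inr
        = (Sum.inl ∘ (τ ∘ pq l) : Fin (l + l) → Fin l ⊕ H) := by
      ext x; rfl
    have f3 : sub (Sum.inl ∘ (τ ∘ pq l)) (sep (Sy K) l) = (sub Sum.inl (disc (Sy K) (Fin l)) ^ 4 :
        PP K (Fin l ⊕ H)) := by
      rw [← sub_sub, sub_sep, map_pow]
    have f4 : (Sum.inl ∘ (τ ∘ pq l)) ∘ sL l = (Sum.inl ∘ τ : Fin l → Fin l ⊕ H) := by
      ext x; simp
    rw [hψ, sub_sub, Bt, map_mul, map_prod]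
    simp only [map_pow, f1]
    rw [prod_slots]
    simp only [pq_left, pq_right]
    rw [Finset.prod_pow, Equiv.prod_comp τ (fun j => ∏ k : Fin n, (w (Sum.inl j) - w (Sum.inr (c k)) :
      PP K (Fin l ⊕ H))), sub_sub, f2, map_mul, map_pow, f3, sub_sub, f4, sub_sub, DDn, PX]
    ring
  have e10 : ∀ W : PP K (Fin l ⊕ H), sub (Sum.elim id (Sum.inl ∘ (τ ∘ pq l)))
      (sub Sum.inl W : PP K ((Fin l ⊕ H) ⊕ Fin (l + l))) = W := fun W => by
    rw [sub_sub, Sum.elim_comp_inl, sub_id]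
  rw [e6, map_mul, map_mul, map_mul, e7, e8, e9, e10, UU]
  ring

end main

end WittACC
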