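import Pool.Agent.helper37.WittC.Strata

/-!
The quotient of `PP K X` by `rr c` is a polynomial ring over Laurent polynomials.
-/

set_option linter.unusedSectionVars false
set_option linter.unusedVariables false

namespace WittACC

variable {K : Type*} [Field K] {X : Type*}

section up

/-- Inclusion of the coefficient field into `S`. -/
noncomputable def up : Lau K X →ₐ[K] PP K X :=
  AddMonoidAlgebra.lift K (PP K X) (X → ℤ) (AddMonoidAlgebra.of (Sy K) (X → ℤ))

@[simp] lemma up_mon (a : X → ℤ) : (up (mon a) : PP K X) = mon a := by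
  rw [up, mon, AddMonoidAlgebra.lift_single, one_smul]; rfl

@[simp] lemma up_wz [DecidableEq X] (i : X) (m : ℤ) : (up (wz i m) : PP K X) = wz i m := up_mon _

@[simp] lemma up_w [DecidableEq X] (i : X) : (up (w i) : PP K X) = w i := up_mon _

/-- The element `e_m`. -/
noncomputable def ee (m : ℤ) : PP K X := algebraMap (Sy K) (PP K X) (MvPolynomial.X m)

end up

variable [Fintype X] [DecidableEq X]

section pbar

variable (K) in
/-- The polynomial `∏ (z - x_{c k})`. -/
noncomputable def pbar {n : ℕ} (c : Fin n → X) : Polynomial (Lau K X) :=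
  ∏ k, (Polynomial.X - Polynomial.C (w (c k)))

lemma pbar_monic {n : ℕ} (c : Fin n → X) : (pbar K c).Monic :=
  Polynomial.monic_prod_of_monic _ _ fun k _ => Polynomial.monic_X_sub_C _

lemma pbar_natDegree {n : ℕ} (c : Fin n → X) : (pbar K c).natDegree = n := by
  rw [pbar, Polynomial.natDegree_prod_of_monic _ _ fun k _ => Polynomial.monic_X_sub_C _]
  simp

lemma pbar_coeff_zero {n : ℕ} (c : Fin n → X) : IsUnit ((pbar K c).coeff 0) := by
  rw [pbar, Polynomial.coeff_zero_prod, IsUnit.prod_univ_iff]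
  intro k
  rw [Polynomial.coeff_sub, Polynomial.coeff_X_zero, Polynomial.coeff_C_zero, zero_sub]
  exact (wz_isUnit (c k) 1).neg

/-- Polynomials as Laurent polynomials in the additional variable. -/
noncomputable def ihp : Polynomial (Lau K X) →+* PP K (X ⊕ Unit) :=
  Polynomial.eval₂RingHom
    ((sub Sum.inl : PP K X →ₐ[Sy K] PP K (X ⊕ Unit)).toRingHom.comp
      (up : Lau K X →ₐ[K] PP K X).toRingHom) (w (Sum.inr ()))

lemma ihp_X : ihp (Polynomial.X : Polynomial (Lau K X)) = w (Sum.inr ()) := by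
  rw [ihp, Polynomial.coe_eval₂RingHom, Polynomial.eval₂_X]

lemma ihp_C (r : Lau K X) : ihp (Polynomial.C r) = sub Sum.inl (up r) := by
  rw [ihp, Polynomial.coe_eval₂RingHom, Polynomial.eval₂_C]; rfl

lemma ihp_pbar {n : ℕ} (c : Fin n → X) : ihp (pbar K c) = pc K c := by
  rw [pbar, map_prod, pc]
  refine Finset.prod_congr rfl fun k _ => ?_
  rw [map_sub, ihp_X, ihp_C, up_w, sub_w]

lemma ihp_eq_sum (p : Polynomial (Lau K X)) :
    ihp p = ∑ κ ∈ Finset.range (p.natDegree + 1), sub Sum.inl (up (p.coeff κ)) * wz (Sum.inr ()) κ := by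
  rw [ihp, Polynomial.coe_eval₂RingHom, Polynomial.eval₂_eq_sum_range]
  refine Finset.sum_congr rfl fun κ _ => ?_
  rw [wz_natCast]; rfl

lemma eL_wz (m : ℤ) : eL (wz (Sum.inr ()) m : PP K (X ⊕ Unit)) = ee m := by
  rw [wz, eL, eY_mon]
  simp only [Finset.univ_unique, Finset.prod_singleton, Pi.single_eq_same]
  have : (fun i : X => (Pi.single (Sum.inr ()) m : X ⊕ Unit → ℤ) (Sum.inl i)) = 0 := by
    ext i; simp
  rw [this, mon_zero, ee, Algebra.algebraMap_eq_smul_one]

/-- The recurrence relation. -/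
lemma eL_ihp_wz (p : Polynomial (Lau K X)) (m : ℤ) :
    eL (ihp p * wz (Sum.inr ()) m) = ∑ κ ∈ Finset.range (p.natDegree + 1), up (p.coeff κ) * ee (m + κ) := by
  rw [ihp_eq_sum, Finset.sum_mul, map_sum]
  refine Finset.sum_congr rfl fun κ _ => ?_
  rw [mul_assoc, ← wz_add, eL, eY_mul_inl, ← eL, eL_wz, add_comm]

lemma rec_mem {n : ℕ} (c : Fin n → X) (m : ℤ) :
    ∑ κ ∈ Finset.range ((pbar K c).natDegree + 1), up ((pbar K c).coeff κ) * ee (m + κ) ∈ rr K c := by
  rw [← eL_ihp_wz, ihp_pbar]; exact eL_mem_rr _ _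

end pbar

section phi

variable {n : ℕ} (c : Fin n → X)

variable (K) in
/-- The quotient ring. -/
abbrev BB {n : ℕ} (c : Fin n → X) := MvPolynomial (Fin (pbar K c).natDegree) (Lau K X)

lemma root_isUnit {R : Type*} [CommRing R] (p : Polynomial R) (h0 : IsUnit (p.coeff 0)) :
    IsUnit (AdjoinRoot.root p) := by
  have h2 := congrArg (AdjoinRoot.mk p) (Polynomial.X_mul_divX_add p)
  rw [map_add, map_mul, AdjoinRoot.mk_X, AdjoinRoot.mk_C, AdjoinRoot.mk_self] at h2
  have h3 : AdjoinRoot.root p * (-AdjoinRoot.mk p p.divX) = AdjoinRoot.of p (p.coeff 0) := by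
    rw [mul_neg, eq_comm, ← sub_eq_zero, sub_neg_eq_add, add_comm, h2]
  exact isUnit_of_mul_isUnit_left (h3 ▸ h0.map _)

/-- The root as a unit. -/
noncomputable def zeta : (AdjoinRoot (pbar K c))ˣ := (root_isUnit _ (pbar_coeff_zero c)).unit

lemma zeta_val : ((zeta c : (AdjoinRoot (pbar K c))ˣ) : AdjoinRoot (pbar K c)) = AdjoinRoot.root (pbar K c) :=
  rfl

/-- The generic linear functional. -/
noncomputable def Lam : AdjoinRoot (pbar K c) →ₗ[Lau K X] BB K c :=
  (AdjoinRoot.powerBasisAux' (pbar_monic c)).constr (Lau K X) MvPolynomial.X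

lemma Lam_root_pow (i : Fin (pbar K c).natDegree) :
    Lam c (AdjoinRoot.root (pbar K c) ^ (i : ℕ)) = MvPolynomial.X i := by
  have h := (AdjoinRoot.powerBasis' (pbar_monic c)).basis_eq_pow i
  have h2 := (AdjoinRoot.powerBasisAux' (pbar_monic c)).constr_basis (Lau K X)
    (MvPolynomial.X : _ → BB K c) i
  rw [Lam]
  rw [AdjoinRoot.powerBasis'_gen] at h
  rw [← h]
  exact h2

/-- The images of the `e_m`. -/
noncomputable def beta (m : ℤ) : BB K c := Lam c ((zeta c ^ m : (AdjoinRoot (pbar K c))ˣ) : AdjoinRoot (pbar K c))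

lemma beta_natCast (i : Fin (pbar K c).natDegree) : beta c ((i : ℕ) : ℤ) = MvPolynomial.X i := by
  rw [beta, zpow_natCast, Units.val_pow_eq_pow_val, zeta_val, Lam_root_pow]

lemma beta_rec (m : ℤ) : ∑ κ ∈ Finset.range ((pbar K c).natDegree + 1),
    MvPolynomial.C ((pbar K c).coeff κ) * beta c (m + κ) = 0 := by
  have h := congrArg (AdjoinRoot.mk (pbar K c)) (pbar K c).as_sum_range_C_mul_X_pow
  rw [AdjoinRoot.mk_self, map_sum] at h
  have h2 := congrArg (fun y => Lam c (y * ((zeta c ^ m : (AdjoinRoot (pbar K c))ˣ) :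
    AdjoinRoot (pbar K c)))) h
  simp only [zero_mul, map_zero] at h2
  rw [Finset.sum_mul, map_sum] at h2
  rw [h2]
  refine Finset.sum_congr rfl fun κ _ => ?_
  rw [map_mul (AdjoinRoot.mk (pbar K c)), map_pow (AdjoinRoot.mk (pbar K c)), AdjoinRoot.mk_C,
    AdjoinRoot.mk_X, beta, zpow_add, zpow_natCast,
    Units.val_mul, Units.val_pow_eq_pow_val, zeta_val, mul_assoc, ← AdjoinRoot.algebraMap_eq,
    ← Algebra.smul_def, map_smul, MvPolynomial.smul_eq_C_mul, mul_comm (AdjoinRoot.root _ ^ κ)]

variable (K) in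
/-- The projection to the quotient ring. -/
noncomputable def phi : PP K X →ₐ[K] BB K c :=
  AddMonoidAlgebra.liftNCAlgHom (MvPolynomial.aeval (beta c))
    ((MvPolynomial.C : Lau K X →+* BB K c).toMonoidHom.comp (AddMonoidAlgebra.of K (X → ℤ)))
    (fun _ _ => Commute.all _ _)

lemma phi_smul_mon (s : Sy K) (a : X → ℤ) :
    phi K c (s • mon a) = MvPolynomial.aeval (beta c) s * MvPolynomial.C (mon a : Lau K X) := by
  have h : s • (mon a : PP K X) = (AddMonoidAlgebra.single a s : PP K X) := by simp [mon]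
  rw [h, phi, AddMonoidAlgebra.coe_liftNCAlgHom, AddMonoidAlgebra.liftNC_single]
  rfl

lemma phi_mon (a : X → ℤ) : phi K c (mon a) = MvPolynomial.C (mon a : Lau K X) := by
  have := phi_smul_mon (K := K) c 1 a
  rwa [one_smul, map_one, one_mul] at this

lemma phi_smul (s : Sy K) (F : PP K X) : phi K c (s • F) = MvPolynomial.aeval (beta c) s * phi K c F := by
  induction F using lau_induction with
  | h0 => simp
  | ha x y hx hy => rw [smul_add, map_add, hx, hy, map_add, mul_add]
  | hm a => rw [phi_smul_mon, phi_mon]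
  | hs t x hx =>
    have h1 : phi K c (algebraMap (Sy K) (PP K X) s) = MvPolynomial.aeval (beta c) s := by
      have := phi_smul_mon c s 0
      rwa [mon_zero, mon_zero, map_one, mul_one, ← Algebra.algebraMap_eq_smul_one] at this
    rw [Algebra.smul_def, map_mul, h1]

lemma phi_up (F : Lau K X) : phi K c (up F) = MvPolynomial.C F := by
  induction F using lau_induction with
  | h0 => simp
  | ha x y hx hy => rw [map_add, map_add, hx, hy, map_add]
  | hm a => rw [up_mon, phi_mon]
  | hs t x hx =>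
    rw [map_smul, map_smul, hx]
    exact (map_smul (IsScalarTower.toAlgHom K (Lau K X) (BB K c)) t x).symm

lemma phi_ee (m : ℤ) : phi K c (ee m) = beta c m := by
  rw [ee, Algebra.algebraMap_eq_smul_one, phi_smul, map_one, mul_one, MvPolynomial.aeval_X]

lemma phi_eL_pc (G : PP K (X ⊕ Unit)) : phi K c (eL (pc K c * G)) = 0 := by
  induction G using lau_induction with
  | h0 => simp
  | ha x y hx hy => rw [mul_add, map_add, map_add, hx, hy, add_zero]
  | hs t x hx => rw [mul_smul_comm, map_smul, phi_smul, hx, mul_zero]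
  | hm a =>
    have h1 : (mon a : PP K (X ⊕ Unit)) = sub Sum.inl (mon fun i => a (Sum.inl i)) *
        wz (Sum.inr ()) (a (Sum.inr ())) := by
      rw [sub_mon, wz, mon_mul, push_inl]
      congr 1
      ext x
      rcases x with x | x
      · simp
      · simp
    rw [h1, mul_left_comm, eL, eY_mul_inl, ← eL, map_mul, ← ihp_pbar, eL_ihp_wz, map_sum]
    have h2 : ∑ κ ∈ Finset.range ((pbar K c).natDegree + 1),
        phi K c (up ((pbar K c).coeff κ) * ee (a (Sum.inr ()) + κ)) = 0 := by
      rw [← beta_rec c (a (Sum.inr ()))]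
      refine Finset.sum_congr rfl fun κ _ => ?_
      rw [map_mul, phi_up, phi_ee]
    rw [h2, mul_zero]

lemma phi_rr {F : PP K X} (hF : F ∈ rr K c) : phi K c F = 0 := by
  obtain ⟨G, rfl⟩ := hF; exact phi_eL_pc c G

/-- The section of `phi`. -/
noncomputable def iot : BB K c →+* PP K X :=
  MvPolynomial.eval₂Hom (up : Lau K X →ₐ[K] PP K X).toRingHom (fun i => ee (i : ℕ))

lemma iot_C (r : Lau K X) : iot c (MvPolynomial.C r) = up r := by
  rw [iot, MvPolynomial.coe_eval₂Hom, MvPolynomial.eval₂_C]; rfl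

lemma iot_X (i : Fin (pbar K c).natDegree) : iot c (MvPolynomial.X i) = ee (i : ℕ) := by
  rw [iot, MvPolynomial.coe_eval₂Hom, MvPolynomial.eval₂_X]

lemma phi_iot (b : BB K c) : phi K c (iot c b) = b := by
  induction b using MvPolynomial.induction_on with
  | C r => rw [iot_C, phi_up]
  | add p q hp hq => rw [map_add, map_add, hp, hq]
  | mul_X p i hp => rw [map_mul, map_mul, hp, iot_X, phi_ee, beta_natCast]

lemma exists_iot (F : PP K X) : ∃ b, F - iot c b ∈ rr K c := by
  have hmul : ∀ F G : PP K X, (∃ b, F - iot c b ∈ rr K c) → (∃ b, G - iot c b ∈ rr K c) →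
      ∃ b, F * G - iot c b ∈ rr K c := by
    rintro F G ⟨b, hb⟩ ⟨b', hb'⟩
    refine ⟨b * b', ?_⟩
    have e : F * G - iot c (b * b') = (F - iot c b) * G + iot c b * (G - iot c b') := by
      rw [map_mul]; ring
    rw [e]
    exact add_mem (Ideal.mul_mem_right _ _ hb) (Ideal.mul_mem_left _ _ hb')
  have hadd : ∀ F G : PP K X, (∃ b, F - iot c b ∈ rr K c) → (∃ b, G - iot c b ∈ rr K c) →
      ∃ b, F + G - iot c b ∈ rr K c := by
    rintro F G ⟨b, hb⟩ ⟨b', hb'⟩
    refine ⟨b + b', ?_⟩
    have e : F + G - iot c (b + b') = (F - iot c b) + (G - iot c b') := by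
      rw [map_add]; ring
    rw [e]
    exact add_mem hb hb'
  have hup : ∀ r : Lau K X, ∃ b, up r - iot c b ∈ rr K c := fun r =>
    ⟨MvPolynomial.C r, by rw [iot_C, _root_.sub_self]; exact zero_mem _⟩
  have hee : ∀ m : ℤ, ∃ b, (ee m : PP K X) - iot c b ∈ rr K c := by
    let _ : Module (Lau K X) (PP K X) := Module.compHom _ (up : Lau K X →ₐ[K] PP K X).toRingHom
    have hsm : ∀ (r : Lau K X) (F : PP K X), r • F = up r * F := fun _ _ => rfl
    let S : Submodule (Lau K X) (PP K X) :=
      { carrier := {F | ∃ b, F - iot c b ∈ rr K c}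
        add_mem' := fun hF hG => hadd _ _ hF hG
        zero_mem' := ⟨0, by rw [map_zero, sub_zero]; exact zero_mem _⟩
        smul_mem' := fun r F hF => by
          rw [hsm]; exact hmul _ _ (hup r) hF }
    intro m
    have key := recurrence S (fun m : ℤ => (ee m : PP K X)) (fun κ => (pbar K c).coeff κ)
      (pbar K c).natDegree (pbar_coeff_zero c)
      (by
        have := pbar_monic (K := K) c
        rw [Polynomial.Monic, Polynomial.leadingCoeff] at this
        rw [this]; exact isUnit_one) (fun t => ?_) (fun m hm hm' => ?_) m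
    · exact key
    · refine ⟨0, ?_⟩
      rw [map_zero, sub_zero]
      exact rec_mem c t
    · obtain ⟨k, rfl⟩ := Int.eq_ofNat_of_zero_le hm
      have hk : k < (pbar K c).natDegree := by exact_mod_cast hm'
      refine ⟨MvPolynomial.X ⟨k, hk⟩, ?_⟩
      rw [iot_X, _root_.sub_self]; exact zero_mem _
  have hS : ∀ s : Sy K, ∃ b, (algebraMap (Sy K) (PP K X) s) - iot c b ∈ rr K c := by
    intro s
    induction s using MvPolynomial.induction_on with
    | C r =>
      obtain ⟨b, hb⟩ := hup (algebraMap K _ r)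
      refine ⟨b, ?_⟩
      have : (algebraMap (Sy K) (PP K X) (MvPolynomial.C r)) = up (algebraMap K _ r) := by
        rw [AlgHom.commutes]; rfl
      rw [this]; exact hb
    | add p q hp hq => rw [map_add]; exact hadd _ _ hp hq
    | mul_X p i hp => rw [map_mul]; exact hmul _ _ hp (hee i)
  induction F using lau_induction with
  | h0 => exact ⟨0, by simp⟩
  | ha x y hx hy => exact hadd _ _ hx hy
  | hm a => have := hup (mon a); rwa [up_mon] at this
  | hs s x hx => rw [Algebra.smul_def]; exact hmul _ _ (hS s) hx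

lemma sub_iot_phi (F : PP K X) : F - iot c (phi K c F) ∈ rr K c := by
  obtain ⟨b, hb⟩ := exists_iot c F
  have h := phi_rr c hb
  rw [map_sub, phi_iot, sub_eq_zero] at h
  rw [h]; exact hb

/-- The kernel of `phi`. -/
lemma mem_rr_iff {F : PP K X} : F ∈ rr K c ↔ phi K c F = 0 := by
  refine ⟨phi_rr c, fun h => ?_⟩
  have := sub_iot_phi c F
  rwa [h, map_zero, sub_zero] at this

lemma phi_surjective : Function.Surjective (phi K c) := fun b => ⟨iot c b, phi_iot c b⟩

lemma rr_prime {F G : PP K X} (h : F * G ∈ rr K c) : F ∈ rr K c ∨ G ∈ rr K c := by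
  rw [mem_rr_iff, map_mul, mul_eq_zero] at h
  rwa [mem_rr_iff, mem_rr_iff]

lemma up_mem_rr {u : Lau K X} (h : up u ∈ rr K c) : u = 0 := by
  rw [mem_rr_iff, phi_up] at h
  exact (MvPolynomial.C_eq_zero).1 h

lemma one_notMem_rr : (1 : PP K X) ∉ rr K c := by
  intro h
  rw [mem_rr_iff, map_one] at h
  exact one_ne_zero h

lemma canc : Canc (K := K) c := by
  intro u hu F hF
  suffices h : u ∉ rr K c from (rr_prime c hF).resolve_left h
  clear hF
  induction hu using Submonoid.closure_induction with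
  | one => exact one_notMem_rr c
  | mul x y _ _ hx hy => exact fun h => (rr_prime c h).elim hx hy
  | mem x hx =>
    rcases hx with ⟨i, rfl⟩ | ⟨i, j, hij, rfl⟩
    · rw [← up_w]
      intro h
      have := up_mem_rr c h
      rw [w, wz, mon, AddMonoidAlgebra.single_eq_zero] at this
      exact one_ne_zero this
    · rw [← up_w, ← up_w, ← map_sub]
      intro h
      have := up_mem_rr c h
      rw [sub_eq_zero, w, w, wz, wz, mon, mon] at this
      have h2 := AddMonoidAlgebra.single_left_injective (one_ne_zero) this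
      have h3 := congrFun h2 i
      rw [Pi.single_eq_same, Pi.single_eq_of_ne hij] at h3
      exact one_ne_zero h3

end phi

end WittACC
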