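import Pool.Agent.helper37.WittC.Rec

/-!
The recurrence ideals `rr c`, twisted stable submodules and the chain condition.
-/

set_option linter.unusedSectionVars false

namespace WittACC

open MvPolynomial

variable {K : Type*} [Field K] {X : Type*} [Fintype X] [DecidableEq X]

/-- One auxiliary variable. -/
noncomputable abbrev eL : PP K (X ⊕ Unit) →ₗ[Sy K] PP K X := eY

variable (K) in
/-- The polynomial `∏ (z - x_{c k})`. -/
noncomputable def pc {n : ℕ} (c : Fin n → X) : PP K (X ⊕ Unit) :=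
  ∏ k, (w (Sum.inr ()) - w (Sum.inl (c k)))

variable (K) in
/-- The recurrence ideal. -/
noncomputable def rr {n : ℕ} (c : Fin n → X) : Ideal (PP K X) where
  carrier := {F | ∃ G : PP K (X ⊕ Unit), F = eL (pc K c * G)}
  add_mem' := by
    rintro _ _ ⟨G, rfl⟩ ⟨G', rfl⟩
    exact ⟨G + G', by rw [mul_add, map_add]⟩
  zero_mem' := ⟨0, by simp⟩
  smul_mem' := by
    rintro F _ ⟨G, rfl⟩
    refine ⟨sub Sum.inl F * G, ?_⟩
    rw [smul_eq_mul, ← eY_mul_inl]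
    congr 1; ring

lemma mem_rr {n : ℕ} {c : Fin n → X} {F : PP K X} : F ∈ rr K c ↔ ∃ G, F = eL (pc K c * G) := Iff.rfl

lemma eL_mem_rr {n : ℕ} (c : Fin n → X) (G : PP K (X ⊕ Unit)) : eL (pc K c * G) ∈ rr K c := ⟨G, rfl⟩

lemma eL_mem_rr_of_dvd {n : ℕ} (c : Fin n → X) {G : PP K (X ⊕ Unit)} (h : pc K c ∣ G) :
    eL G ∈ rr K c := by
  obtain ⟨G', rfl⟩ := h; exact ⟨G', rfl⟩

lemma pd_pc {n : ℕ} (c : Fin n → X) (v : ℤ) : pd v (pc K c) =
    (∑ k, -hv K v (Sum.inr ()) (Sum.inl (c k))) * pc K c :=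
  pd_prod Finset.univ _ _ v fun k _ => pd_w_sub _ _ _

lemma DD_mem_rr {n : ℕ} (c : Fin n → X) (lam : X → ℤ) (v : ℤ) {F : PP K X} (hF : F ∈ rr K c) :
    DD lam v F ∈ rr K c := by
  obtain ⟨G, rfl⟩ := hF
  rw [eL, eY_equivariant, DD_mul, pd_pc]
  refine ⟨(∑ k, -hv K v (Sum.inr ()) (Sum.inl (c k))) * G + DD (Sum.elim lam 1) v G, ?_⟩
  congr 1; ring

lemma pd_mem_rr {n : ℕ} (c : Fin n → X) (v : ℤ) {F : PP K X} (hF : F ∈ rr K c) :
    pd v F ∈ rr K c := by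
  have := DD_mem_rr c 0 v hF
  simpa [DD, om] using this

/-- Twisted stable submodules. -/
structure TSt {n : ℕ} (c : Fin n → X) (ρ : ℤ → PP K X) (N : Submodule (Sy K) (PP K X)) : Prop where
  rr : ∀ F ∈ rr K c, F ∈ N
  st : ∀ v, ∀ F ∈ N, pd v F + ρ v * F ∈ N

/-- The ascending chain condition for twisted stable submodules. -/
def ACC {n : ℕ} (c : Fin n → X) (ρ : ℤ → PP K X) : Prop :=
  ∀ N : ℕ → Submodule (Sy K) (PP K X), Monotone N → (∀ j, TSt c ρ (N j)) →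
    ∃ j₀, ∀ j, N j ≤ N j₀

/-- The ascending chain condition for twisted stable submodules containing an ideal. -/
def ACCI {n : ℕ} (c : Fin n → X) (ρ : ℤ → PP K X) (g : PP K X) : Prop :=
  ∀ N : ℕ → Submodule (Sy K) (PP K X), Monotone N → (∀ j, TSt c ρ (N j)) →
    (∀ j F, g * F ∈ N j) → ∃ j₀, ∀ j, N j ≤ N j₀

end WittACC
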