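import Pool.Agent.helper37.WittC.Base
import Pool.Agent.helper37.Witt.Acc

/-!
The recurrence ideals `rr c` and their basic properties.
-/

set_option linter.unusedSectionVars false

namespace WittACC

open MvPolynomial

variable {K : Type*} [Field K]

section hv

variable {X X' : Type*} [Fintype X] [DecidableEq X] [Fintype X'] [DecidableEq X']

variable (K) in
/-- The generic difference quotient `(w_0^(v+1) - w_1^(v+1)) / (w_0 - w_1)`. -/
noncomputable def hq (v : ℤ) : PP K (Fin 2) :=
  Classical.choose (sub_dvd_wz (K := Sy K) (0 : Fin 2) 1 (v + 1))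

lemma hq_spec (v : ℤ) : (w 0 - w 1) * hq K v = wz 0 (v + 1) - wz 1 (v + 1) :=
  (Classical.choose_spec (sub_dvd_wz (K := Sy K) (0 : Fin 2) 1 (v + 1))).symm

variable (K) in
/-- The difference quotient `(w_i^(v+1) - w_j^(v+1)) / (w_i - w_j)`. -/
noncomputable def hv (v : ℤ) (i j : X) : PP K X := sub ![i, j] (hq K v)

lemma hv_spec (v : ℤ) (i j : X) : (w i - w j) * hv K v i j = wz i (v + 1) - wz j (v + 1) := by
  have h := congrArg (sub ![i, j] : PP K (Fin 2) → PP K X) (hq_spec v)
  rw [map_mul, map_sub, map_sub, sub_w, sub_w, sub_wz, sub_wz] at h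
  simpa [hv] using h

omit [Fintype X'] in
lemma sub_hv (f : X → X') (v : ℤ) (i j : X) : sub f (hv K v i j) = hv K v (f i) (f j) := by
  have : f ∘ ![i, j] = ![f i, f j] := by
    ext k; fin_cases k <;> rfl
  rw [hv, hv, sub_sub, this]

lemma hv_self (v : ℤ) (i : X) : hv K v i i = ((v + 1 : ℤ) : Sy K) • wz i v := by
  have h := congrArg (dg (ev 0)) (hq_spec (K := K) v)
  rw [dg_leib, map_sub, map_sub, w, w, dg_wz, dg_wz, dg_wz, dg_wz] at h
  simp only [ev_apply, Pi.single_eq_same, Int.cast_one, one_smul, ne_eq, zero_ne_one,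
    not_false_eq_true, Pi.single_eq_of_ne, Int.cast_zero, zero_smul, sub_zero] at h
  have h2 := congrArg (sub ![i, i] : PP K (Fin 2) → PP K X) h
  rw [map_add, map_mul, map_mul, map_sub, sub_wz, sub_wz, map_smul, sub_wz] at h2
  simp only [Matrix.cons_val_zero, Matrix.cons_val_one, sub_self, zero_mul, add_zero] at h2
  have h3 : wz i 1 * hv K v i i = wz i 1 * (((v + 1 : ℤ) : Sy K) • wz i v) := by
    rw [hv, h2, mul_smul_comm, ← wz_add, add_comm 1 v]
  exact (wz_isUnit i 1).mul_left_cancel h3

lemma pd_w_sub (v : ℤ) (i j : X) : pd v (w i - w j : PP K X) = -hv K v i j * (w i - w j) := by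
  have h := hv_spec (K := K) v i j
  rw [map_sub, pd_w, pd_w, neg_mul, mul_comm, h]; ring

lemma pd_prod {ι : Type*} (s : Finset ι) (f : ι → PP K X) (g : ι → PP K X) (v : ℤ)
    (h : ∀ i ∈ s, pd v (f i) = g i * f i) : pd v (∏ i ∈ s, f i) = (∑ i ∈ s, g i) * ∏ i ∈ s, f i := by
  classical
  induction s using Finset.induction_on with
  | empty => simp
  | insert i s hi ih =>
    rw [Finset.prod_insert hi, Finset.sum_insert hi, Derivation.leibniz,
      ih (fun j hj => h j (Finset.mem_insert_of_mem hj)), h i (Finset.mem_insert_self _ _)]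
    simp only [smul_eq_mul]; ring

end hv

section eY

variable {X : Type*} [Fintype X] [DecidableEq X] {Y : Type*} [Fintype Y] [DecidableEq Y]

/-- The map `x^a y^b ↦ (∏ e_{b}) x^a`. -/
noncomputable def eY : PP K (X ⊕ Y) →ₗ[Sy K] PP K X :=
  lin fun a => (∏ y, (MvPolynomial.X (a (Sum.inr y)) : Sy K)) • mon fun i => a (Sum.inl i)

lemma eY_mon (a : X ⊕ Y → ℤ) : eY (mon a : PP K (X ⊕ Y)) =
    (∏ y, (MvPolynomial.X (a (Sum.inr y)) : Sy K)) • mon fun i => a (Sum.inl i) := by
  rw [eY, lin_mon]

lemma push_inl (a : X → ℤ) : push (Sum.inl : X → X ⊕ Y) a = Sum.elim a 0 := by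
  ext y
  rcases y with y | y
  · simp [push_apply]
  · simp [push_apply]

lemma eY_mul_inl (F : PP K X) (G : PP K (X ⊕ Y)) : eY (sub Sum.inl F * G) = F * eY G := by
  induction F using lau_induction with
  | h0 => simp
  | ha x y hx hy => rw [map_add, add_mul, map_add, hx, hy, add_mul]
  | hs c x hx => rw [map_smul, smul_mul_assoc, map_smul, hx, smul_mul_assoc]
  | hm a =>
    induction G using lau_induction with
    | h0 => simp
    | ha x y hx hy => rw [mul_add, map_add, hx, hy, map_add, mul_add]
    | hs c x hx => rw [mul_smul_comm, map_smul, hx, map_smul, mul_smul_comm]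
    | hm b =>
      rw [sub_mon, mon_mul, eY_mon, eY_mon, mul_smul_comm, mon_mul, push_inl]
      congr 1
      refine Finset.prod_congr rfl fun y _ => ?_
      simp

/-- Equivariance of `eY`. -/
lemma eY_equivariant (lam : X → ℤ) (v : ℤ) (G : PP K (X ⊕ Y)) :
    DD lam v (eY G) = eY (DD (Sum.elim lam 1) v G) := by
  refine equivariant_of_mon eY v (fun a => ?_) G
  rw [eY_mon, DD_smul, DD_mon, DD_mon, map_sum, Fintype.sum_sum_type]
  simp only [map_smul, eY_mon, Sum.elim_inl, Sum.elim_inr, Pi.one_apply, mul_one]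
  rw [add_comm]
  congr 1
  · rw [Finset.smul_sum]
    refine Finset.sum_congr rfl fun i _ => ?_
    rw [smul_comm]
    congr 2
    · refine Finset.prod_congr rfl fun y _ => ?_
      simp
    · congr 1
      ext k
      by_cases h : k = i
      · subst h; simp
      · simp [h]
  · have h1 : ∀ y : Y, (fun i => (a + Pi.single (Sum.inr y) v : X ⊕ Y → ℤ) (Sum.inl i))
        = fun i => a (Sum.inl i) := by
      intro y; ext i; simp
    simp only [h1]
    simp only [smul_smul]
    rw [← Finset.sum_smul]
    congr 1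
    have hder : ∀ s : Finset Y, del v (∏ y ∈ s, (MvPolynomial.X (a (Sum.inr y)) : Sy K))
        = ∑ y ∈ s, ((v - a (Sum.inr y) : ℤ) : Sy K) *
          ∏ y' ∈ s, MvPolynomial.X ((a + Pi.single (Sum.inr y) v : X ⊕ Y → ℤ) (Sum.inr y')) := by
      intro s
      induction s using Finset.induction_on with
      | empty => simp
      | insert y s hy ih =>
        rw [Finset.prod_insert hy, Derivation.leibniz, ih, Finset.sum_insert hy,
          Finset.prod_insert hy, del_X, Finset.smul_sum, add_comm]
        congr 1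
        · simp only [smul_eq_mul, Pi.add_apply, Pi.single_eq_same]
          rw [Algebra.smul_def, mul_comm, mul_assoc]
          have h2 : ∏ y' ∈ s, (MvPolynomial.X (a (Sum.inr y')) : Sy K)
              = ∏ y' ∈ s, MvPolynomial.X (a (Sum.inr y') + (Pi.single (Sum.inr y) v : X ⊕ Y → ℤ) (Sum.inr y')) := by
            refine Finset.prod_congr rfl fun y' hy' => ?_
            have : y' ≠ y := fun h => hy (h ▸ hy')
            simp [this]
          rw [h2, add_comm v]
          congr 1
          rw [MvPolynomial.algebraMap_eq]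
          simp
        · refine Finset.sum_congr rfl fun y' hy' => ?_
          have hne : y ≠ y' := fun h => hy (h ▸ hy')
          rw [Finset.prod_insert hy, smul_eq_mul]
          simp [hne]
          ring
    exact hder Finset.univ

lemma sub_hx {X' : Type*} [Fintype X'] [DecidableEq X'] (f : X → X') (G : PP K (X ⊕ Y)) :
    sub f (eY G) = eY (sub (Sum.map f id) G) := by
  induction G using lau_induction with
  | h0 => simp
  | ha x y hx hy => simp [hx, hy]
  | hs c x hx => simp [hx]
  | hm a =>
    rw [eY_mon, map_smul, sub_mon, sub_mon, eY_mon]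
    have h1 : ∀ y : Y, push (Sum.map f id : X ⊕ Y → X' ⊕ Y) a (Sum.inr y) = a (Sum.inr y) := by
      intro y; rw [push_apply, Fintype.sum_sum_type]; simp
    have h2 : (fun i => push (Sum.map f id : X ⊕ Y → X' ⊕ Y) a (Sum.inl i))
        = push f (fun i => a (Sum.inl i)) := by
      ext i
      rw [push_apply, push_apply, Fintype.sum_sum_type]; simp
    simp only [h1, h2]

end eY

end WittACC
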