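import Pool.Agent.helper37.WittC.Minus

/-!
The special case of one light point of weight zero and no heavy roots.
-/

set_option linter.unusedSectionVars false
set_option linter.unusedVariables false

namespace WittACC

variable {K : Type*} [Field K] {X : Type*} [Fintype X] [DecidableEq X]

lemma cmap_up (δ : Derivation K (Sy K) (Sy K)) (f : Lau K X) : cmap δ (up f) = 0 := by
  induction f using lau_induction with
  | h0 => simp
  | ha x y hx hy => rw [map_add, map_add, hx, hy, add_zero]
  | hm a => rw [up_mon, cmap_mon]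
  | hs t x hx => rw [map_smul, Derivation.map_smul, hx, smul_zero]

lemma dg_up (q : X) (f : Lau K X) : dg (ev q) (up f : PP K X) = up (dg (ev q) f) := by
  induction f using lau_induction with
  | h0 => simp
  | ha x y hx hy => simp only [map_add, hx, hy]
  | hm a =>
    rw [up_mon, dg_mon, dg_mon, map_smul, up_mon, ev_apply, ev_apply, smul_eq_C_smul, map_intCast]
  | hs t x hx =>
    rw [map_smul, smul_eq_C_smul, map_smul, hx, map_smul, map_smul, ← smul_eq_C_smul]

lemma exists_up (c : Fin 0 → X) (F : PP K X) : ∃ f : Lau K X, F - up f ∈ rr K c := by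
  have h1 := sub_iot_phi c F
  have : IsEmpty (Fin (pbar K c).natDegree) := by rw [pbar_natDegree]; infer_instance
  obtain ⟨f, hf⟩ := MvPolynomial.C_surjective (R := Lau K X) (Fin (pbar K c).natDegree) (phi K c F)
  refine ⟨f, ?_⟩
  rw [← hf, iot_C] at h1
  exact h1

lemma dg_prod_memK {N : Submodule K (Lau K X)} (g : ℤ → (X → ℤ) → K) (S : Finset ℤ)
    (h : ∀ i ∈ S, ∀ z ∈ N, dg (g i) z ∈ N) : ∀ z ∈ N, dg (fun a => ∏ i ∈ S, g i a) z ∈ N := by
  induction S using Finset.induction_on with
  | empty => intro z hz; rw [dg_prod_empty]; exact hz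
  | insert i S hi ih =>
    intro z hz
    rw [dg_prod_insert g hi]
    exact h i (Finset.mem_insert_self _ _) _ (ih (fun j hj => h j (Finset.mem_insert_of_mem hj)) z hz)

lemma mon_mem_of_coeff [CharZero K] [Unique X] {N : Submodule K (Lau K X)}
    (hN : ∀ z ∈ N, dg (ev (default : X)) z ∈ N) {f : Lau K X} (hf : f ∈ N) {a : X → ℤ}
    (ha : f.coeff a ≠ 0) : (mon a : Lau K X) ∈ N := by
  classical
  set q : X := default with hq
  set E : Finset ℤ := f.coeff.support.image fun b => b q with hE
  have h1 := dg_prod_memK (N := N) (fun m b => (b q : K) - m) (E.erase (a q)) (fun m _ z hz => by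
    have : dg (fun b : X → ℤ => (b q : K) - m) z = dg (ev q) z - (m : K) • z := by
      apply AddMonoidAlgebra.ext
      ext b : 1
      rw [AddMonoidAlgebra.coeff_sub, Finsupp.sub_apply, dg_coeff', dg_coeff',
        AddMonoidAlgebra.coeff_smul_apply, ev_apply, smul_eq_mul]; ring
    rw [this]
    exact sub_mem (hN z hz) (N.smul_mem _ hz)) f hf
  have h2 : dg (fun b : X → ℤ => ∏ m ∈ E.erase (a q), ((b q : K) - m)) f =
      ((∏ m ∈ E.erase (a q), ((a q : K) - m)) * f.coeff a) • mon a := by
    apply AddMonoidAlgebra.ext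
    ext b : 1
    rw [dg_coeff', AddMonoidAlgebra.coeff_smul_apply, mon, AddMonoidAlgebra.coeff_single, Finsupp.single_apply]
    by_cases hab : a = b
    · subst hab; simp
    · rw [if_neg hab, smul_zero]
      by_cases hb : f.coeff b = 0
      · rw [hb, mul_zero]
      · rw [Finset.prod_eq_zero (i := b q), zero_mul]
        · refine Finset.mem_erase.2 ⟨fun h => hab ?_, Finset.mem_image.2 ⟨b, Finsupp.mem_support_iff.2 hb, rfl⟩⟩
          ext x
          rw [Unique.eq_default x, ← hq]; exact h.symm
        · simp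
  rw [h2] at h1
  have h3 : (∏ m ∈ E.erase (a q), ((a q : K) - m)) * f.coeff a ≠ 0 := by
    refine mul_ne_zero (Finset.prod_ne_zero_iff.2 fun m hm => ?_) ha
    rw [sub_ne_zero]; exact_mod_cast (Finset.mem_erase.1 hm).1.symm
  have h4 := N.smul_mem (((∏ m ∈ E.erase (a q), ((a q : K) - m)) * f.coeff a)⁻¹) h1
  rwa [smul_smul, inv_mul_cancel₀ h3, one_smul] at h4

theorem ACC_special [CharZero K] [Unique X] (c : Fin 0 → X) (lam : X → ℤ) (hlam : lam default = 0) :
    ACC c (om K lam) := by
  classical
  intro A hmono hA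
  set q : X := default with hq
  let N : ℕ → Submodule K (Lau K X) := fun j =>
    ((A j).restrictScalars K).comap (up : Lau K X →ₐ[K] PP K X).toLinearMap
  have hNmem : ∀ j f, f ∈ N j ↔ up f ∈ A j := fun j f => Iff.rfl
  have hact : ∀ j, ∀ f ∈ N j, ∀ v : ℤ, wz q v * dg (ev q) f ∈ N j := by
    intro j f hf v
    have h1 := (hA j).st v (up f) hf
    have h2 : om K lam v = 0 := by
      rw [om, Finset.univ_unique, Finset.sum_singleton, hlam, mul_zero, Int.cast_zero, zero_smul]
    rw [h2, zero_mul, add_zero, pd_apply, cmap_up, zero_sub, Finset.univ_unique,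
      Finset.sum_singleton, dg_up, ← up_wz, ← map_mul] at h1
    rw [hNmem]
    have h3 := neg_mem h1
    rwa [neg_neg] at h3
  have hth : ∀ j, ∀ f ∈ N j, dg (ev q) f ∈ N j := by
    intro j f hf
    have := hact j f hf 0
    rwa [wz_zero, one_mul] at this
  have hall : ∀ j, ∀ f ∈ N j, ∀ a, f.coeff a ≠ 0 → a q ≠ 0 → A j = ⊤ := by
    intro j f hf a ha haq
    have h1 := mon_mem_of_coeff (hth j) hf ha
    have h2 : ∀ v : ℤ, (mon (a + Pi.single q v) : Lau K X) ∈ N j := by
      intro v
      have h3 := hact j _ h1 v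
      rw [dg_mon, mul_smul_comm, wz, mon_mul, add_comm, ev_apply] at h3
      have h4 := (N j).smul_mem (((a q : ℤ) : K)⁻¹) h3
      rwa [smul_smul, inv_mul_cancel₀ (by exact_mod_cast haq), one_smul] at h4
    have h5 : ∀ f, f ∈ N j := by
      intro f
      induction f using lau_induction with
      | h0 => exact zero_mem _
      | ha x y hx hy => exact add_mem hx hy
      | hs t x hx => exact (N j).smul_mem _ hx
      | hm b =>
        have := h2 (b q - a q)
        convert this using 2
        ext x
        rw [Unique.eq_default x, ← hq]; simp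
    rw [eq_top_iff]
    intro F _
    obtain ⟨f, hf⟩ := exists_up c F
    have e : F = (F - up f) + up f := by ring
    rw [e]
    exact add_mem ((hA j).rr _ hf) (h5 f)
  by_cases hex : ∃ j, A j = ⊤
  · obtain ⟨j, hj⟩ := hex
    exact ⟨j, fun i => by rw [hj]; exact le_top⟩
  push Not at hex
  have hconst : ∀ j, ∀ f ∈ N j, ∃ t : K, f = t • 1 := by
    intro j f hf
    refine ⟨f.coeff 0, ?_⟩
    apply AddMonoidAlgebra.ext
    ext a : 1
    rw [AddMonoidAlgebra.coeff_smul_apply, ← mon_zero, mon, AddMonoidAlgebra.coeff_single,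
      Finsupp.single_apply]
    by_cases h0 : (0 : X → ℤ) = a
    · rw [if_pos h0, h0]; simp
    · rw [if_neg h0, smul_zero]
      by_contra h
      refine hex j (hall j f hf a h fun haq => h0 ?_)
      ext x
      rw [Unique.eq_default x, ← hq, haq]; rfl
  by_cases hex2 : ∃ j, (1 : Lau K X) ∈ N j
  · obtain ⟨j, hj⟩ := hex2
    refine ⟨j, fun i F hF => ?_⟩
    obtain ⟨f, hf⟩ := exists_up c F
    have h1 : f ∈ N i := by
      rw [hNmem]
      have h2 := sub_mem hF ((hA i).rr _ hf)
      rwa [sub_sub_cancel] at h2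
    obtain ⟨t, rfl⟩ := hconst i f h1
    have h2 := (N j).smul_mem t hj
    rw [hNmem] at h2
    have e : F = (F - up (t • 1)) + up (t • 1) := by ring
    rw [e]
    exact add_mem ((hA j).rr _ hf) h2
  · push Not at hex2
    refine ⟨0, fun i F hF => ?_⟩
    obtain ⟨f, hf⟩ := exists_up c F
    have h1 : f ∈ N i := by
      rw [hNmem]
      have h2 := sub_mem hF ((hA i).rr _ hf)
      rwa [sub_sub_cancel] at h2
    obtain ⟨t, rfl⟩ := hconst i f h1
    have ht : t = 0 := by
      by_contra ht
      apply hex2 i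
      have h3 := (N i).smul_mem t⁻¹ h1
      rwa [smul_smul, inv_mul_cancel₀ ht, one_smul] at h3
    rw [ht, zero_smul, map_zero, sub_zero] at hf
    exact (hA 0).rr _ hf

end WittACC
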