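import Pool.Agent.helper37.WittC.Twist

/-!
The boundary strata.
-/

set_option linter.unusedSectionVars false
set_option linter.unusedVariables false

namespace WittACC

open MvPolynomial

variable {K : Type*} [Field K] {X : Type*} [Fintype X] [DecidableEq X]

section functorial

variable {X' : Type*} [Fintype X'] [DecidableEq X']

lemma sub_pc (f : X → X') {n : ℕ} (c : Fin n → X) :
    sub (Sum.map f id) (pc K c) = pc K (f ∘ c) := by
  rw [pc, pc, map_prod]
  refine Finset.prod_congr rfl fun k _ => ?_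
  rw [map_sub, sub_w, sub_w]; rfl

lemma sub_mem_rr (f : X → X') {n : ℕ} (c : Fin n → X) {F : PP K X} (hF : F ∈ rr K c) :
    sub f F ∈ rr K (f ∘ c) := by
  obtain ⟨G, rfl⟩ := hF
  rw [eL, sub_hx, map_mul, sub_pc]
  exact eL_mem_rr _ _

lemma sub_section {f : X → X'} {s : X' → X} (h : f ∘ s = id) (F : PP K X') : sub f (sub s F) = F := by
  rw [sub_sub, h, sub_id]

lemma exists_sub_rr {f : X → X'} {s : X' → X} (h : f ∘ s = id) {n : ℕ} (c : Fin n → X) {F : PP K X'}
    (hF : F ∈ rr K (f ∘ c)) : ∃ G ∈ rr K c, sub f G = F := by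
  obtain ⟨G, rfl⟩ := hF
  refine ⟨eL (pc K c * sub (Sum.map s id) G), eL_mem_rr _ _, ?_⟩
  rw [eL, sub_hx, map_mul, sub_pc, sub_section]
  rw [Sum.map_comp_map, h]
  simp

lemma sub_om_TW (f : X → X') {ρ : ℤ → PP K X} (hρ : ρ ∈ TW K X) : (fun v => sub f (ρ v)) ∈ TW K X' := by
  induction hρ using AddSubmonoid.closure_induction with
  | zero =>
    have : (fun v : ℤ => (sub f ((0 : ℤ → PP K X) v) : PP K X')) = 0 := by ext v : 1; simp
    rw [this]; exact zero_mem _
  | add ρ ρ' _ _ h h' =>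
    have : (fun v : ℤ => (sub f ((ρ + ρ') v) : PP K X'))
        = (fun v : ℤ => (sub f (ρ v) : PP K X')) + (fun v : ℤ => (sub f (ρ' v) : PP K X')) := by
      ext v : 1; simp
    rw [this]; exact add_mem h h'
  | mem ρ hρ =>
    rcases hρ with (⟨i, rfl⟩ | ⟨i, rfl⟩) | ⟨i, j, rfl⟩
    · simp only [map_smul, sub_wz]; exact pos_mem_TW _
    · simp only [map_smul, map_neg, sub_wz]; exact neg_mem_TW _
    · simp only [map_neg, sub_hv]; exact hv_mem_TW _ _

/-- Transport of chains along a surjection of variables whose kernel is in all members. -/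
lemma ACCI.of_sub {f : X → X'} {s : X' → X} (hs : f ∘ s = id) {n : ℕ} {c : Fin n → X} {g : PP K X}
    (hg : ∀ F : PP K X, g ∣ F - sub (s ∘ f) F)
    (h : ∀ ρ ∈ TW K X', ACC (f ∘ c) ρ) {ρ : ℤ → PP K X} (hρ : ρ ∈ TW K X) : ACCI c ρ g := by
  intro N h1 h2 h3
  obtain ⟨j₀, hj₀⟩ := h _ (sub_om_TW f hρ) (fun j => (N j).map (sub f : PP K X →ₐ[Sy K] PP K X').toLinearMap)
    (fun a b hab => Submodule.map_mono (h1 hab)) (fun j => ⟨fun F hF => by
      obtain ⟨G, hG, rfl⟩ := exists_sub_rr hs c hF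
      exact ⟨G, (h2 j).rr G hG, rfl⟩, fun v F hF => by
      obtain ⟨F, hF, rfl⟩ := hF
      refine ⟨_, (h2 j).st v F hF, ?_⟩
      simp only [AlgHom.toLinearMap_apply, map_add, map_mul, pd_sub_map]⟩)
  refine ⟨j₀, fun j F hF => ?_⟩
  obtain ⟨F', hF', he⟩ := hj₀ j ⟨F, hF, rfl⟩
  simp only [AlgHom.toLinearMap_apply] at he
  obtain ⟨G, hG⟩ := hg (F - F')
  have h4 : sub (s ∘ f) (F - F') = 0 := by
    rw [← sub_sub, map_sub, he, _root_.sub_self, map_zero]
  rw [h4, sub_zero] at hG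
  have e : F = F' + g * G := by rw [← hG]; ring
  rw [e]
  exact add_mem hF' (h3 _ _)

/-- Transport along an equivalence. -/
lemma ACC.of_equiv (e : X ≃ X') {n : ℕ} {c : Fin n → X}
    (h : ∀ ρ ∈ TW K X', ACC (e ∘ c) ρ) {ρ : ℤ → PP K X} (hρ : ρ ∈ TW K X) : ACC c ρ := by
  have hs : e ∘ e.symm = id := by ext x; simp
  have h1 : ACCI c ρ 0 := ACCI.of_sub (f := e) (s := e.symm) hs (g := 0) (fun F => by
    have : e.symm ∘ e = id := by ext x; simp
    rw [this, sub_id, _root_.sub_self]) h hρ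
  intro N hN h2
  exact h1 N hN h2 fun j F => by rw [zero_mul]; exact zero_mem _

end functorial

section merge

/-- The merging map. -/
def mrg' {i j : X} (hij : i ≠ j) : X → {x : X // x ≠ j} := fun x => if h : x = j then ⟨i, hij⟩ else ⟨x, h⟩

lemma ACCI.merge {n : ℕ} {c : Fin n → X} {i j : X} (hij : i ≠ j)
    (h : ∀ (c' : Fin n → {x : X // x ≠ j}), ∀ ρ ∈ TW K {x : X // x ≠ j}, ACC c' ρ)
    {ρ : ℤ → PP K X} (hρ : ρ ∈ TW K X) : ACCI c ρ (w i - w j) := by
  refine ACCI.of_sub (f := mrg' hij) (s := Subtype.val) ?_ (fun F => ?_) (h _) hρ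
  · ext ⟨x, hx⟩; simp [mrg', hx]
  · have : (Subtype.val : {x : X // x ≠ j} → X) ∘ mrg' hij = mrg i j := by
      ext x
      simp only [Function.comp, mrg', mrg]
      split_ifs <;> rfl
    rw [this]
    exact dvd_sub_mrg hij F

lemma SIm.w_sub {n : ℕ} (c : Fin n → X) (i j : X) : SIm c (w i - w j : PP K X) (fun v => -hv K v i j) :=
  fun v => by rw [pd_w_sub, _root_.sub_self]; exact zero_mem _

end merge

section bk

variable (K) in
/-- The elements `b_k`. -/
noncomputable def bk {n : ℕ} (c : Fin (n + 1) → X) (k : Fin (n + 1)) : PP K X :=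
  eL (pc K (c ∘ k.succAbove))

lemma pc_succAbove {n : ℕ} (c : Fin (n + 1) → X) (k : Fin (n + 1)) :
    pc K c = (w (Sum.inr ()) - w (Sum.inl (c k))) * pc K (c ∘ k.succAbove) := by
  rw [pc, Fin.prod_univ_succAbove _ k, pc]; rfl

/-- Evaluating the auxiliary variable. -/
lemma dvd_sub_eval (i : X) (G : PP K (X ⊕ Unit)) :
    (w (Sum.inr ()) - w (Sum.inl i) : PP K (X ⊕ Unit)) ∣
      G - sub Sum.inl (sub (Sum.elim id (fun _ => i)) G) := by
  have h := dvd_sub_mrg (R := Sy K) (i := (Sum.inl i : X ⊕ Unit)) (j := Sum.inr ()) (by simp) G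
  have e : (Sum.inl : X → X ⊕ Unit) ∘ Sum.elim id (fun _ => i) = mrg (Sum.inl i) (Sum.inr ()) := by
    ext x
    rcases x with x | x
    · simp [mrg]
    · simp [mrg]
  rw [sub_sub, e, ← neg_sub (w (Sum.inl i)), neg_dvd]
  exact h

/-- Reduction modulo a linear factor. -/
lemma eL_eval {n : ℕ} (c : Fin (n + 1) → X) (k : Fin (n + 1)) (G : PP K (X ⊕ Unit)) :
    eL (G * pc K (c ∘ k.succAbove)) - sub (Sum.elim id (fun _ => c k)) G * bk K c k ∈ rr K c := by
  obtain ⟨G', hG'⟩ := dvd_sub_eval (c k) G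
  have key : eL (G * pc K (c ∘ k.succAbove)) - sub (Sum.elim id (fun _ => c k)) G * bk K c k
      = eL (pc K c * G') := by
    have e1 : pc K c * G' = G * pc K (c ∘ k.succAbove)
        - sub Sum.inl (sub (Sum.elim id (fun _ => c k)) G) * pc K (c ∘ k.succAbove) := by
      rw [← _root_.sub_mul, hG', pc_succAbove c k]; ring
    have e2 : eL (sub Sum.inl (sub (Sum.elim id (fun _ => c k)) G) * pc K (c ∘ k.succAbove))
        = sub (Sum.elim id (fun _ => c k)) G * bk K c k := eY_mul_inl _ _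
    rw [e1, map_sub, e2]
  rw [key]
  exact eL_mem_rr _ _

lemma rr_le_bk {n : ℕ} (c : Fin (n + 1) → X) (k : Fin (n + 1)) {F : PP K X}
    (hF : F ∈ rr K (c ∘ k.succAbove)) : ∃ G, F - bk K c k * G ∈ rr K c := by
  obtain ⟨G, rfl⟩ := hF
  refine ⟨sub (Sum.elim id (fun _ => c k)) G, ?_⟩
  rw [mul_comm (pc K _), mul_comm (bk K c k)]
  exact eL_eval c k G

lemma rr_anti {n : ℕ} (c : Fin (n + 1) → X) (k : Fin (n + 1)) {F : PP K X} (hF : F ∈ rr K c) :
    F ∈ rr K (c ∘ k.succAbove) := by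
  obtain ⟨G, rfl⟩ := hF
  rw [pc_succAbove c k]
  exact eL_mem_rr_of_dvd _ (by rw [mul_assoc, mul_left_comm]; exact dvd_mul_right _ _)

lemma ACCI.bk {n : ℕ} {c : Fin (n + 1) → X} (k : Fin (n + 1)) {ρ : ℤ → PP K X}
    (h : ACC (c ∘ k.succAbove) ρ) : ACCI c ρ (bk K c k) := fun N h1 h2 h3 => by
  refine h N h1 fun j => ⟨fun F hF => ?_, (h2 j).st⟩
  obtain ⟨G, hG⟩ := rr_le_bk c k hF
  have e : F = (F - WittACC.bk K c k * G) + WittACC.bk K c k * G := by ring
  rw [e]
  exact add_mem ((h2 j).rr _ hG) (h3 _ _)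

variable (K) in
/-- The twist of `b_k`. -/
noncomputable def abk {n : ℕ} (c : Fin (n + 1) → X) (k : Fin (n + 1)) (v : ℤ) : PP K X :=
  (v : Sy K) • wz (c k) v + ∑ l : Fin n, -hv K v (c k) (c (k.succAbove l))

lemma abk_mem_TW {n : ℕ} (c : Fin (n + 1) → X) (k : Fin (n + 1)) : abk K c k ∈ TW K X := by
  have h1 : abk K c k = (fun v : ℤ => (v : Sy K) • (wz (c k) v : PP K X)) +
      ∑ l : Fin n, fun v : ℤ => -hv K v (c k) (c (k.succAbove l)) := by
    ext v : 1
    rw [abk, Pi.add_apply, Finset.sum_apply]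
  rw [h1]
  exact add_mem (pos_mem_TW _) (AddSubmonoid.sum_mem _ fun l _ => hv_mem_TW _ _)

lemma SIm.bk {n : ℕ} (c : Fin (n + 1) → X) (k : Fin (n + 1)) : SIm c (bk K c k) (abk K c k) := fun v => by
  have h1 : pd v (WittACC.bk K c k) = eL (((v : Sy K) • wz (Sum.inr ()) v +
      ∑ l : Fin n, -hv K v (Sum.inr ()) (Sum.inl (c (k.succAbove l)))) * pc K (c ∘ k.succAbove)) := by
    have h2 := eY_equivariant (Y := Unit) 0 v (pc K (c ∘ k.succAbove))
    rw [DD] at h2
    have h3 : om K (0 : X → ℤ) v = 0 := by simp [om]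
    rw [h3, zero_mul, add_zero] at h2
    rw [WittACC.bk, h2, DD, pd_pc, om, Fintype.sum_sum_type]
    simp only [Sum.elim_inl, Pi.zero_apply, mul_zero, Int.cast_zero, zero_smul, Finset.sum_const_zero,
      Sum.elim_inr, Pi.one_apply, mul_one, Finset.univ_unique, Finset.sum_singleton, zero_add]
    congr 1
    rw [add_comm, add_mul]
    rfl
  rw [h1]
  have h4 := eL_eval c k ((v : Sy K) • wz (Sum.inr ()) v +
      ∑ l : Fin n, -hv K v (Sum.inr ()) (Sum.inl (c (k.succAbove l))))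
  have h5 : sub (Sum.elim id (fun _ => c k)) ((v : Sy K) • wz (Sum.inr ()) v +
      ∑ l : Fin n, -hv K v (Sum.inr ()) (Sum.inl (c (k.succAbove l))) : PP K (X ⊕ Unit)) = abk K c k v := by
    rw [abk, map_add, map_smul, sub_wz, map_sum]
    simp only [map_neg, sub_hv]
    rfl
  rw [h5] at h4
  exact h4

end bk

end WittACC
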