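import Pool.Agent.helper37.WittC.Pair3

/-!
Multiplication operators on stable submodules.
-/

set_option linter.unusedSectionVars false
set_option linter.unusedVariables false

namespace WittACC

variable {K : Type*} [Field K] {l : ℕ} {H : Type*} [Fintype H] [DecidableEq H] {n : ℕ}

noncomputable instance (lam : Fin l ⊕ H → ℤ) : Fintype (Gm lam) := Fintype.ofFinite _

section main

variable {lam : Fin l ⊕ H → ℤ} {c : Fin n → H}

lemma sum_contrS (G : PP K (Fin l)) (F : PP K (Fin l ⊕ H)) :
    ∑ σ : Fin (l + l) → Fin l, contrS lam σ (ZZ lam c G F)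
      = UU K lam * DDn K l c * (∑ τ : Gm lam, sub Sum.inl (sub (τ : Equiv.Perm (Fin l)) G)) * Tht K lam F := by
  rw [Finset.mul_sum, Finset.sum_mul]
  symm
  refine Finset.sum_of_injOn (fun τ : Gm lam => ((τ : Equiv.Perm (Fin l)) ∘ pq l : Fin (l + l) → Fin l))
    ?_ ?_ ?_ ?_
  · intro π _ ρ _ h
    ext i
    have := congrFun h (sL l i)
    simpa using congrArg Fin.val this
  · intro π _; simp
  · intro σ _ hσ
    by_contra hne
    have hinj : ∀ a b, σ a = σ b → pq l a = pq l b := by
      intro a b hab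
      by_contra hq
      exact hne (contrS_eq_zero lam σ hab (ZZ_dvd lam c G F hq))
    have h1 : Function.Injective (fun i : Fin l => σ (sL l i)) := by
      intro i j hij
      simpa using hinj _ _ hij
    have h2 : Function.Bijective (fun i : Fin l => σ (sL l i)) :=
      Finite.injective_iff_bijective.1 h1
    have h3 : (Equiv.ofBijective _ h2) ∘ pq l = σ := by
      ext a
      obtain ⟨i, rfl⟩ | ⟨i, rfl⟩ := slot_cases a
      · simp
      · obtain ⟨j, hj⟩ := h2.2 (σ (sR l i))
        have := hinj _ _ hj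
        simp only [pq_left, pq_right] at this
        subst this
        simp only [Function.comp, pq_right, Equiv.ofBijective_apply]
        exact congrArg Fin.val hj
    by_cases hG : Equiv.ofBijective _ h2 ∈ Gm lam
    · exact hσ ⟨⟨_, hG⟩, by simp, h3⟩
    · obtain ⟨j, hj, hj2⟩ := exists_of_notMem_Gm hG
      obtain ⟨y, hy⟩ := ZZ_sq_dvd lam c G F hj
      apply hne
      rw [← h3, hy]
      exact contrS_type_zero lam _ hj2 y
  · intro τ _
    exact (contrS_pair lam c τ τ.2 G F).symm

/-- The multiplication operators obtained from the action. -/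
theorem T3 {A : Submodule (Sy K) (PP K (Fin l ⊕ H))} (hc : Function.Surjective c)
    (hA : TSt (Sum.inr ∘ c : Fin n → Fin l ⊕ H) (om K lam) A) {F : PP K (Fin l ⊕ H)} (hF : F ∈ A)
    {r : Lau K (Fin n)} (hr : r ∈ LS K n) (G : PP K (Fin l)) :
    algebraMap (Sy K) (PP K (Fin l ⊕ H)) (hh K n ^ (1 + (l + l))) * (UU K lam * DDn K l c) *
      (up (sub (Sum.inr ∘ c) r) * (∑ τ : Gm lam, sub Sum.inl (sub (τ : Equiv.Perm (Fin l)) G))) * Tht K lam F
      ∈ A := by
  have h1 := EO_comp (LS_EO hA.rr hr) (OpG_EO hc hA (l + l) (PsiC lam G)) F hF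
  rw [LinearMap.comp_apply, LinearMap.mulLeft_apply, OpG_apply] at h1
  have h2 := sum_contrS (lam := lam) (c := c) G F
  unfold ZZ at h2
  rw [h2] at h1
  convert h1 using 1
  rw [Algebra.smul_def]; ring

end main

end WittACC
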