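import Pool.Agent.helper37.WittC.RR

/-!
Twists, semi-invariant elements and strata.
-/

set_option linter.unusedSectionVars false
set_option linter.unusedVariables false

namespace WittACC

open MvPolynomial

variable {K : Type*} [Field K] {X : Type*} [Fintype X] [DecidableEq X]

section restr

/-- Merging the variable `j` into `i`. -/
def mrg (i j : X) : X → X := fun x => if x = j then i else x

lemma dvd_sub_mrg {R : Type*} [CommRing R] {i j : X} (hij : i ≠ j) (F : Lau R X) :
    (w i - w j : Lau R X) ∣ F - sub (mrg i j) F := by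
  induction F using lau_induction with
  | h0 => simp
  | ha x y hx hy =>
    rw [map_add]
    have : x + y - (sub (mrg i j) x + sub (mrg i j) y)
      = (x - sub (mrg i j) x) + (y - sub (mrg i j) y) := by ring
    rw [this]; exact dvd_add hx hy
  | hs c x hx =>
    rw [map_smul, ← smul_sub]; exact Dvd.dvd.mul_left hx (algebraMap _ _ c) |>.trans (by
      rw [← Algebra.smul_def])
  | hm a =>
    obtain ⟨a', b, ha', rfl⟩ : ∃ (a' : X → ℤ) (b : ℤ), a' j = 0 ∧ a = a' + Pi.single j b := by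
      refine ⟨Function.update a j 0, a j, by simp, ?_⟩
      ext x
      by_cases hx : x = j
      · subst hx; simp
      · simp [hx]
    have h1 : push (mrg i j) a' = a' := by
      ext y
      rw [push_apply, Finset.sum_eq_single y]
      · by_cases hy : y = j
        · subst hy; simp [ha']
        · simp [mrg, hy]
      · intro x _ hxy
        by_cases hx : x = j
        · subst hx; simp [ha']
        · simp [mrg, hx, hxy]
      · intro h; exact absurd (Finset.mem_univ _) h
    rw [sub_mon, map_add, h1, push_single, ← mon_mul, ← mon_mul, ← mul_sub]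
    have h2 : mrg i j j = i := by simp [mrg]
    rw [h2]
    refine Dvd.dvd.mul_left ?_ _
    rw [← neg_sub (mon (Pi.single i b))]
    exact (sub_dvd_wz i j b).neg_right

end restr

section semi

variable {n : ℕ} {c : Fin n → X}

/-- Semi-invariants modulo `rr c`. -/
def SIm (c : Fin n → X) (g : PP K X) (α : ℤ → PP K X) : Prop :=
  ∀ v, pd v g - α v * g ∈ rr K c

lemma ACCI.one (ρ : ℤ → PP K X) : ACCI c ρ 1 := fun N _ _ h =>
  ⟨0, fun j F _ => by have := h 0 F; rwa [one_mul] at this⟩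

lemma ACC.accI {ρ : ℤ → PP K X} (h : ACC c ρ) (g : PP K X) : ACCI c ρ g := fun N h1 h2 _ => h N h1 h2

lemma ACCI.mono {ρ : ℤ → PP K X} {g g' : PP K X} (h : ACCI c ρ g) (u : PP K X)
    (hu : g - u * g' ∈ rr K c) : ACCI c ρ g' := fun N h1 h2 h3 => by
  refine h N h1 h2 fun j F => ?_
  have e : g * F = (g - u * g') * F + g' * (u * F) := by ring
  rw [e]
  exact add_mem ((h2 j).rr _ (Ideal.mul_mem_right _ _ hu)) (h3 j _)

/-- The submodule `g P + rr c`. -/
noncomputable def gP (c : Fin n → X) (g : PP K X) : Submodule (Sy K) (PP K X) :=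
  LinearMap.range (LinearMap.mulLeft (Sy K) g) ⊔ (rr K c).restrictScalars (Sy K)

lemma mem_gP {g F : PP K X} : F ∈ gP c g ↔ ∃ G, F - g * G ∈ rr K c := by
  rw [gP, Submodule.mem_sup]
  constructor
  · rintro ⟨_, ⟨G, rfl⟩, r, hr, rfl⟩
    refine ⟨G, ?_⟩
    simpa using hr
  · rintro ⟨G, hG⟩
    exact ⟨_, ⟨G, rfl⟩, F - g * G, hG, by simp⟩

lemma gP_st {g : PP K X} {α : ℤ → PP K X} (hg : SIm c g α) (ρ : ℤ → PP K X) : TSt c ρ (gP c g) where
  rr F hF := mem_gP.2 ⟨0, by simpa using hF⟩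
  st v F hF := by
    obtain ⟨G, hG⟩ := mem_gP.1 hF
    refine mem_gP.2 ⟨α v * G + pd v G + ρ v * G, ?_⟩
    have h1 := pd_mem_rr c v hG
    rw [map_sub, Derivation.leibniz, smul_eq_mul, smul_eq_mul] at h1
    have h2 := Ideal.mul_mem_left _ G (hg v)
    have h3 := Ideal.mul_mem_left _ (ρ v) hG
    have h4 := add_mem (add_mem h1 h2) h3
    convert h4 using 1
    ring

lemma TSt.sup {ρ : ℤ → PP K X} {N N' : Submodule (Sy K) (PP K X)} (h : TSt c ρ N) (h' : TSt c ρ N') :
    TSt c ρ (N ⊔ N') where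
  rr F hF := Submodule.mem_sup_left (h.rr F hF)
  st v F hF := by
    obtain ⟨a, ha, b, hb, rfl⟩ := Submodule.mem_sup.1 hF
    have e : pd v (a + b) + ρ v * (a + b) = (pd v a + ρ v * a) + (pd v b + ρ v * b) := by
      rw [map_add]; ring
    rw [e]
    exact Submodule.add_mem_sup (h.st v a ha) (h'.st v b hb)

/-- Division by a semi-invariant. -/
noncomputable def quo (g : PP K X) (N : Submodule (Sy K) (PP K X)) : Submodule (Sy K) (PP K X) :=
  N.comap (LinearMap.mulLeft (Sy K) g)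

lemma mem_quo {g : PP K X} {N : Submodule (Sy K) (PP K X)} {F : PP K X} : F ∈ quo g N ↔ g * F ∈ N :=
  Iff.rfl

lemma TSt.quo {ρ α : ℤ → PP K X} {g : PP K X} {N : Submodule (Sy K) (PP K X)} (h : TSt c ρ N)
    (hg : SIm c g α) : TSt c (ρ + α) (quo g N) where
  rr F hF := h.rr _ (Ideal.mul_mem_left _ _ hF)
  st v F hF := by
    rw [mem_quo] at hF ⊢
    have h1 := h.st v _ hF
    have h2 := h.rr _ (Ideal.mul_mem_left _ F (hg v))
    have h3 := sub_mem h1 h2
    convert h3 using 1
    rw [Derivation.leibniz, smul_eq_mul, smul_eq_mul, Pi.add_apply]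
    ring

/-- Good elements are closed under multiplication by semi-invariants. -/
lemma ACCI.mul {ρ α : ℤ → PP K X} {g g' : PP K X} (hg : SIm c g α) (h : ACCI c ρ g)
    (h' : ACCI c (ρ + α) g') : ACCI c ρ (g * g') := fun N h1 h2 h3 => by
  obtain ⟨j₁, hj₁⟩ := h (fun j => N j ⊔ gP c g) (fun a b hab => sup_le_sup_right (h1 hab) _)
    (fun j => (h2 j).sup (gP_st hg ρ)) (fun j F => Submodule.mem_sup_right
      (mem_gP.2 ⟨F, by simp⟩))
  obtain ⟨j₂, hj₂⟩ := h' (fun j => quo g (N j)) (fun a b hab => Submodule.comap_mono (h1 hab))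
    (fun j => (h2 j).quo hg) (fun j F => by
      rw [mem_quo, ← mul_assoc]; exact h3 j F)
  refine ⟨max j₁ j₂, fun j w hw => ?_⟩
  obtain ⟨a, ha, b, hb, rfl⟩ := Submodule.mem_sup.1 (hj₁ j (Submodule.mem_sup_left hw))
  obtain ⟨G, hG⟩ := mem_gP.1 hb
  have ha' := h1 (le_max_left j₁ j₂) ha
  refine add_mem ha' ?_
  have e : b = (b - g * G) + g * G := by ring
  rw [e]
  refine add_mem ((h2 _).rr _ hG) (h1 (le_max_right j₁ j₂) ?_)
  have h5 : G ∈ quo g (N (max j (max j₁ j₂))) := by
    rw [mem_quo]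
    have e : g * G = (a + b) - a - (b - g * G) := by ring
    rw [e]
    refine sub_mem (sub_mem (h1 (le_max_left _ _) hw) (h1 (le_max_right _ _) ha')) ((h2 _).rr _ hG)
  exact hj₂ _ h5

end semi

section twists

variable (K X) in
/-- The twists. -/
noncomputable def TW : AddSubmonoid (ℤ → PP K X) := AddSubmonoid.closure
  ({ρ | ∃ i : X, ρ = fun v : ℤ => (v : Sy K) • wz i v} ∪
    {ρ | ∃ i : X, ρ = fun v : ℤ => -((v : Sy K) • wz i v)}
    ∪ {ρ | ∃ i j : X, ρ = fun v : ℤ => -hv K v i j})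

lemma pos_mem_TW (i : X) : (fun v : ℤ => (v : Sy K) • (wz i v : PP K X)) ∈ TW K X :=
  AddSubmonoid.subset_closure (Or.inl (Or.inl ⟨i, rfl⟩))

lemma neg_mem_TW (i : X) : (fun v : ℤ => -((v : Sy K) • (wz i v : PP K X))) ∈ TW K X :=
  AddSubmonoid.subset_closure (Or.inl (Or.inr ⟨i, rfl⟩))

lemma hv_mem_TW (i j : X) : (fun v : ℤ => -hv K v i j) ∈ TW K X :=
  AddSubmonoid.subset_closure (Or.inr ⟨i, j, rfl⟩)

lemma om_mem_TW (lam : X → ℤ) : om K lam ∈ TW K X := by
  have h1 : om K lam = ∑ i : X, fun v : ℤ => ((v * lam i : ℤ) : Sy K) • (wz i v : PP K X) := by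
    ext v : 1; rw [om, Finset.sum_apply]
  rw [h1]
  refine AddSubmonoid.sum_mem _ fun i _ => ?_
  obtain ⟨m, hm | hm⟩ := (lam i).eq_nat_or_neg
  · have : (fun v : ℤ => ((v * lam i : ℤ) : Sy K) • (wz i v : PP K X))
        = m • (fun v : ℤ => (v : Sy K) • (wz i v : PP K X)) := by
      ext v : 1
      rw [hm, Pi.smul_apply, ← Nat.cast_smul_eq_nsmul (Sy K), smul_smul]; push_cast
      rw [mul_comm]
    rw [this]; exact AddSubmonoid.nsmul_mem _ (pos_mem_TW i) m
  · have : (fun v : ℤ => ((v * lam i : ℤ) : Sy K) • (wz i v : PP K X))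
        = m • (fun v : ℤ => -((v : Sy K) • (wz i v : PP K X))) := by
      ext v : 1
      rw [hm, Pi.smul_apply, ← Nat.cast_smul_eq_nsmul (Sy K), smul_neg, smul_smul]; push_cast
      rw [← neg_smul, mul_comm (m : Sy K)]; congr 1; ring
    rw [this]; exact AddSubmonoid.nsmul_mem _ (neg_mem_TW i) m

variable (K X) in
/-- The untwisting elements. -/
noncomputable def Uc : Submonoid (PP K X) := Submonoid.closure
  ({g | ∃ i : X, g = w i} ∪ {g | ∃ i j : X, i ≠ j ∧ g = w i - w j})

lemma om_add (lam lam' : X → ℤ) (v : ℤ) : om K (lam + lam') v = om K lam v + om K lam' v := by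
  rw [om, om, om, ← Finset.sum_add_distrib]
  refine Finset.sum_congr rfl fun i _ => ?_
  rw [← add_smul, Pi.add_apply]; push_cast; congr 1; ring

lemma om_single (i : X) (m : ℤ) (v : ℤ) : om K (Pi.single i m) v = ((v * m : ℤ) : Sy K) • wz i v := by
  rw [om, Finset.sum_eq_single i]
  · simp
  · intro j _ hj; simp [hj]
  · intro h; exact absurd (Finset.mem_univ _) h

lemma exists_untwist {ρ : ℤ → PP K X} (hρ : ρ ∈ TW K X) :
    ∃ lam : X → ℤ, ∃ u ∈ Uc K X, ∀ v, pd v u + om K lam v * u = ρ v * u := by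
  induction hρ using AddSubmonoid.closure_induction with
  | zero => exact ⟨0, 1, one_mem _, fun v => by simp [om]⟩
  | add ρ ρ' _ _ h h' =>
    obtain ⟨lam, u, hu, h⟩ := h
    obtain ⟨lam', u', hu', h'⟩ := h'
    refine ⟨lam + lam', u * u', mul_mem hu hu', fun v => ?_⟩
    rw [Derivation.leibniz, om_add, Pi.add_apply, smul_eq_mul, smul_eq_mul]
    linear_combination u' * h v + u * h' v
  | mem ρ hρ =>
    rcases hρ with (⟨i, rfl⟩ | ⟨i, rfl⟩) | ⟨i, j, rfl⟩
    · exact ⟨Pi.single i 1, 1, one_mem _, fun v => by simp [om_single]⟩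
    · exact ⟨Pi.single i (-1), 1, one_mem _, fun v => by simp [om_single]⟩
    · by_cases hij : i = j
      · subst hij
        refine ⟨Pi.single i (-1), w i, Submonoid.subset_closure (Or.inl ⟨i, rfl⟩), fun v => ?_⟩
        show pd v (w i) + om K (Pi.single i (-1)) v * w i = -hv K v i i * w i
        rw [pd_w, om_single, hv_self, wz_add, w, neg_mul, smul_mul_assoc, smul_mul_assoc]
        push_cast
        rw [mul_neg_one, neg_smul, add_smul, one_smul]
        ring
      · refine ⟨0, w i - w j, Submonoid.subset_closure (Or.inr ⟨i, j, hij, rfl⟩), fun v => ?_⟩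
        rw [pd_w_sub]; simp [om]

/-- Cancellation of untwisting elements modulo `rr c`. -/
def Canc {n : ℕ} (c : Fin n → X) : Prop := ∀ u ∈ Uc K X, ∀ F : PP K X, u * F ∈ rr K c → F ∈ rr K c

lemma ACC.untwist {n : ℕ} {c : Fin n → X} (hc : Canc (K := K) c)
    (h : ∀ lam : X → ℤ, ACC c (om K lam)) {ρ : ℤ → PP K X} (hρ : ρ ∈ TW K X) : ACC c ρ := by
  obtain ⟨lam, u, hu, huv⟩ := exists_untwist hρ
  intro N h1 h2
  obtain ⟨j₀, hj₀⟩ := h lam (fun j => (N j).map (LinearMap.mulLeft (Sy K) u) ⊔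
    (rr K c).restrictScalars (Sy K)) (fun a b hab => sup_le_sup_right (Submodule.map_mono (h1 hab)) _)
    (fun j => ⟨fun F hF => Submodule.mem_sup_right hF, fun v F hF => by
      obtain ⟨_, ⟨a, ha, rfl⟩, b, hb, rfl⟩ := Submodule.mem_sup.1 hF
      have e : pd v (LinearMap.mulLeft (Sy K) u a + b) + om K lam v * (LinearMap.mulLeft (Sy K) u a + b)
          = u * (pd v a + ρ v * a) + (pd v b + om K lam v * b) := by
        rw [LinearMap.mulLeft_apply, map_add, Derivation.leibniz, smul_eq_mul, smul_eq_mul]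
        linear_combination a * huv v
      rw [e]
      refine Submodule.add_mem_sup ⟨_, (h2 j).st v a ha, rfl⟩ ?_
      exact add_mem (pd_mem_rr c v hb) (Ideal.mul_mem_left _ _ hb)⟩)
  refine ⟨j₀, fun j F hF => ?_⟩
  obtain ⟨_, ⟨a, ha, rfl⟩, b, hb, hab⟩ := Submodule.mem_sup.1
    (hj₀ j (Submodule.mem_sup_left ⟨F, hF, rfl⟩))
  rw [LinearMap.mulLeft_apply, LinearMap.mulLeft_apply] at hab
  have h3 : F - a ∈ rr K c := hc u hu _ (by
    have : u * (F - a) = b := by rw [mul_sub, ← hab]; ring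
    rw [this]; exact hb)
  have e : F = a + (F - a) := by ring
  rw [e]
  exact add_mem ha ((h2 _).rr _ h3)

end twists

end WittACC
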