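import Pool.Agent.helper37.WittC.Heavy3

/-!
Combinations of the twisted action killing the heavy directions.
-/

set_option linter.unusedSectionVars false
set_option linter.unusedVariables false

namespace WittACC

variable {K : Type*} [Field K] {X : Type*} [Fintype X] [DecidableEq X]

/-- Evaluation of the additional variable. -/
noncomputable abbrev evz (i : X) : PP K (X ⊕ Unit) →ₐ[Sy K] PP K X := sub (Sum.elim id (fun _ => i))

/-- The Euler operator of the additional variable. -/
noncomputable abbrev thz : PP K (X ⊕ Unit) →ₗ[Sy K] PP K (X ⊕ Unit) := dg (ev (Sum.inr ()))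

/-- The operator `∑_v 𝒢_v DD_v`. -/
noncomputable def WD (lam : X → ℤ) : PP K (X ⊕ Unit) →ₗ[Sy K] (PP K X → PP K X) :=
  lin fun a F => mon (fun i => a (Sum.inl i)) * DD lam (a (Sum.inr ())) F

/-- The operator `∑_v 𝒢_v ∂_v`. -/
noncomputable def CD : PP K (X ⊕ Unit) →ₗ[Sy K] (PP K X → PP K X) :=
  lin fun a F => mon (fun i => a (Sum.inl i)) * cmap (del (a (Sum.inr ()))) F

lemma WD_mon (lam : X → ℤ) (a : X ⊕ Unit → ℤ) (F : PP K X) :
    WD lam (mon a) F = mon (fun i => a (Sum.inl i)) * DD lam (a (Sum.inr ())) F := by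
  rw [WD, lin_mon]

lemma CD_mon (a : X ⊕ Unit → ℤ) (F : PP K X) :
    CD (mon a) F = mon (fun i => a (Sum.inl i)) * cmap (del (a (Sum.inr ()))) F := by
  rw [CD, lin_mon]

lemma CD_mul (G : PP K (X ⊕ Unit)) (F F' : PP K X) : CD G (F * F') = F * CD G F' + F' * CD G F := by
  induction G using lau_induction with
  | h0 => simp
  | ha x y hx hy =>
    rw [map_add, Pi.add_apply, Pi.add_apply, Pi.add_apply, hx, hy]; ring
  | hs s x hx =>
    rw [map_smul, Pi.smul_apply, Pi.smul_apply, Pi.smul_apply, hx, smul_add, mul_smul_comm,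
      mul_smul_comm]
  | hm a =>
    rw [CD_mon, CD_mon, CD_mon, Derivation.leibniz, smul_eq_mul, smul_eq_mul]; ring

lemma CD_add (G : PP K (X ⊕ Unit)) (F F' : PP K X) : CD G (F + F') = CD G F + CD G F' := by
  induction G using lau_induction with
  | h0 => simp
  | ha x y hx hy =>
    rw [map_add, Pi.add_apply, Pi.add_apply, Pi.add_apply, hx, hy]; ring
  | hs s x hx =>
    rw [map_smul, Pi.smul_apply, Pi.smul_apply, Pi.smul_apply, hx, smul_add]
  | hm a =>
    rw [CD_mon, CD_mon, CD_mon, map_add]; ring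

lemma CD_mon_right (G : PP K (X ⊕ Unit)) (b : X → ℤ) : CD G (mon b) = 0 := by
  induction G using lau_induction with
  | h0 => simp
  | ha x y hx hy =>
    rw [map_add, Pi.add_apply, hx, hy, add_zero]
  | hs s x hx =>
    rw [map_smul, Pi.smul_apply, hx, smul_zero]
  | hm a => rw [CD_mon, cmap_mon, mul_zero]

lemma cmap_algebraMap (δ : Derivation K (Sy K) (Sy K)) (s : Sy K) :
    cmap δ (algebraMap (Sy K) (PP K X) s) = algebraMap (Sy K) (PP K X) (δ s) := by
  rw [Algebra.algebraMap_eq_smul_one, Algebra.algebraMap_eq_smul_one, cmap_smul, ← mon_zero, cmap_mon,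
    smul_zero, add_zero]

lemma CD_ee (G : PP K (X ⊕ Unit)) (m : ℤ) :
    CD G (ee m) = eL ((thz G - (m : Sy K) • G) * wz (Sum.inr ()) m) := by
  induction G using lau_induction with
  | h0 => simp
  | ha x y hx hy =>
    rw [map_add, Pi.add_apply, hx, hy, ← map_add]
    congr 1
    rw [map_add, smul_add]; ring
  | hs s x hx =>
    rw [map_smul, Pi.smul_apply, hx, ← map_smul]
    congr 1
    rw [map_smul, smul_comm (m : Sy K) s, ← smul_sub, smul_mul_assoc]
  | hm a =>
    have h3 : (fun j => (a + Pi.single (Sum.inr ()) m : X ⊕ Unit → ℤ) (Sum.inl j))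
        = fun j => a (Sum.inl j) := by ext j; simp
    have hd : del (a (Sum.inr ())) (MvPolynomial.X m : Sy K)
        = (((a (Sum.inr ()) : ℤ) : Sy K) - (m : Sy K)) * MvPolynomial.X (a (Sum.inr ()) + m) := by
      rw [del_X, Algebra.smul_def, map_sub, map_intCast, map_intCast]
    have e : (thz (mon a) - (m : Sy K) • mon a) * wz (Sum.inr ()) m
        = (((a (Sum.inr ()) : ℤ) : Sy K) - (m : Sy K)) • (mon (a + Pi.single (Sum.inr ()) m) : PP K (X ⊕ Unit)) := by
      rw [thz, dg_mon, ← sub_smul, smul_mul_assoc, wz, mon_mul]; rfl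
    have e2 : (∏ y : Unit, MvPolynomial.X ((a + Pi.single (Sum.inr ()) m : X ⊕ Unit → ℤ) (Sum.inr y)) : Sy K)
        = MvPolynomial.X (a (Sum.inr ()) + m) := by
      rw [Finset.univ_unique, Finset.prod_singleton, Pi.add_apply]
      simp
    rw [CD_mon, ee, cmap_algebraMap, hd, e, map_smul, eL, eY_mon, h3, e2, map_mul,
      Algebra.smul_def, Algebra.smul_def]
    ring

lemma CD_mem_rr {n : ℕ} (c : Fin n → X) {G : PP K (X ⊕ Unit)} (hG : pc K c ∣ G) (hG' : pc K c ∣ thz G)
    (F : PP K X) : CD G F ∈ rr K c := by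
  have h1 : ∀ m : ℤ, CD G (ee m) ∈ rr K c := fun m => by
    rw [CD_ee]
    refine eL_mem_rr_of_dvd c (Dvd.dvd.mul_right (dvd_sub hG' ?_) _)
    rw [Algebra.smul_def]; exact Dvd.dvd.mul_left hG _
  have h2 : ∀ s : Sy K, CD G (algebraMap (Sy K) (PP K X) s) ∈ rr K c := by
    intro s
    induction s using MvPolynomial.induction_on with
    | C r =>
      have e : algebraMap (Sy K) (PP K X) (MvPolynomial.C r)
          = up (algebraMap K _ r) := by
        rw [AlgHom.commutes]; rfl
      have h3 : ∀ x : Lau K X, CD G (up x) = 0 := by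
        intro x
        have h4 : ∀ t : K, CD G (algebraMap (Sy K) (PP K X) (MvPolynomial.C t)) = 0 := by
          intro t
          have h5 : ∀ G : PP K (X ⊕ Unit), CD G (algebraMap (Sy K) (PP K X) (MvPolynomial.C t)) = 0 := by
            intro G
            induction G using lau_induction with
            | h0 => simp
            | ha x y hx hy => rw [map_add, Pi.add_apply, hx, hy, add_zero]
            | hs s x hx => rw [map_smul, Pi.smul_apply, hx, smul_zero]
            | hm a =>
              rw [CD_mon, cmap_algebraMap]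
              have : del (a (Sum.inr ())) (MvPolynomial.C t : Sy K) = 0 := Derivation.map_algebraMap _ _
              rw [this, map_zero, mul_zero]
          exact h5 G
        induction x using lau_induction with
        | h0 => have := h4 0; rwa [map_zero, map_zero] at this
        | ha x y hx hy => rw [map_add, CD_add, hx, hy, add_zero]
        | hm a => rw [up_mon, CD_mon_right]
        | hs t x hx =>
          rw [map_smul, smul_eq_C_smul, Algebra.smul_def, CD_mul, hx, h4]; simp
      rw [e, h3]; exact zero_mem _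
    | add p q hp hq => rw [map_add, CD_add]; exact add_mem hp hq
    | mul_X p i hp =>
      rw [map_mul, CD_mul]
      exact add_mem (Ideal.mul_mem_left _ _ (h1 i)) (Ideal.mul_mem_left _ _ hp)
  induction F using lau_induction with
  | h0 => have := h2 0; rwa [map_zero] at this
  | ha x y hx hy => rw [CD_add]; exact add_mem hx hy
  | hm a => rw [CD_mon_right]; exact zero_mem _
  | hs s x hx =>
    rw [Algebra.smul_def, CD_mul]
    exact add_mem (Ideal.mul_mem_left _ _ hx) (Ideal.mul_mem_left _ _ (h2 s))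

lemma evz_mon (i : X) (a : X ⊕ Unit → ℤ) : evz i (mon a : PP K (X ⊕ Unit))
    = mon (fun j => a (Sum.inl j)) * wz i (a (Sum.inr ())) := by
  have h1 : (mon a : PP K (X ⊕ Unit)) = sub Sum.inl (mon fun i => a (Sum.inl i)) *
      wz (Sum.inr ()) (a (Sum.inr ())) := by
    rw [sub_mon, wz, mon_mul, push_inl]
    congr 1
    ext x
    rcases x with x | x
    · simp
    · simp
  rw [evz, h1, map_mul, sub_sub, sub_wz, Sum.elim_comp_inl, sub_id]
  rfl

/-- Exact formula. -/
lemma WD_eq (lam : X → ℤ) (G : PP K (X ⊕ Unit)) (F : PP K X) :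
    WD lam G F = CD G F + ∑ i, ((lam i : Sy K) • (evz i (thz G) * F) - evz i G * dg (ev i) F) := by
  induction G using lau_induction with
  | h0 => simp
  | ha x y hx hy =>
    rw [map_add, map_add, Pi.add_apply, Pi.add_apply, hx, hy, add_add_add_comm,
      ← Finset.sum_add_distrib]
    congr 1
    refine Finset.sum_congr rfl fun i _ => ?_
    rw [map_add, map_add, map_add, add_mul, add_mul, smul_add]; ring
  | hs s x hx =>
    rw [map_smul, map_smul, Pi.smul_apply, Pi.smul_apply, hx, smul_add, Finset.smul_sum]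
    congr 1
    refine Finset.sum_congr rfl fun i _ => ?_
    rw [map_smul, map_smul, map_smul, smul_sub, smul_mul_assoc, smul_mul_assoc, smul_comm s]
  | hm a =>
    rw [WD_mon, CD_mon, DD, pd_apply, om, mul_add, mul_sub, Finset.mul_sum,
      Finset.sum_mul, Finset.mul_sum]
    have e : ∀ A B C : PP K X, A - B + C = A + (C - B) := fun A B C => by ring
    rw [e, ← Finset.sum_sub_distrib]
    congr 1
    refine Finset.sum_congr rfl fun i _ => ?_
    rw [thz, dg_mon, map_smul, evz_mon, ev_apply]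
    simp only [smul_mul_assoc, mul_smul_comm, smul_smul]
    push_cast
    rw [mul_comm (lam i : Sy K), mul_assoc, mul_assoc]

section light

variable {l : ℕ} {H : Type*} [Fintype H] [DecidableEq H] {n : ℕ} {c : Fin n → H}

/-- The light part. -/
noncomputable def LW (lam : Fin l ⊕ H → ℤ) (G : PP K ((Fin l ⊕ H) ⊕ Unit)) (F : PP K (Fin l ⊕ H)) :
    PP K (Fin l ⊕ H) :=
  ∑ j : Fin l, ((lam (Sum.inl j) : Sy K) • (evz (Sum.inl j) (thz G) * F) -
    evz (Sum.inl j) G * dg (ev (Sum.inl j)) F)

lemma thz_sq_dvd (g y : PP K (X ⊕ Unit)) : g ∣ thz (g ^ 2 * y) := by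
  have := dg_pow_dvd (ev (Sum.inr ()) : (X ⊕ Unit → ℤ) →+ Sy K) g y 1
  rwa [pow_one] at this

lemma WD_light (hc : Function.Surjective c) (lam : Fin l ⊕ H → ℤ) {G : PP K ((Fin l ⊕ H) ⊕ Unit)}
    (hG : pc K (Sum.inr ∘ c : Fin n → Fin l ⊕ H) ^ 2 ∣ G) (F : PP K (Fin l ⊕ H)) :
    WD lam G F - LW lam G F ∈ rr K (Sum.inr ∘ c : Fin n → Fin l ⊕ H) := by
  obtain ⟨G', rfl⟩ := hG
  set p := pc K (Sum.inr ∘ c : Fin n → Fin l ⊕ H) with hp
  have h1 : p ∣ p ^ 2 * G' := Dvd.dvd.mul_right (dvd_pow_self _ two_ne_zero) _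
  have h2 : p ∣ thz (p ^ 2 * G') := thz_sq_dvd _ _
  have h3 : ∀ h : H, evz (Sum.inr h) p = 0 := by
    intro h
    obtain ⟨k, rfl⟩ := hc h
    rw [hp, pc, map_prod]
    refine Finset.prod_eq_zero (Finset.mem_univ k) ?_
    rw [map_sub, sub_w, sub_w]; simp
  have h4 : ∀ h : H, evz (Sum.inr h) (p ^ 2 * G') = 0 := fun h => by
    obtain ⟨y, hy⟩ := h1
    rw [hy, map_mul, h3, zero_mul]
  have h5 : ∀ h : H, evz (Sum.inr h) (thz (p ^ 2 * G')) = 0 := fun h => by
    obtain ⟨y, hy⟩ := h2
    rw [hy, map_mul, h3, zero_mul]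
  rw [WD_eq, Fintype.sum_sum_type, LW]
  simp only [h4, h5, zero_mul, smul_zero, sub_zero, Finset.sum_const_zero, add_zero]
  rw [add_sub_cancel_right]
  exact CD_mem_rr _ h1 h2 F

end light

end WittACC
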